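import Pool.Agent.EFN.M1
import Pool.Agent.EFM.Fam

/-!
# The family of curves
-/

set_option autoImplicit false
set_option linter.unusedSectionVars false

namespace Pool.Agent.EFN

open WeierstrassCurve WeierstrassCurve.Affine EFF Polynomial

open scoped Classical

/-- the roots of the cubic polynomial -/
theorem m_exists_rts {F : Type*} [Field F] [IsAlgClosed F] (W : WeierstrassCurve F) (h2 : (2 : F) ≠ 0)
    (h1 : W.a₁ = 0) (h3 : W.a₃ = 0) (hΔ : W.Δ ≠ 0) :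
    ∃ e₁ e₂ e₃ : F, Rts W.toAffine e₁ e₂ e₃ := by
  obtain ⟨e₁, he₁⟩ := IsAlgClosed.exists_root
    (X ^ 3 + (C W.a₂ * X ^ 2 + C W.a₄ * X + C W.a₆) : F[X]) (by
      have : (X ^ 3 + (C W.a₂ * X ^ 2 + C W.a₄ * X + C W.a₆) : F[X]).degree = 3 := by
        rw [degree_add_eq_left_of_degree_lt, degree_X_pow]
        · rfl
        · rw [degree_X_pow]
          refine (degree_quadratic_le).trans_lt ?_
          decide
      rw [this]
      decide)
  obtain ⟨e₂, he₂⟩ := IsAlgClosed.exists_root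
    (X ^ 2 + (C (W.a₂ + e₁) * X + C (W.a₄ + e₁ * (W.a₂ + e₁))) : F[X]) (by
      have : (X ^ 2 + (C (W.a₂ + e₁) * X + C (W.a₄ + e₁ * (W.a₂ + e₁))) : F[X]).degree = 2 := by
        rw [degree_add_eq_left_of_degree_lt, degree_X_pow]
        · rfl
        · rw [degree_X_pow]
          refine (degree_linear_le).trans_lt ?_
          decide
      rw [this]
      decide)
  rw [IsRoot.def] at he₁ he₂
  simp only [eval_add, eval_mul, eval_pow, eval_X, eval_C] at he₁ he₂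
  obtain ⟨e₃, he₃⟩ : ∃ e₃, e₃ = -W.a₂ - e₁ - e₂ := ⟨_, rfl⟩
  have a2 : W.a₂ = -(e₁ + e₂ + e₃) := by rw [he₃]; ring
  have a4 : W.a₄ = e₁ * e₂ + e₁ * e₃ + e₂ * e₃ := by
    rw [he₃]; linear_combination he₂
  have a6 : W.a₆ = -(e₁ * e₂ * e₃) := by
    rw [he₃]; linear_combination he₁ - e₁ * he₂
  have hD : W.Δ = 16 * ((e₂ - e₁) * (e₃ - e₁) * (e₂ - e₃)) ^ 2 := by
    rw [WeierstrassCurve.Δ, WeierstrassCurve.b₂, WeierstrassCurve.b₄, WeierstrassCurve.b₆,
      WeierstrassCurve.b₈, h1, a2, h3, a4, a6]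
    ring
  refine ⟨e₁, e₂, e₃, h1, h3, a2, a4, a6, h2, ?_, ?_, ?_⟩
  · rintro rfl
    apply hΔ
    rw [hD]
    ring
  · rintro rfl
    apply hΔ
    rw [hD]
    ring
  · rintro rfl
    apply hΔ
    rw [hD]
    ring

/-- the family: the discriminant and the `j`-invariant -/
theorem fam {k : Type} [Field k] (a₂ a₄ a₆ : k[X]) (hN : NonIso a₂ a₄ a₆) (φ : k[X])
    (hφ : φ.natDegree ≠ 0) :
    (crv a₂ a₄ a₆ (aeval (RatFunc.X : RatFunc k) φ)).Δ ≠ 0 ∧
    ∀ j : k, (crv a₂ a₄ a₆ (aeval (RatFunc.X : RatFunc k) φ)).c₄ ^ 3 ≠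
      algebraMap k (RatFunc k) j * (crv a₂ a₄ a₆ (aeval (RatFunc.X : RatFunc k) φ)).Δ := by
  obtain ⟨t, ht⟩ : ∃ t : RatFunc k, t = aeval (RatFunc.X : RatFunc k) φ := ⟨_, rfl⟩
  rw [← ht]
  have htr : Transcendental k t := by
    rw [ht]
    have h1 : Transcendental k (RatFunc.X : RatFunc k) := RatFunc.transcendental_X
    exact h1.aeval φ hφ (mem_nonZeroDivisors_of_ne_zero (leadingCoeff_ne_zero.2 (by
      rintro rfl
      exact hφ natDegree_zero)))
  have hmap : (crv a₂ a₄ a₆ (X : k[X])).map ((aeval t : k[X] →ₐ[k] RatFunc k) : k[X] →+* RatFunc k)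
      = crv a₂ a₄ a₆ t := by
    have h : ∀ a : k[X], (aeval t) (aeval (X : k[X]) a) = aeval t a := by
      intro a
      rw [aeval_X_left_apply]
    ext
    · exact map_zero _
    · exact h a₂
    · exact map_zero _
    · exact h a₄
    · exact h a₆
  have hinj : Function.Injective (aeval t : k[X] →ₐ[k] RatFunc k) :=
    transcendental_iff_injective.1 htr
  have hΔ : (crv a₂ a₄ a₆ t).Δ = aeval t (crv a₂ a₄ a₆ (X : k[X])).Δ := by
    rw [← hmap, WeierstrassCurve.map_Δ]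
    rfl
  have hc : (crv a₂ a₄ a₆ t).c₄ = aeval t (crv a₂ a₄ a₆ (X : k[X])).c₄ := by
    rw [← hmap, WeierstrassCurve.map_c₄]
    rfl
  constructor
  · rw [hΔ, Ne, map_eq_zero_iff _ hinj]
    exact hN.1
  · intro j h
    apply hN.2 j
    apply hinj
    rw [map_pow, map_mul, aeval_C, ← hc, ← hΔ, h]

/-- The conclusion, given the finiteness of `M / 2 M`. -/
theorem main_W {k : Type} [Field k] [Finite k] (h2 : (2 : k) ≠ 0) (W : WeierstrassCurve (RatFunc k))
    (h1 : W.a₁ = 0) (h3 : W.a₃ = 0) (hΔ : W.Δ ≠ 0)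
    (hj : ∀ j : k, W.c₄ ^ 3 ≠ algebraMap k (RatFunc k) j * W.Δ)
    (hq : ∃ R : Finset (Pts W (Kb k)),
      (∀ r ∈ R, Fix _ r) ∧ ∀ P, Fix _ P → ∃ r ∈ R, ∃ Q, Fix _ Q ∧ P = r + 2 • Q)
    (c : ℕ → (Kb k ≃ₐ[RatFunc k] Kb k) → Pts W (Kb k)) (hc : ShaSys W k 2 c)
    (hgeo : ∀ n, Principal W (T1B.geo k (RatFunc k) (Kb k)) (c n)) (n : ℕ) :
    Principal W ⊤ (c n) := by
  obtain ⟨p, hp⟩ := CharP.exists k
  have hpp : p.Prime := by
    rcases CharP.char_is_prime_or_zero k p with h | h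
    · exact h
    · exfalso
      rw [h] at hp
      have : CharZero k := CharP.charP_to_charZero k
      exact not_finite k
  have : Fact p.Prime := ⟨hpp⟩
  have hp2 : p ≠ 2 := by
    rintro rfl
    apply h2
    exact_mod_cast CharP.cast_eq_zero k 2
  obtain ⟨R, hRf, hR⟩ := hq
  have h2' : (2 : Kb k) ≠ 0 := by
    intro h0
    apply h2
    apply (algebraMap k (Kb k)).injective
    rw [map_ofNat, map_zero, h0]
  obtain ⟨e₁, e₂, e₃, hr⟩ := m_exists_rts (W.baseChange (Kb k)) h2'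
    (by
      show algebraMap (RatFunc k) (Kb k) W.a₁ = 0
      rw [h1, map_zero])
    (by
      show algebraMap (RatFunc k) (Kb k) W.a₃ = 0
      rw [h3, map_zero])
    (by
      rw [show (W.baseChange (Kb k)).Δ = algebraMap (RatFunc k) (Kb k) W.Δ from W.map_Δ _]
      exact (_root_.map_ne_zero _).2 hΔ)
  obtain ⟨e, he⟩ := tors_bd W p hp2 hr hj
  exact main_of W R hRf hR e he c hc hgeo n

end Pool.Agent.EFN
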