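import Mathlib

/-!
# Valuations with rational values on the algebraic closure of a function field in one variable
-/

set_option autoImplicit false

namespace Pool.Agent.EFN

open Polynomial

variable {C Ω : Type*} [Field C] [Field Ω] [Algebra C Ω]

variable (C) in
/-- a valuation with values in the rational numbers, trivial on the constants -/
structure QV (v : Ω → ℚ) : Prop where
  mul : ∀ x y, x ≠ 0 → y ≠ 0 → v (x * y) = v x + v y
  add : ∀ x y, x ≠ 0 → y ≠ 0 → x + y ≠ 0 → min (v x) (v y) ≤ v (x + y)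
  cst : ∀ c : C, c ≠ 0 → v (algebraMap C Ω c) = 0

section Gen

variable {Γ : Type*} [LinearOrderedCommGroupWithZero Γ] (V : Valuation Ω Γ) {w : Ω}

theorem val_poly (hC : ∀ c : C, c ≠ 0 → V (algebraMap C Ω c) = 1) (h1 : V w < 1)
    (f : C[X]) (hf : aeval w f ≠ 0) : ∃ m : ℤ, V (aeval w f) = V w ^ m := by
  have hf0 : f ≠ 0 := by rintro rfl; simp at hf
  obtain ⟨n, g, hg, hfg⟩ : ∃ (n : ℕ) (g : C[X]), g.coeff 0 ≠ 0 ∧ f = X ^ n * g := by
    obtain ⟨g, hg, hd⟩ := Polynomial.exists_eq_pow_rootMultiplicity_mul_and_not_dvd f hf0 0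
    refine ⟨f.rootMultiplicity 0, g, ?_, ?_⟩
    · intro h
      apply hd
      rw [C_0, sub_zero, X_dvd_iff]
      exact h
    · conv_lhs => rw [hg]
      rw [C_0, sub_zero]
  refine ⟨n, ?_⟩
  have hgv : V (aeval w g) = 1 := by
    have h2 : g = Polynomial.C (g.coeff 0) + X * g.divX := by
      conv_lhs => rw [← divX_mul_X_add g]
      ring
    have h3 : V (aeval w (X * g.divX)) < 1 := by
      rw [map_mul, aeval_X, map_mul]
      have h4 : V (aeval w g.divX) ≤ 1 := by
        rw [aeval_eq_sum_range]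
        refine V.map_sum_le fun i _ => ?_
        rw [Algebra.smul_def, map_mul, map_pow]
        have h5 : V (algebraMap C Ω (g.divX.coeff i)) ≤ 1 := by
          by_cases h0 : g.divX.coeff i = 0
          · rw [h0, map_zero, map_zero]; exact zero_le_one
          · exact (hC _ h0).le
        exact mul_le_one' h5 (pow_le_one' h1.le i)
      calc V w * V (aeval w g.divX) ≤ V w * 1 := by gcongr
        _ < 1 := by rwa [mul_one]
    rw [h2, map_add, aeval_C]
    rw [V.map_add_eq_of_lt_left (by rw [hC _ hg]; exact h3), hC _ hg]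
  rw [hfg, map_mul, map_mul, hgv, mul_one, map_pow, aeval_X, map_pow, zpow_natCast]

theorem val_adjoin (hC : ∀ c : C, c ≠ 0 → V (algebraMap C Ω c) = 1) (h1 : V w < 1)
    (a : Ω) (ha : a ∈ IntermediateField.adjoin C {w}) (ha0 : a ≠ 0) :
    ∃ m : ℤ, V a = V w ^ m := by
  obtain ⟨r, s, hrs⟩ := (IntermediateField.mem_adjoin_simple_iff C a).1 ha
  have hr : aeval w r ≠ 0 := by
    intro h
    rw [h, zero_div] at hrs
    exact ha0 hrs
  have hs : aeval w s ≠ 0 := by
    intro h
    rw [h, div_zero] at hrs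
    exact ha0 hrs
  obtain ⟨m, hm⟩ := val_poly V hC h1 r hr
  obtain ⟨n, hn⟩ := val_poly V hC h1 s hs
  have hw : V w ≠ 0 ∨ V w = 0 := (em _).symm
  by_cases hw0 : V w = 0
  · refine ⟨0, ?_⟩
    have hm' : V (aeval w r) = 1 := by
      by_cases h : m = 0
      · rw [hm, h, zpow_zero]
      · rw [hw0, zero_zpow _ h] at hm
        exact absurd ((V.zero_iff).1 hm) hr
    have hn' : V (aeval w s) = 1 := by
      by_cases h : n = 0
      · rw [hn, h, zpow_zero]
      · rw [hw0, zero_zpow _ h] at hn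
        exact absurd ((V.zero_iff).1 hn) hs
    rw [hrs, map_div₀, hm', hn', div_one, zpow_zero]
  · exact ⟨m - n, by rw [hrs, map_div₀, hm, hn, zpow_sub₀ hw0]⟩

/-- an algebraic element has a power whose value is a power of the value of `w` -/
theorem val_alg (hC : ∀ c : C, c ≠ 0 → V (algebraMap C Ω c) = 1) (h1 : V w < 1) (hw : w ≠ 0)
    (x : Ω) (hx0 : x ≠ 0) (hx : IsIntegral (IntermediateField.adjoin C {w}) x) :
    ∃ n : ℕ, 0 < n ∧ n ≤ (minpoly (IntermediateField.adjoin C {w}) x).natDegree ∧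
      ∃ m : ℤ, V x ^ n = V w ^ m := by
  obtain ⟨p, hp⟩ : ∃ p, p = minpoly (IntermediateField.adjoin C {w}) x := ⟨_, rfl⟩
  have hpne : p ≠ 0 := by rw [hp]; exact minpoly.ne_zero hx
  have hsum : ∑ i ∈ p.support, algebraMap (IntermediateField.adjoin C {w}) Ω (p.coeff i) * x ^ i
      = 0 := by
    have h2 := minpoly.aeval (IntermediateField.adjoin C {w}) x
    rw [← hp, aeval_def, eval₂_eq_sum] at h2
    exact h2
  obtain ⟨T, hT⟩ : ∃ T : ℕ → Ω, T = fun i =>
    algebraMap (IntermediateField.adjoin C {w}) Ω (p.coeff i) * x ^ i := ⟨_, rfl⟩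
  obtain ⟨i, hi, hmax⟩ := Finset.exists_max_image p.support (fun i => V (T i))
    (by rwa [nonempty_support_iff])
  have hTi : ∀ i ∈ p.support, T i ≠ 0 := by
    intro i hi
    rw [hT]
    refine mul_ne_zero ?_ (pow_ne_zero _ hx0)
    rw [Ne, FaithfulSMul.algebraMap_eq_zero_iff]
    exact mem_support_iff.1 hi
  obtain ⟨j, hj, hji, hij⟩ : ∃ j ∈ p.support, j ≠ i ∧ V (T j) = V (T i) := by
    by_contra hcon
    push Not at hcon
    have h3 : T i = - ∑ j ∈ p.support.erase i, T j := by
      rw [← Finset.add_sum_erase _ _ hi] at hsum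
      rw [hT]
      exact eq_neg_of_add_eq_zero_left hsum
    have h4 : V (∑ j ∈ p.support.erase i, T j) < V (T i) := by
      refine V.map_sum_lt ((V.ne_zero_iff).2 (hTi i hi)) fun j hj => ?_
      obtain ⟨h5, h6⟩ := Finset.mem_erase.1 hj
      exact lt_of_le_of_ne (hmax j h6) (hcon j h6 h5)
    rw [h3, Valuation.map_neg] at h4
    conv_lhs at h4 => rw [← neg_neg (∑ j ∈ p.support.erase i, T j), Valuation.map_neg]
    rw [← h3] at h4
    have h7 : V (∑ j ∈ p.support.erase i, T j) = V (T i) := by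
      conv_rhs => rw [h3, Valuation.map_neg]
    rw [h7] at h4
    exact lt_irrefl _ h4
  have key : ∀ i j : ℕ, i ∈ p.support → j ∈ p.support → i < j → V (T j) = V (T i) →
      ∃ n : ℕ, 0 < n ∧ n ≤ p.natDegree ∧ ∃ m : ℤ, V x ^ n = V w ^ m := by
    intro i j hi hj hlt he
    refine ⟨j - i, Nat.sub_pos_of_lt hlt, (Nat.sub_le _ _).trans (le_natDegree_of_mem_supp j hj),
      ?_⟩
    obtain ⟨m1, hm1⟩ := val_adjoin V hC h1 _ (p.coeff i).2 (by
      have := mem_support_iff.1 hi
      simpa using this)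
    obtain ⟨m2, hm2⟩ := val_adjoin V hC h1 _ (p.coeff j).2 (by
      have := mem_support_iff.1 hj
      simpa using this)
    have hVw : V w ≠ 0 := (V.ne_zero_iff).2 hw
    have hVx : V x ≠ 0 := (V.ne_zero_iff).2 hx0
    refine ⟨m1 - m2, ?_⟩
    have h5 : V w ^ m2 * V x ^ j = V w ^ m1 * V x ^ i := by
      have h6 : V (algebraMap (IntermediateField.adjoin C {w}) Ω (p.coeff j)) = V w ^ m2 := hm2
      have h7 : V (algebraMap (IntermediateField.adjoin C {w}) Ω (p.coeff i)) = V w ^ m1 := hm1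
      rw [hT] at he
      simp only [map_mul, map_pow] at he
      rw [h6, h7] at he
      exact he
    have h8 : V x ^ j = V x ^ (j - i) * V x ^ i := by
      rw [← pow_add, Nat.sub_add_cancel hlt.le]
    rw [h8, ← mul_assoc] at h5
    have h9 := mul_right_cancel₀ (pow_ne_zero i hVx) h5
    rw [zpow_sub₀ hVw, ← h9, mul_comm (V w ^ m2), mul_div_assoc,
      div_self (zpow_ne_zero _ hVw), mul_one]
  rw [← hp]
  rcases lt_or_gt_of_ne hji with h | h
  · exact key j i hj hi h hij.symm
  · exact key i j hi hj h hij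

end Gen

end Pool.Agent.EFN
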