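import Pool.Agent.EFN.H1
import Pool.Agent.EFN.Q0

/-!
# The valuations of the coordinates of successive halves
-/

set_option autoImplicit false
set_option linter.unusedSectionVars false

namespace Pool.Agent.EFN

open WeierstrassCurve WeierstrassCurve.Affine

open scoped Classical

section val

variable {C Ω : Type*} [Field C] [Field Ω] [Algebra C Ω] {v : Ω → ℚ} (hv : QV C v)

include hv

theorem QV.one : v 1 = 0 := by
  have := hv.mul 1 1 one_ne_zero one_ne_zero
  rw [mul_one] at this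
  linarith

theorem QV.neg_one : v (-1) = 0 := by
  have := hv.mul (-1) (-1) (by simp) (by simp)
  rw [neg_mul_neg, mul_one, hv.one] at this
  linarith

theorem QV.neg {x : Ω} (hx : x ≠ 0) : v (-x) = v x := by
  have := hv.mul (-1) x (by simp) hx
  rw [neg_one_mul, hv.neg_one] at this
  linarith

theorem QV.sub_comm {x y : Ω} (h : x ≠ y) : v (x - y) = v (y - x) := by
  rw [← neg_sub, hv.neg (sub_ne_zero.2 h.symm)]

theorem QV.pow {x : Ω} (hx : x ≠ 0) (n : ℕ) : v (x ^ n) = n * v x := by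
  induction n with
  | zero => rw [pow_zero, hv.one]; simp
  | succ n ih =>
    rw [pow_succ, hv.mul _ _ (pow_ne_zero n hx) hx, ih]
    push_cast
    ring

theorem QV.inv {x : Ω} (hx : x ≠ 0) : v x⁻¹ = - v x := by
  have := hv.mul x x⁻¹ hx (inv_ne_zero hx)
  rw [mul_inv_cancel₀ hx, hv.one] at this
  linarith

theorem QV.div {x y : Ω} (hx : x ≠ 0) (hy : y ≠ 0) : v (x / y) = v x - v y := by
  rw [div_eq_mul_inv, hv.mul _ _ hx (inv_ne_zero hy), hv.inv hy]
  ring

theorem QV.add_lt {x y : Ω} (hx : x ≠ 0) (hy : y ≠ 0) (h : v x < v y) :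
    x + y ≠ 0 ∧ v (x + y) = v x := by
  have hne : x + y ≠ 0 := by
    intro h0
    have h1 : y = -x := by linear_combination h0
    rw [h1, hv.neg hx] at h
    exact lt_irrefl _ h
  refine ⟨hne, le_antisymm ?_ ?_⟩
  · by_contra hcon
    push Not at hcon
    have h1 := hv.add (x + y) (-y) hne (neg_ne_zero.2 hy) (by
      rw [add_neg_cancel_right]; exact hx)
    rw [add_neg_cancel_right, hv.neg hy] at h1
    rcases min_le_iff.1 h1 with h2 | h2
    · exact absurd h2 (not_le.2 hcon)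
    · exact absurd h2 (not_le.2 h)
  · have h1 := hv.add x y hx hy hne
    rwa [min_eq_left h.le] at h1

theorem QV.sub_lt {x y : Ω} (hx : x ≠ 0) (hy : y ≠ 0) (h : v x < v y) :
    x - y ≠ 0 ∧ v (x - y) = v x := by
  have := hv.add_lt hx (neg_ne_zero.2 hy) (by rwa [hv.neg hy])
  rwa [← sub_eq_add_neg] at this

theorem QV.sub_lt' {x y : Ω} (hx : x ≠ 0) (hy : y ≠ 0) (h : v y < v x) :
    x - y ≠ 0 ∧ v (x - y) = v y := by
  have := hv.add_lt (neg_ne_zero.2 hy) hx (by rwa [hv.neg hy])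
  rw [neg_add_eq_sub] at this
  rwa [hv.neg hy] at this

/-- The step. -/
theorem step (h2 : v 2 = 0) (h2' : (2 : Ω) ≠ 0) {e₁ e₂ e₃ X w₁ w₂ w₃ : Ω} {r s t : ℚ}
    (n12 : e₁ ≠ e₂) (n13 : e₁ ≠ e₃)
    (hr : v (e₃ - e₁) = r) (hs : v (e₂ - e₁) = s) (hX : X ≠ e₁)
    (ht : v (X - e₁) = r + t) (t0 : 0 < t) (t1 : t < s - r)
    (h1 : w₁ ^ 2 = X - e₁) (h2w : w₂ ^ 2 = X - e₂) (h3 : w₃ ^ 2 = X - e₃) :
    v ((w₁ + w₂) * (w₁ + w₃)) = r + t / 2 ∨ v ((w₁ + w₂) * (w₁ + w₃)) = s - t / 2 := by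
  have nX1 : X - e₁ ≠ 0 := sub_ne_zero.2 hX
  have nb : e₂ - e₁ ≠ 0 := sub_ne_zero.2 n12.symm
  have nc : e₃ - e₁ ≠ 0 := sub_ne_zero.2 n13.symm
  -- `X - e₂`
  obtain ⟨nX2, vX2⟩ := hv.sub_lt nX1 nb (by rw [ht, hs]; linarith)
  have E2 : X - e₁ - (e₂ - e₁) = X - e₂ := by ring
  rw [E2] at nX2 vX2
  -- `X - e₃`
  obtain ⟨nX3, vX3⟩ := hv.sub_lt' nX1 nc (by rw [ht, hr]; linarith)
  have E3 : X - e₁ - (e₃ - e₁) = X - e₃ := by ring
  rw [E3] at nX3 vX3
  have m1 : w₁ ≠ 0 := by
    intro h0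
    apply nX1
    rw [← h1, h0]; ring
  have m2 : w₂ ≠ 0 := by
    intro h0
    apply nX2
    rw [← h2w, h0]; ring
  have m3 : w₃ ≠ 0 := by
    intro h0
    apply nX3
    rw [← h3, h0]; ring
  have v1 : v w₁ = (r + t) / 2 := by
    have := hv.pow m1 2
    rw [h1, ht] at this
    push_cast at this
    linarith
  have v2 : v w₂ = (r + t) / 2 := by
    have := hv.pow m2 2
    rw [h2w, vX2, ht] at this
    push_cast at this
    linarith
  have v3 : v w₃ = r / 2 := by
    have := hv.pow m3 2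
    rw [h3, vX3, hr] at this
    push_cast at this
    linarith
  -- `w₁ + w₃`
  obtain ⟨n13', v13⟩ := hv.add_lt m3 m1 (by rw [v3, v1]; linarith)
  rw [add_comm w₃ w₁] at n13' v13
  -- `w₁ ± w₂`
  have hprod : (w₁ + w₂) * (w₁ - w₂) = e₂ - e₁ := by linear_combination h1 - h2w
  have p0 : w₁ + w₂ ≠ 0 := by
    intro h0
    rw [h0, zero_mul] at hprod
    exact nb hprod.symm
  have q0 : w₁ - w₂ ≠ 0 := by
    intro h0
    rw [h0, mul_zero] at hprod
    exact nb hprod.symm
  have hsum : v (w₁ + w₂) + v (w₁ - w₂) = s := by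
    rw [← hv.mul _ _ p0 q0, hprod, hs]
  have g1 : (r + t) / 2 ≤ v (w₁ + w₂) := by
    have := hv.add w₁ w₂ m1 m2 p0
    rwa [v1, v2, min_self] at this
  have g2 : (r + t) / 2 ≤ v (w₁ - w₂) := by
    have := hv.add w₁ (-w₂) m1 (neg_ne_zero.2 m2) (by rwa [← sub_eq_add_neg])
    rwa [hv.neg m2, v1, v2, min_self, ← sub_eq_add_neg] at this
  have g3 : min (v (w₁ + w₂)) (v (w₁ - w₂)) ≤ (r + t) / 2 := by
    have h5 : (w₁ + w₂) + (w₁ - w₂) = 2 * w₁ := by ring
    have := hv.add (w₁ + w₂) (w₁ - w₂) p0 q0 (by rw [h5]; exact mul_ne_zero h2' m1)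
    rwa [h5, hv.mul _ _ h2' m1, h2, v1, zero_add] at this
  rw [hv.mul _ _ p0 n13', v13, v3]
  rcases min_le_iff.1 g3 with h5 | h5
  · left; linarith
  · right; linarith

end val

section pts

variable {C Ω : Type*} [Field C] [Field Ω] [Algebra C Ω] {v : Ω → ℚ} (hv : QV C v)
  {W : Affine Ω} {e₁ e₂ e₃ : Ω} (hW : Rts W e₁ e₂ e₃)

include hv hW

theorem self_add {x y : Ω} (h : W.Nonsingular x y) (hy : y = 0) :
    Point.some x y h + Point.some x y h = 0 := by
  refine Point.add_self_of_Y_eq ?_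
  rw [hW.negy, hy, neg_zero]

/-- **The valuations of the coordinates of successive halves.** -/
theorem halves (h2 : v 2 = 0) {r s : ℚ} (hr : v (e₃ - e₁) = r) (hs : v (e₂ - e₁) = s)
    (hrs : r < s) (h₁ : W.Nonsingular e₁ 0) (n : ℕ) (hn : 0 < n) (P : W.Point)
    (hP : 2 ^ n • P = Point.some e₁ 0 h₁) :
    ∃ x y h, P = Point.some x y h ∧ y ≠ 0 ∧ ∃ o : ℕ, Odd o ∧ 0 < o ∧ o < 2 ^ n ∧
      2 ^ n * (v (x - e₁) - r) = (s - r) * o := by
  induction n generalizing P with
  | zero => exact absurd hn (lt_irrefl 0)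
  | succ n ih =>
    have hP' : 2 ^ n • (P + P) = Point.some e₁ 0 h₁ := by
      rw [← hP, pow_succ, mul_smul, two_nsmul]
    have hPne : P + P ≠ 0 := by
      intro h0
      rw [h0, smul_zero] at hP'
      exact Point.some_ne_zero h₁ hP'.symm
    obtain ⟨x, y, h, hPe⟩ : ∃ x y h, P = Point.some x y h := by
      cases P with
      | zero => exact absurd rfl (hPne)
      | some x y h => exact ⟨x, y, h, rfl⟩
    have hy : y ≠ 0 := by
      intro hy
      apply hPne
      rw [hPe]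
      exact self_add hv hW h hy
    have nb : e₂ - e₁ ≠ 0 := sub_ne_zero.2 hW.n12.symm
    have nc : e₃ - e₁ ≠ 0 := sub_ne_zero.2 hW.n13.symm
    have heq := (hW.eqn x y).1 h.1
    have hx1 : x - e₁ ≠ 0 := by
      intro h0
      rw [h0, zero_mul, zero_mul] at heq
      exact hy (pow_eq_zero_iff (two_ne_zero)|>.1 heq)
    refine ⟨x, y, h, hPe, hy, ?_⟩
    rcases Nat.eq_zero_or_pos n with hn0 | hnpos
    · subst hn0
      rw [pow_zero, one_smul, hPe] at hP'
      obtain ⟨w₁, w₂, w₃, h1, h2w, h3, h4⟩ := hW.half hy h h₁ hP'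
      refine ⟨1, odd_one, one_pos, by norm_num, ?_⟩
      have hw1 : w₁ = 0 := by
        rw [sub_self] at h1
        exact pow_eq_zero_iff (two_ne_zero) |>.1 h1
      have h5 : (x - e₁) ^ 2 = (e₂ - e₁) * (e₃ - e₁) := by
        rw [← h4, hw1]
        linear_combination w₃ ^ 2 * h2w + (e₁ - e₂) * h3
      have h6 := hv.pow hx1 2
      rw [h5, hv.mul _ _ nb nc, hr, hs] at h6
      push_cast at h6 ⊢
      linarith
    · obtain ⟨X, Y, H, hQ, hY, o, ho, ho0, ho1, hov⟩ := ih hnpos (P + P) hP'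
      rw [hPe] at hQ
      obtain ⟨w₁, w₂, w₃, h1, h2w, h3, h4⟩ := hW.half hy h H hQ
      have hX : X ≠ e₁ := by
        intro h0
        have hEQ := (hW.eqn X Y).1 H.1
        rw [h0, sub_self, zero_mul, zero_mul] at hEQ
        exact hY (pow_eq_zero_iff (two_ne_zero) |>.1 hEQ)
      obtain ⟨t, ht⟩ : ∃ t, t = v (X - e₁) - r := ⟨_, rfl⟩
      have hpn : (0 : ℚ) < 2 ^ n := by positivity
      have ho0' : (0 : ℚ) < o := by exact_mod_cast ho0
      have ho1' : (o : ℚ) < 2 ^ n := by exact_mod_cast ho1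
      rw [← ht] at hov
      have t0 : 0 < t := by
        by_contra hc
        push Not at hc
        have : 2 ^ n * t ≤ 0 := mul_nonpos_of_nonneg_of_nonpos hpn.le hc
        rw [hov] at this
        have h7 : 0 < (s - r) * o := mul_pos (by linarith) ho0'
        linarith
      have t1 : t < s - r := by
        by_contra hc
        push Not at hc
        have h7 : 2 ^ n * (s - r) ≤ 2 ^ n * t := mul_le_mul_of_nonneg_left hc hpn.le
        rw [hov] at h7
        have h8 : (s - r) * o < (s - r) * 2 ^ n := mul_lt_mul_of_pos_left ho1' (by linarith)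
        linarith
      have := step hv h2 hW.two hW.n12 hW.n13 hr hs hX (t := t) (by rw [ht]; ring) t0 t1 h1 h2w h3
      rw [h4] at this
      rcases this with h5 | h5
      · refine ⟨o, ho, ho0, ho1.trans (Nat.pow_lt_pow_right (by norm_num) (Nat.lt_succ_self n)), ?_⟩
        rw [h5, ← hov, pow_succ]
        ring
      · refine ⟨2 ^ (n + 1) - o, ?_, ?_, ?_, ?_⟩
        · refine Nat.Even.sub_odd ?_ ?_ ho
          · exact (ho1.trans (Nat.pow_lt_pow_right (by norm_num) (Nat.lt_succ_self n))).le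
          · exact Nat.even_pow.2 ⟨even_two, Nat.succ_ne_zero n⟩
        · exact Nat.sub_pos_of_lt
            (ho1.trans (Nat.pow_lt_pow_right (by norm_num) (Nat.lt_succ_self n)))
        · exact Nat.sub_lt (by positivity) ho0
        · rw [h5, Nat.cast_sub
            (ho1.trans (Nat.pow_lt_pow_right (by norm_num) (Nat.lt_succ_self n))).le]
          push_cast
          simp only [Nat.succ_eq_add_one]
          linear_combination -hov

end pts

end Pool.Agent.EFN
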