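import Pool.Agent.T1B.Defs
import Pool.Agent.TBM.Br

/-!
# The algebraic closure of `k(z)`
-/

set_option autoImplicit false

namespace Pool.Agent.EFN

open Polynomial

variable {k : Type} [Field k]

/-- the algebraic closure of `k(z)` -/
abbrev Kb (k : Type) [Field k] : Type := AlgebraicClosure (RatFunc k)

/-- the algebraic closure of `k` -/
noncomputable abbrev Ck (k : Type) [Field k] : IntermediateField k (Kb k) := algebraicClosure k (Kb k)

/-- the variable -/
noncomputable def zz (k : Type) [Field k] : Kb k := algebraMap (RatFunc k) (Kb k) RatFunc.X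

theorem Ck_closed : IsAlgClosed (Ck k) := IsAlgClosure.isAlgClosed (R := k)

theorem mem_Ck {x : Kb k} : x ∈ Ck k ↔ IsAlgebraic k x := mem_algebraicClosure_iff

theorem alg_k {x : Kb k} (hx : IsAlgebraic (Ck k) x) : IsAlgebraic k x := hx.restrictScalars k

theorem mem_of_rat (S : Set (Kb k)) (hS : zz k ∈ S) (f : RatFunc k) :
    algebraMap (RatFunc k) (Kb k) f ∈ IntermediateField.adjoin (Ck k) S := by
  have h1 : f ∈ IntermediateField.adjoin k {(RatFunc.X : RatFunc k)} := by
    rw [RatFunc.adjoin_X]
    exact IntermediateField.mem_top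
  have h2 : ∀ g ∈ IntermediateField.adjoin k {(RatFunc.X : RatFunc k)},
      algebraMap (RatFunc k) (Kb k) g ∈ IntermediateField.adjoin (Ck k) S := by
    intro g hg
    induction hg using IntermediateField.adjoin_induction with
    | mem x hx =>
      rw [Set.mem_singleton_iff] at hx
      rw [hx]
      exact IntermediateField.subset_adjoin _ _ hS
    | algebraMap x =>
      rw [← IsScalarTower.algebraMap_apply k (RatFunc k) (Kb k),
        IsScalarTower.algebraMap_apply k (Ck k) (Kb k)]
      exact IntermediateField.algebraMap_mem _ _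
    | add x y _ _ hx hy => rw [map_add]; exact add_mem hx hy
    | inv x _ hx => rw [map_inv₀]; exact inv_mem hx
    | mul x y _ _ hx hy => rw [map_mul]; exact mul_mem hx hy
  exact h2 f h1

theorem zz_trans : Transcendental (Ck k) (zz k) := by
  intro h
  have h1 : IsAlgebraic k (zz k) := alg_k h
  have h2 : IsAlgebraic k (RatFunc.X : RatFunc k) :=
    (isAlgebraic_algebraMap_iff (algebraMap (RatFunc k) (Kb k)).injective).1 h1
  exact RatFunc.transcendental_X h2

/-- everything is algebraic over `k(z)` -/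
theorem alg_z (S : Set (Kb k)) (hS : zz k ∈ S) (x : Kb k) :
    IsAlgebraic (IntermediateField.adjoin (Ck k) S) x := by
  have hx : IsAlgebraic (RatFunc k) x := Algebra.IsAlgebraic.isAlgebraic x
  obtain ⟨p, hp0, hp⟩ := hx
  let g : RatFunc k →+* IntermediateField.adjoin (Ck k) S :=
    (algebraMap (RatFunc k) (Kb k)).codRestrict (IntermediateField.adjoin (Ck k) S).toSubfield
      (fun f => mem_of_rat S hS f)
  refine ⟨p.map g, (Polynomial.map_ne_zero_iff g.injective).2 hp0, ?_⟩
  rw [Polynomial.aeval_def, Polynomial.eval₂_map]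
  exact hp

open scoped IntermediateField.algebraAdjoinAdjoin in
theorem trdeg_Ck : Algebra.trdeg (Ck k) (Kb k) ≤ 1 := by
  have h1 : Algebra.IsAlgebraic (IntermediateField.adjoin (Ck k) {zz k}) (Kb k) :=
    ⟨fun x => alg_z {zz k} rfl x⟩
  have h2 : IsTranscendenceBasis (Ck k) (fun _ : Unit => zz k) := by
    have hi : AlgebraicIndependent (Ck k) (fun _ : Unit => zz k) :=
      algebraicIndependent_unique_type_iff.2 zz_trans
    rw [hi.isTranscendenceBasis_iff_isAlgebraic, Set.range_const]
    exact (IsFractionRing.comap_isAlgebraic_iff (A := Algebra.adjoin (Ck k) {zz k})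
        (K := IntermediateField.adjoin (Ck k) {zz k}) (C := Kb k)).2 h1
  have h4 := h2.cardinalMk_eq_trdeg
  rw [Cardinal.mk_fintype, Fintype.card_unit, Nat.cast_one] at h4
  exact h4.symm.le

/-- everything is algebraic over `k(w)` -/
theorem alg_w {w : Kb k} (hw : Transcendental (Ck k) w) (x : Kb k) :
    IsAlgebraic (IntermediateField.adjoin (Ck k) {w}) x := by
  have hi : AlgebraicIndependent (Ck k) (fun _ : Unit => w) :=
    algebraicIndependent_unique_type_iff.2 hw
  have h1 : IsTranscendenceBasis (Ck k) (fun _ : Unit => w) := by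
    refine hi.isTranscendenceBasis_of_trdeg_le_of_finite ?_
    rw [Cardinal.mk_fintype, Fintype.card_unit, Nat.cast_one]
    exact trdeg_Ck
  have h2 := h1.isAlgebraic_field
  rw [Set.range_const] at h2
  exact h2.isAlgebraic x

/-- **The fixed elements.** -/
theorem fixed_mem (p : ℕ) [ExpChar (Kb k) p] (S : Set (Kb k)) (x : Kb k)
    (hx : ∀ σ ∈ T1B.geo k (RatFunc k) (Kb k), (∀ y ∈ S, σ y = y) → σ x = x) :
    ∃ r : ℕ, x ^ p ^ r ∈ IntermediateField.adjoin (Ck k) (insert (zz k) S) := by
  obtain ⟨E, hE⟩ : ∃ E : IntermediateField (RatFunc k) (Kb k),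
    E = IntermediateField.adjoin (RatFunc k) ((Ck k : Set (Kb k)) ∪ S) := ⟨_, rfl⟩
  have halg : ∀ x : Kb k, IsAlgebraic E x := by
    intro x
    have hx : IsAlgebraic (RatFunc k) x := Algebra.IsAlgebraic.isAlgebraic x
    exact hx.tower_top E
  obtain ⟨r, hr⟩ := TBR.perf p E halg x (by
    intro σ hσ
    refine hx σ (fun y hy => ?_) (fun y hy => ?_)
    · refine hσ y ?_
      rw [hE]
      exact IntermediateField.subset_adjoin _ _ (Or.inl (mem_Ck.2 hy))
    · refine hσ y ?_
      rw [hE]
      exact IntermediateField.subset_adjoin _ _ (Or.inr hy))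
  refine ⟨r, ?_⟩
  obtain ⟨F, hF⟩ : ∃ F : IntermediateField (RatFunc k) (Kb k),
      ∀ y, y ∈ F ↔ y ∈ IntermediateField.adjoin (Ck k) (insert (zz k) S) :=
    ⟨(IntermediateField.adjoin (Ck k) (insert (zz k) S)).toSubfield.toIntermediateField
      (fun f => mem_of_rat _ (Set.mem_insert _ _) f), fun y => Iff.rfl⟩
  have hEF : E ≤ F := by
    rw [hE, IntermediateField.adjoin_le_iff]
    rintro y (hy | hy)
    · exact (hF y).2 (IntermediateField.algebraMap_mem _ (⟨y, hy⟩ : Ck k))
    · exact (hF y).2 (IntermediateField.subset_adjoin _ _ (Set.mem_insert_of_mem _ hy))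
  exact (hF _).1 (hEF hr)

end Pool.Agent.EFN
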