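import Pool.Agent.EFN.Q0

/-!
# Valuations with rational values: existence
-/

set_option autoImplicit false

namespace Pool.Agent.EFN

open Polynomial

variable {C Ω : Type*} [Field C] [Field Ω] [Algebra C Ω]

section Gen

variable {Γ : Type*} [LinearOrderedCommGroupWithZero Γ] (V : Valuation Ω Γ) {w : Ω}

theorem zp_inj (h1 : V w < 1) (hw : w ≠ 0) {m n : ℤ} (h : V w ^ m = V w ^ n) : m = n :=
  zpow_right_injective₀ (zero_lt_iff.2 ((V.ne_zero_iff).2 hw)) h1.ne h

theorem zp_le (h1 : V w < 1) (hw : w ≠ 0) (m : ℤ) : V w ^ m ≤ 1 ↔ 0 ≤ m := by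
  have h0 : 0 < V w := zero_lt_iff.2 ((V.ne_zero_iff).2 hw)
  constructor
  · intro h
    by_contra hm
    push Not at hm
    have h2 : 1 < V w ^ m := by
      have h3 : V w ^ (-m) < 1 := by
        have : V w ^ (-m) < V w ^ (0 : ℤ) := zpow_right_strictAnti₀ h0 h1 (by omega)
        simpa using this
      rw [zpow_neg] at h3
      exact (inv_lt_one₀ (zpow_pos h0 m)).1 h3
    exact absurd h (not_le.2 h2)
  · intro h
    exact zpow_le_one₀ h0 h1.le h

/-- the valuation with rational values -/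
noncomputable def qv (w : Ω) (x : Ω) : ℚ :=
  open scoped Classical in
  if h : x ≠ 0 ∧ ∃ (n : ℕ) (m : ℤ), 0 < n ∧ V x ^ n = V w ^ m then
    ((Classical.choose (Classical.choose_spec h.2) : ℤ) : ℚ) / (Classical.choose h.2 : ℕ)
  else 0

theorem qv_eq (h1 : V w < 1) (hw : w ≠ 0) {x : Ω} (hx : x ≠ 0) {n : ℕ} {m : ℤ} (hn : 0 < n)
    (h : V x ^ n = V w ^ m) : qv V w x = (m : ℚ) / n := by
  have h' : x ≠ 0 ∧ ∃ (n : ℕ) (m : ℤ), 0 < n ∧ V x ^ n = V w ^ m := ⟨hx, n, m, hn, h⟩
  have hs := Classical.choose_spec (Classical.choose_spec h'.2)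
  unfold qv
  rw [dif_pos h']
  obtain ⟨n', hn'⟩ : ∃ n', n' = Classical.choose h'.2 := ⟨_, rfl⟩
  obtain ⟨m', hm'⟩ : ∃ m', m' = Classical.choose (Classical.choose_spec h'.2) := ⟨_, rfl⟩
  rw [← hm', ← hn'] at hs
  rw [← hm', ← hn']
  obtain ⟨hp, he⟩ := hs
  have h2 : V w ^ (m' * n) = V w ^ (m * n') := by
    rw [zpow_mul, zpow_mul, ← he, ← h, zpow_natCast, zpow_natCast, ← pow_mul, ← pow_mul, mul_comm]
  have h3 := zp_inj V h1 hw h2
  have hn0 : (n : ℚ) ≠ 0 := by exact_mod_cast hn.ne'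
  have hn0' : (n' : ℚ) ≠ 0 := by exact_mod_cast hp.ne'
  rw [div_eq_div_iff hn0' hn0]
  exact_mod_cast h3

variable (hE : ∀ x : Ω, x ≠ 0 → ∃ (n : ℕ) (m : ℤ), 0 < n ∧ V x ^ n = V w ^ m)

include hE

theorem qv_mul (h1 : V w < 1) (hw : w ≠ 0) {x y : Ω} (hx : x ≠ 0) (hy : y ≠ 0) :
    qv V w (x * y) = qv V w x + qv V w y := by
  obtain ⟨n, m, hn, h⟩ := hE x hx
  obtain ⟨n', m', hn', h'⟩ := hE y hy
  have hVw : V w ≠ 0 := (V.ne_zero_iff).2 hw
  rw [qv_eq V h1 hw hx hn h, qv_eq V h1 hw hy hn' h',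
    qv_eq V h1 hw (mul_ne_zero hx hy) (n := n * n') (m := m * n' + m' * n)
      (Nat.mul_pos hn hn') ?_]
  · have hn0 : (n : ℚ) ≠ 0 := by exact_mod_cast hn.ne'
    have hn0' : (n' : ℚ) ≠ 0 := by exact_mod_cast hn'.ne'
    push_cast
    field_simp
  · rw [map_mul, mul_pow, pow_mul, h, mul_comm n n', pow_mul, h', zpow_add₀ hVw, zpow_mul,
      zpow_mul, zpow_natCast, zpow_natCast]

theorem qv_nonneg (h1 : V w < 1) (hw : w ≠ 0) {x : Ω} (hx : x ≠ 0) :
    0 ≤ qv V w x ↔ V x ≤ 1 := by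
  obtain ⟨n, m, hn, h⟩ := hE x hx
  rw [qv_eq V h1 hw hx hn h]
  have hn0 : (0 : ℚ) < n := by exact_mod_cast hn
  have h2 : 0 ≤ (m : ℚ) / n ↔ 0 ≤ m := by
    rw [le_div_iff₀ hn0, zero_mul]
    exact_mod_cast Iff.rfl
  rw [h2, ← zp_le V h1 hw, ← h, pow_le_one_iff hn.ne']

theorem qv_isQV (hC : ∀ c : C, c ≠ 0 → V (algebraMap C Ω c) = 1) (h1 : V w < 1) (hw : w ≠ 0) :
    QV C (qv V w) := by
  refine ⟨fun x y hx hy => qv_mul V hE h1 hw hx hy, ?_, ?_⟩
  · have key : ∀ x y : Ω, x ≠ 0 → y ≠ 0 → x + y ≠ 0 → qv V w x ≤ qv V w y →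
        qv V w x ≤ qv V w (x + y) := by
      intro x y hx hy hxy hle
      have e1 : y = x * (y / x) := by field_simp
      have e2 : x + y = x * ((x + y) / x) := by field_simp
      have h2 : V (y / x) ≤ 1 := by
        rw [← qv_nonneg V hE h1 hw (div_ne_zero hy hx)]
        have := qv_mul V hE h1 hw hx (div_ne_zero hy hx)
        rw [← e1] at this
        linarith
      have h3 : V ((x + y) / x) ≤ 1 := by
        rw [add_div, div_self hx]
        refine (V.map_add _ _).trans (max_le ?_ h2)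
        rw [map_one]
      rw [← qv_nonneg V hE h1 hw (div_ne_zero hxy hx)] at h3
      rw [e2, qv_mul V hE h1 hw hx (div_ne_zero hxy hx)]
      linarith
    intro x y hx hy hxy
    rcases le_total (qv V w x) (qv V w y) with h | h
    · rw [min_eq_left h]
      exact key x y hx hy hxy h
    · rw [min_eq_right h, add_comm]
      exact key y x hy hx (by rwa [add_comm]) h
  · intro c hc
    have hc' : algebraMap C Ω c ≠ 0 := by
      rwa [Ne, FaithfulSMul.algebraMap_eq_zero_iff]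
    rw [qv_eq V h1 hw hc' (n := 1) (m := 0) one_pos (by rw [pow_one, zpow_zero, hC c hc])]
    simp

end Gen

theorem deg_le {F : Type*} [Field F] [Algebra F Ω] (E : IntermediateField F Ω)
    [FiniteDimensional F E] (x : Ω) (hx : x ∈ E) :
    (minpoly F x).natDegree ≤ Module.finrank F E := by
  have h3 : minpoly F (⟨x, hx⟩ : E) = minpoly F x :=
    (minpoly.algebraMap_eq (algebraMap E Ω).injective (⟨x, hx⟩ : E)).symm
  rw [← h3]
  exact minpoly.natDegree_le _

/-- **A place where `w` vanishes.** -/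
theorem exists_qv {w : Ω} (hw : Transcendental C w)
    (halg : ∀ x : Ω, IsAlgebraic (IntermediateField.adjoin C {w}) x) :
    ∃ v : Ω → ℚ, QV C v ∧ v w = 1 ∧ ∀ S : Set Ω, S.Finite → ∃ D : ℕ, 0 < D ∧
      ∀ x ∈ IntermediateField.adjoin C S, x ≠ 0 → ∃ m : ℤ, D * v x = m := by
  have hw0 : w ≠ 0 := by rintro rfl; exact hw isAlgebraic_zero
  -- the valuation ring
  obtain ⟨A, hA⟩ : ∃ A : Subring Ω, A = (Algebra.adjoin C {w}).toSubring := ⟨_, rfl⟩
  have hAm : ∀ b : Ω, b ∈ A → b ∈ Algebra.adjoin C {w} := by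
    intro b hb
    rw [hA] at hb
    exact hb
  have hwA : w ∈ A := by
    rw [hA]; exact Algebra.subset_adjoin (Set.mem_singleton w)
  have hI : Ideal.span {(⟨w, hwA⟩ : A)} ≠ ⊤ := by
    intro h
    rw [Ideal.span_singleton_eq_top] at h
    obtain ⟨b, hb⟩ := isUnit_iff_exists_inv.1 h
    have hb1 : w * (b : Ω) = 1 := congrArg Subtype.val hb
    have hb2 : (b : Ω) ∈ Algebra.adjoin C {w} := hAm _ b.2
    rw [Algebra.adjoin_singleton_eq_range_aeval] at hb2
    obtain ⟨f, hf⟩ := hb2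
    have h3 : aeval w (X * f - 1) = 0 := by
      rw [map_sub, map_mul, aeval_X, map_one]
      rw [show aeval w f = (b : Ω) from hf, hb1, sub_self]
    have h4 : X * f - 1 = 0 := (transcendental_iff.1 hw) _ h3
    have h5 := congrArg (fun g => coeff g 0) h4
    simp at h5
  obtain ⟨B, hB, hBI⟩ := Ideal.image_subset_nonunits_valuationSubring _ hI
  have h1 : B.valuation w < 1 := by
    rw [← ValuationSubring.mem_nonunits_iff]
    exact hBI ⟨⟨w, hwA⟩, Ideal.subset_span rfl, rfl⟩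
  have hCB : ∀ c : C, algebraMap C Ω c ∈ B := by
    intro c
    refine hB ?_
    rw [hA]
    exact (Algebra.adjoin C {w}).algebraMap_mem c
  have hC : ∀ c : C, c ≠ 0 → B.valuation (algebraMap C Ω c) = 1 := by
    intro c hc
    have e : B.valuation (algebraMap C Ω c) * B.valuation (algebraMap C Ω c⁻¹) = 1 := by
      rw [← map_mul, ← map_mul, mul_inv_cancel₀ hc, map_one, map_one]
    have l1 := (B.valuation_le_one_iff _).2 (hCB c)
    have l2 := (B.valuation_le_one_iff _).2 (hCB c⁻¹)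
    refine le_antisymm l1 ?_
    rw [← e]
    exact mul_le_of_le_one_right' l2
  have hint : ∀ x : Ω, IsIntegral (IntermediateField.adjoin C {w}) x := fun x =>
    (halg x).isIntegral
  have hE : ∀ x : Ω, x ≠ 0 → ∃ (n : ℕ) (m : ℤ), 0 < n ∧ B.valuation x ^ n = B.valuation w ^ m := by
    intro x hx
    obtain ⟨n, hn, -, m, hm⟩ := val_alg B.valuation hC h1 hw0 x hx (hint x)
    exact ⟨n, m, hn, hm⟩
  refine ⟨qv B.valuation w, qv_isQV B.valuation hE hC h1 hw0, ?_, ?_⟩
  · rw [qv_eq B.valuation h1 hw0 hw0 (n := 1) (m := 1) one_pos (by rw [pow_one, zpow_one])]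
    simp
  · intro S hS
    have : Finite S := hS
    obtain ⟨E, hEd⟩ : ∃ E : IntermediateField (IntermediateField.adjoin C {w}) Ω,
      E = IntermediateField.adjoin (IntermediateField.adjoin C {w}) S := ⟨_, rfl⟩
    have : FiniteDimensional (IntermediateField.adjoin C {w}) E := by
      rw [hEd]
      exact IntermediateField.finiteDimensional_adjoin fun x _ => hint x
    refine ⟨(Module.finrank (IntermediateField.adjoin C {w}) E).factorial, Nat.factorial_pos _,
      fun x hx hx0 => ?_⟩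
    have hxE : x ∈ E := by
      have h2 : IntermediateField.adjoin C S ≤ E.restrictScalars C := by
        rw [IntermediateField.adjoin_le_iff]
        intro y hy
        have hyE : y ∈ E := by
          rw [hEd]
          exact IntermediateField.subset_adjoin _ _ hy
        exact hyE
      exact h2 hx
    obtain ⟨n, hn, hnd, m, hm⟩ := val_alg B.valuation hC h1 hw0 x hx0 (hint x)
    have hnd' : n ≤ Module.finrank (IntermediateField.adjoin C {w}) E :=
      hnd.trans (deg_le E x hxE)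
    rw [qv_eq B.valuation h1 hw0 hx0 hn hm]
    obtain ⟨d, hd⟩ := Nat.dvd_factorial hn hnd'
    refine ⟨d * m, ?_⟩
    rw [hd]
    have hn0 : (n : ℚ) ≠ 0 := by exact_mod_cast hn.ne'
    push_cast
    field_simp

end Pool.Agent.EFN
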