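import Pool.Agent.EFN.F4
import Pool.Agent.EFN.H4

/-!
# Finiteness of the locally trivial classes of order two
-/

set_option autoImplicit false
set_option linter.unusedSectionVars false

namespace Pool.Agent.EFN

open WeierstrassCurve WeierstrassCurve.Affine EFF TIFL

open scoped Classical

section

variable {k : Type} [Field k] [Finite k] {W : WeierstrassCurve (RatFunc k)}

/-- **The locally trivial crossed homomorphisms with values in the points of order two are finite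
in number.** -/
theorem sel_fin (h2 : (2 : k) ≠ 0) {e₁ e₂ e₃ : Kb k}
    (hW : Rts (W.baseChange (Kb k)).toAffine e₁ e₂ e₃) :
    {c : (Kb k ≃ₐ[RatFunc k] Kb k) → Pts W (Kb k) | LT W c ∧ ∀ g, 2 • c g = 0}.Finite := by
  obtain ⟨φ, hφ⟩ := ln_frob (k := k) (K := RatFunc k) (Kb := Kb k) (fun a ha => by
    obtain ⟨b, hb⟩ := rat_alg a ha
    exact ⟨b, hb⟩)
  obtain ⟨Λ, lab, hfin, hlab⟩ := sel_labels h2 hW
  let τ : (Kb k ≃ₐ[RatFunc k] Kb k) → Kb k × Kb k × Kb k := fun σ => (σ e₁, σ e₂, σ e₃)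
  obtain ⟨I, hI⟩ : ∃ I : Set (Kb k × Kb k × Kb k),
    I = τ '' (T1B.geo k (RatFunc k) (Kb k) : Set (Kb k ≃ₐ[RatFunc k] Kb k)) := ⟨_, rfl⟩
  have hIfin : I.Finite := by
    refine ((orb_fin e₁ ⊤).prod ((orb_fin e₂ ⊤).prod (orb_fin e₃ ⊤))).subset ?_
    rw [hI]
    rintro _ ⟨σ, -, rfl⟩
    exact ⟨⟨σ, Subgroup.mem_top _, rfl⟩, ⟨σ, Subgroup.mem_top _, rfl⟩,
      ⟨σ, Subgroup.mem_top _, rfl⟩⟩
  have hg : ∀ t : I, ∃ g ∈ T1B.geo k (RatFunc k) (Kb k), τ g = t := by
    rintro ⟨t, ht⟩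
    rw [hI] at ht
    obtain ⟨g, hg, rfl⟩ := ht
    exact ⟨g, hg, rfl⟩
  choose γ hγ hγτ using hg
  have := hIfin.to_subtype
  have h2f : {P : Pts W (Kb k) | 2 • P = 0}.Finite := two_fin hW
  refine Set.Finite.of_injOn
    (f := fun c : (Kb k ≃ₐ[RatFunc k] Kb k) → Pts W (Kb k) => (lab c, (fun t : I => c (γ t)), c φ))
    (t := (lab '' {c | LT W c ∧ ∀ g, 2 • c g = 0}) ×ˢ
      ({h : I → Pts W (Kb k) | ∀ t, h t ∈ {P : Pts W (Kb k) | 2 • P = 0}} ×ˢ
        {P : Pts W (Kb k) | 2 • P = 0})) ?_ ?_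
    (hfin.prod ((Set.Finite.pi' (fun _ => h2f)).prod h2f))
  · rintro c hc
    exact ⟨⟨c, hc, rfl⟩, fun t => hc.2 _, hc.2 _⟩
  · intro c hc c' hc' he
    have l1 : lab c = lab c' := congrArg Prod.fst he
    have l2 : (fun t : I => c (γ t)) = fun t : I => c' (γ t) := congrArg (fun z => z.2.1) he
    have l3 : c φ = c' φ := congrArg (fun z => z.2.2) he
    have hN := hlab c c' hc hc' l1
    have hgeo : ∀ g ∈ T1B.geo k (RatFunc k) (Kb k), c g = c' g := by
      intro g hg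
      obtain ⟨t, ht⟩ : ∃ t : I, (t : Kb k × Kb k × Kb k) = τ g :=
        ⟨⟨τ g, by rw [hI]; exact ⟨g, hg, rfl⟩⟩, rfl⟩
      have h3 : τ (γ t) = τ g := (hγτ t).trans ht
      obtain ⟨n, hn⟩ : ∃ n, n = (γ t)⁻¹ * g := ⟨_, rfl⟩
      have hgn : g = γ t * n := by rw [hn, mul_inv_cancel_left]
      have f : ∀ e : Kb k, γ t e = g e → n e = e := by
        intro e h
        rw [hn, AlgEquiv.mul_apply, ← h]
        exact (γ t).symm_apply_apply e
      have h4 := hN n (by rw [hn]; exact mul_mem (inv_mem (hγ t)) hg)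
        (f _ (congrArg Prod.fst h3)) (f _ (congrArg (fun z => z.2.1) h3))
        (f _ (congrArg (fun z => z.2.2) h3))
      rw [hgn, hc.1.crossed.2, hc'.1.crossed.2, h4, congrFun l2 t]
    have hpow : ∀ i : ℕ, c (φ ^ i) = c' (φ ^ i) := by
      intro i
      induction i with
      | zero => rw [pow_zero, m_one W c hc.1.crossed, m_one W c' hc'.1.crossed]
      | succ n ih => rw [pow_succ, hc.1.crossed.2, hc'.1.crossed.2, ih, l3]
    obtain ⟨T, hT, -⟩ := c_fin W c hc.1.crossed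
    obtain ⟨T', hT', -⟩ := c_fin W c' hc'.1.crossed
    funext g
    obtain ⟨i, s, hs, hgs⟩ := hφ (T ∪ T') g
    rw [hT g (φ ^ i * s) fun a ha => hgs a (Finset.mem_union_left _ ha),
      hT' g (φ ^ i * s) fun a ha => hgs a (Finset.mem_union_right _ ha),
      hc.1.crossed.2, hc'.1.crossed.2, hpow, hgeo s hs]

end

/-! ### a finiteness criterion for groups of `2`-power order -/

section abs

variable {A : Type} [AddCommGroup A]

theorem fin_pow (h2 : {a : A | 2 • a = 0}.Finite) (n : ℕ) : {a : A | 2 ^ n • a = 0}.Finite := by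
  induction n with
  | zero =>
    refine (Set.finite_singleton (0 : A)).subset ?_
    intro a ha
    have h : 2 ^ 0 • a = 0 := ha
    rw [pow_zero, one_smul] at h
    exact h
  | succ n ih =>
    refine Set.Finite.of_finite_fibers (fun a : A => 2 • a) (ih.subset ?_) ?_
    · rintro _ ⟨a, ha, rfl⟩
      show 2 ^ n • 2 • a = 0
      have h : 2 ^ (n + 1) • a = 0 := ha
      rw [pow_succ, mul_smul] at h
      exact h
    · rintro x -
      by_cases hx : ∃ a₀ : A, 2 • a₀ = x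
      · obtain ⟨a₀, h0⟩ := hx
        refine (h2.image (fun a => a₀ + a)).subset ?_
        rintro a ⟨-, ha⟩
        refine ⟨a - a₀, ?_, by simp⟩
        show 2 • (a - a₀) = 0
        rw [smul_sub, h0, sub_eq_zero]
        exact ha
      · refine Set.finite_empty.subset ?_
        rintro a ⟨-, ha⟩
        exact hx ⟨a, ha⟩

/-- the elements which are divisible by all powers of two can be halved -/
theorem half_D (h2 : {a : A | 2 • a = 0}.Finite) {x : A} (hx : ∀ n : ℕ, ∃ b, 2 ^ n • b = x) :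
    ∃ y, 2 • y = x ∧ ∀ n : ℕ, ∃ b, 2 ^ n • b = y := by
  choose b hb using fun n => hx (n + 1)
  have hy : ∀ n, 2 • (2 ^ n • b n) = x := by
    intro n
    rw [← hb n, pow_succ, mul_comm, mul_smul]
  have hF : {y : A | 2 • y = x}.Finite := by
    refine (h2.image (fun a => 2 ^ 0 • b 0 + a)).subset ?_
    intro a ha
    refine ⟨a - 2 ^ 0 • b 0, ?_, by simp⟩
    show 2 • (a - 2 ^ 0 • b 0) = 0
    rw [smul_sub, hy 0, sub_eq_zero]
    exact ha
  have : Finite {y : A | 2 • y = x} := hF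
  obtain ⟨⟨y, hyx⟩, hinf⟩ := Finite.exists_infinite_fiber
    (fun n : ℕ => (⟨2 ^ n • b n, hy n⟩ : {y : A | 2 • y = x}))
  refine ⟨y, hyx, fun n => ?_⟩
  have hinf' : ((fun n : ℕ => (⟨2 ^ n • b n, hy n⟩ : {y : A | 2 • y = x})) ⁻¹'
    {⟨y, hyx⟩}).Infinite := Set.infinite_coe_iff.1 hinf
  obtain ⟨m, hm, hnm⟩ := hinf'.exists_gt n
  have h3 : 2 ^ m • b m = y := congrArg Subtype.val hm
  refine ⟨2 ^ (m - n) • b m, ?_⟩
  rw [smul_smul, ← pow_add, Nat.add_sub_cancel' hnm.le, h3]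

theorem seq_D (h2 : {a : A | 2 • a = 0}.Finite)
    (hT : ∀ u : ℕ → A, u 0 = 0 → (∀ n, 2 • u (n + 1) = u n) → ∀ n, u n = 0) {a : A}
    (ha2 : 2 • a = 0) (ha : ∀ n : ℕ, ∃ b, 2 ^ n • b = a) : a = 0 := by
  choose g hg1 hg2 using fun x : {x : A // ∀ n : ℕ, ∃ b, 2 ^ n • b = x} => half_D h2 x.2
  let v : ℕ → {x : A // ∀ n : ℕ, ∃ b, 2 ^ n • b = x} := fun n =>
    Nat.rec ⟨a, ha⟩ (fun _ x => ⟨g x, hg2 x⟩) n
  let u : ℕ → A := fun n => match n with
    | 0 => 0
    | n + 1 => (v n).1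
  have hu : ∀ n, 2 • u (n + 1) = u n := by
    intro n
    cases n with
    | zero => exact ha2
    | succ n => exact hg1 (v n)
  exact hT u rfl hu 1

theorem fin_two_power (h2 : {a : A | 2 • a = 0}.Finite)
    (hT : ∀ u : ℕ → A, u 0 = 0 → (∀ n, 2 • u (n + 1) = u n) → ∀ n, u n = 0) :
    {a : A | ∃ n : ℕ, 2 ^ n • a = 0}.Finite := by
  -- the nonzero elements of order two are not divisible by a large power
  have h3 : ∀ a : A, ∃ n : ℕ, 2 • a = 0 → a ≠ 0 → ¬ ∃ b, 2 ^ n • b = a := by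
    intro a
    by_contra h
    push Not at h
    obtain ⟨ha2, ha0, -⟩ := h 0
    exact ha0 (seq_D h2 hT ha2 fun n => (h n).2.2)
  choose m hm using h3
  obtain ⟨N, hN⟩ : ∃ N, ∀ a : A, 2 • a = 0 → m a ≤ N := by
    obtain ⟨N, hN⟩ := (h2.image m).bddAbove
    exact ⟨N, fun a ha => hN ⟨a, ha, rfl⟩⟩
  refine (fin_pow h2 N).subset ?_
  rintro x ⟨n, hn⟩
  show 2 ^ N • x = 0
  have h4 : ∀ j : ℕ, 2 ^ (N + j) • x = 0 → 2 ^ N • x = 0 := by
    intro j
    induction j with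
    | zero => exact fun h => h
    | succ j ih =>
      intro h
      apply ih
      by_contra h0
      have h5 : 2 • (2 ^ (N + j) • x) = 0 := by
        rw [smul_smul, mul_comm, ← pow_succ]
        exact h
      refine hm (2 ^ (N + j) • x) h5 h0 ⟨2 ^ (N + j - m (2 ^ (N + j) • x)) • x, ?_⟩
      rw [smul_smul, ← pow_add]
      congr 2
      have := hN _ h5
      omega
  refine h4 n ?_
  rw [pow_add, mul_smul, hn, smul_zero]

end abs

end Pool.Agent.EFN
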