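import Pool.Agent.EFN.M1

/-!
# Halving of crossed homomorphisms
-/

set_option autoImplicit false
set_option linter.unusedSectionVars false

namespace Pool.Agent.EFN

open WeierstrassCurve WeierstrassCurve.Affine EFF

open scoped Classical

section

variable {F : Type*} [Field F] {W : Affine F} {e₁ e₂ e₃ : F} (hW : Rts W e₁ e₂ e₃)

include hW

/-- all points over an algebraically closed field are doubles -/
theorem exists_half [IsAlgClosed F] (P : W.Point) : ∃ Q : W.Point, Q + Q = P := by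
  cases P with
  | zero => exact ⟨0, add_zero 0⟩
  | some X Y h =>
    obtain ⟨w₁, h1⟩ := IsAlgClosed.exists_pow_nat_eq (X - e₁) (n := 2) two_pos
    obtain ⟨w₂, h2⟩ := IsAlgClosed.exists_pow_nat_eq (X - e₂) (n := 2) two_pos
    obtain ⟨w₃, h3⟩ := IsAlgClosed.exists_pow_nat_eq (X - e₃) (n := 2) two_pos
    obtain ⟨x, y, h', -, he⟩ := halve' hW h h1 h2 h3
    exact ⟨_, he⟩

/-- halves of a point: both coordinates -/
theorem half2 {x y : F} (hy : y ≠ 0) (h : W.Nonsingular x y) {x' y' : F} (h' : W.Nonsingular x' y')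
    (he : Point.some x y h + Point.some x y h = Point.some x' y' h') :
    ∃ w₁ w₂ w₃ : F, w₁ ^ 2 = x' - e₁ ∧ w₂ ^ 2 = x' - e₂ ∧ w₃ ^ 2 = x' - e₃ ∧
      x = e₁ + (w₁ + w₂) * (w₁ + w₃) ∧ y = (w₁ + w₂) * (w₁ + w₃) * (w₂ + w₃) := by
  have hx' := hW.dbl hy h h' he
  have heq : y ^ 2 = (x - e₁) * (x - e₂) * (x - e₃) := (hW.eqn x y).1 h.1
  have h2 := hW.two
  refine ⟨((x - e₁) * (x - e₂) + (x - e₁) * (x - e₃) - (x - e₂) * (x - e₃)) / (2 * y),
    ((x - e₁) * (x - e₂) + (x - e₂) * (x - e₃) - (x - e₁) * (x - e₃)) / (2 * y),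
    ((x - e₁) * (x - e₃) + (x - e₂) * (x - e₃) - (x - e₁) * (x - e₂)) / (2 * y), ?_, ?_, ?_, ?_, ?_⟩
  · rw [hx', div_pow, div_pow, ← sub_eq_zero]
    field_simp
    linear_combination (4 * ((x - e₂) + (x - e₃))) * heq
  · rw [hx', div_pow, div_pow, ← sub_eq_zero]
    field_simp
    linear_combination (4 * ((x - e₁) + (x - e₃))) * heq
  · rw [hx', div_pow, div_pow, ← sub_eq_zero]
    field_simp
    linear_combination (4 * ((x - e₁) + (x - e₂))) * heq
  · rw [← add_div, ← add_div, div_mul_div_comm, ← sub_eq_zero]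
    field_simp
    linear_combination (4 * (x - e₁)) * heq
  · have e1 : ((x - e₁) * (x - e₂) + (x - e₁) * (x - e₃) - (x - e₂) * (x - e₃)) / (2 * y) +
        ((x - e₁) * (x - e₂) + (x - e₂) * (x - e₃) - (x - e₁) * (x - e₃)) / (2 * y) =
        (x - e₁) * (x - e₂) / y := by
      field_simp
      ring
    have e2 : ((x - e₁) * (x - e₂) + (x - e₁) * (x - e₃) - (x - e₂) * (x - e₃)) / (2 * y) +
        ((x - e₁) * (x - e₃) + (x - e₂) * (x - e₃) - (x - e₁) * (x - e₂)) / (2 * y) =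
        (x - e₁) * (x - e₃) / y := by
      field_simp
      ring
    have e3 : ((x - e₁) * (x - e₂) + (x - e₂) * (x - e₃) - (x - e₁) * (x - e₃)) / (2 * y) +
        ((x - e₁) * (x - e₃) + (x - e₂) * (x - e₃) - (x - e₁) * (x - e₂)) / (2 * y) =
        (x - e₂) * (x - e₃) / y := by
      field_simp
      ring
    rw [e1, e2, e3, div_mul_div_comm, div_mul_div_comm,
      eq_div_iff (mul_ne_zero (mul_ne_zero hy hy) hy)]
    linear_combination (y ^ 2 + (x - e₁) * (x - e₂) * (x - e₃)) * heq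

end

section

variable {k : Type} [Field k] (W : WeierstrassCurve (RatFunc k))

/-- locally trivial crossed homomorphisms -/
structure LT (c : (Kb k ≃ₐ[RatFunc k] Kb k) → Pts W (Kb k)) : Prop where
  crossed : Crossed W c
  loc : ∀ V : ValuationSubring (Kb k), (∀ x : k, algebraMap k (Kb k) x ∈ V) → V ≠ ⊤ →
    Principal W (T1B.stab V) c

variable {W}

/-- the coboundary of a point is a crossed homomorphism -/
theorem crossed_pt (P : Pts W (Kb k)) :
    Crossed W (fun g : Kb k ≃ₐ[RatFunc k] Kb k => act W g P - P) := by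
  refine ⟨(m_lc W P).sub (IsLocallyConstant.const P), fun g h => ?_⟩
  show act W (g * h) P - P = _
  rw [m_act_mul]
  simp only [map_sub]
  abel

theorem Crossed.sub {c c' : (Kb k ≃ₐ[RatFunc k] Kb k) → Pts W (Kb k)} (h : Crossed W c)
    (h' : Crossed W c') : Crossed W (fun g => c g - c' g) := by
  refine ⟨h.1.sub h'.1, fun g g' => ?_⟩
  show c (g * g') - c' (g * g') = _
  rw [h.2, h'.2]
  simp only [map_sub]
  abel

theorem Crossed.add {c c' : (Kb k ≃ₐ[RatFunc k] Kb k) → Pts W (Kb k)} (h : Crossed W c)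
    (h' : Crossed W c') : Crossed W (fun g => c g + c' g) := by
  refine ⟨h.1.add h'.1, fun g g' => ?_⟩
  show c (g * g') + c' (g * g') = _
  rw [h.2, h'.2]
  simp only [map_add]
  abel

theorem Principal.sub {D : Subgroup (Kb k ≃ₐ[RatFunc k] Kb k)}
    {c c' : (Kb k ≃ₐ[RatFunc k] Kb k) → Pts W (Kb k)} (h : Principal W D c)
    (h' : Principal W D c') : Principal W D (fun g => c g - c' g) := by
  obtain ⟨P, hP⟩ := h
  obtain ⟨P', hP'⟩ := h'
  refine ⟨P - P', fun σ hσ => ?_⟩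
  show c σ - c' σ = _
  rw [hP σ hσ, hP' σ hσ, map_sub]
  abel

theorem Principal.add {D : Subgroup (Kb k ≃ₐ[RatFunc k] Kb k)}
    {c c' : (Kb k ≃ₐ[RatFunc k] Kb k) → Pts W (Kb k)} (h : Principal W D c)
    (h' : Principal W D c') : Principal W D (fun g => c g + c' g) := by
  obtain ⟨P, hP⟩ := h
  obtain ⟨P', hP'⟩ := h'
  refine ⟨P + P', fun σ hσ => ?_⟩
  show c σ + c' σ = _
  rw [hP σ hσ, hP' σ hσ, map_add]
  abel

theorem Principal.nsmul {D : Subgroup (Kb k ≃ₐ[RatFunc k] Kb k)}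
    {c : (Kb k ≃ₐ[RatFunc k] Kb k) → Pts W (Kb k)} (h : Principal W D c) (n : ℕ) :
    Principal W D (fun g => n • c g) := by
  obtain ⟨P, hP⟩ := h
  refine ⟨n • P, fun σ hσ => ?_⟩
  show n • c σ = _
  rw [hP σ hσ, map_nsmul, smul_sub]

theorem principal_pt (D : Subgroup (Kb k ≃ₐ[RatFunc k] Kb k)) (P : Pts W (Kb k)) :
    Principal W D (fun g => act W g P - P) := ⟨P, fun _ _ => rfl⟩

theorem LT.sub {c c' : (Kb k ≃ₐ[RatFunc k] Kb k) → Pts W (Kb k)} (h : LT W c) (h' : LT W c') :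
    LT W (fun g => c g - c' g) :=
  ⟨Crossed.sub h.crossed h'.crossed, fun V hV hV' => Principal.sub (h.loc V hV hV') (h'.loc V hV hV')⟩

theorem LT.add {c c' : (Kb k ≃ₐ[RatFunc k] Kb k) → Pts W (Kb k)} (h : LT W c) (h' : LT W c') :
    LT W (fun g => c g + c' g) :=
  ⟨Crossed.add h.crossed h'.crossed, fun V hV hV' => Principal.add (h.loc V hV hV') (h'.loc V hV hV')⟩

theorem lt_pt (P : Pts W (Kb k)) : LT W (fun g => act W g P - P) :=
  ⟨crossed_pt P, fun V _ _ => principal_pt _ P⟩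

/-- **A class killed by two comes from the points of order two.** -/
theorem exists_two {e₁ e₂ e₃ : Kb k} (hW : Rts (W.baseChange (Kb k)).toAffine e₁ e₂ e₃)
    {c : (Kb k ≃ₐ[RatFunc k] Kb k) → Pts W (Kb k)} (hc : LT W c)
    (h2 : Principal W ⊤ (fun g => 2 • c g)) :
    ∃ c' : (Kb k ≃ₐ[RatFunc k] Kb k) → Pts W (Kb k), LT W c' ∧ (∀ g, 2 • c' g = 0) ∧
      Principal W ⊤ (fun g => c g - c' g) := by
  obtain ⟨P, hP⟩ := h2
  obtain ⟨Q, hQ⟩ := exists_half hW P
  have hQ' : 2 • Q = P := by rw [two_nsmul]; exact hQ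
  refine ⟨fun g => c g - (act W g Q - Q), hc.sub (lt_pt Q), fun g => ?_, Q, fun g _ => ?_⟩
  · have h := hP g trivial
    simp only at h
    rw [smul_sub, h, smul_sub, ← map_nsmul, hQ', sub_self]
  · show c g - (c g - (act W g Q - Q)) = _
    abel

end

end Pool.Agent.EFN
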