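import Mathlib

/-!
# An endomorphism with finite orbits
-/

set_option autoImplicit false

namespace Pool.Agent.EFN

open Finset

variable {M : Type*} [AddCommGroup M]

/-- the elements which start a sequence of successive halves -/
def Dv (x : M) : Prop := ∃ u : ℕ → M, u 0 = x ∧ ∀ n, 2 • u (n + 1) = u n

theorem Dv.zero : Dv (0 : M) := ⟨fun _ => 0, rfl, fun _ => by simp⟩

theorem Dv.add {x y : M} (hx : Dv x) (hy : Dv y) : Dv (x + y) := by
  obtain ⟨u, hu, hu'⟩ := hx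
  obtain ⟨v, hv, hv'⟩ := hy
  exact ⟨fun n => u n + v n, congrArg₂ _ hu hv, fun n => by rw [smul_add, hu', hv']⟩

theorem Dv.neg {x : M} (hx : Dv x) : Dv (-x) := by
  obtain ⟨u, hu, hu'⟩ := hx
  exact ⟨fun n => -u n, congrArg _ hu, fun n => by rw [smul_neg, hu']⟩

theorem Dv.sub {x y : M} (hx : Dv x) (hy : Dv y) : Dv (x - y) := by
  rw [sub_eq_add_neg]; exact hx.add hy.neg

theorem Dv.map {x : M} (hx : Dv x) (F : AddMonoid.End M) : Dv (F x) := by
  obtain ⟨u, hu, hu'⟩ := hx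
  exact ⟨fun n => F (u n), congrArg _ hu, fun n => by rw [← map_nsmul, hu']⟩

theorem Dv.nsmul {x : M} (hx : Dv x) (n : ℕ) : Dv (n • x) := by
  induction n with
  | zero => rw [zero_smul]; exact Dv.zero
  | succ n ih => rw [succ_nsmul]; exact ih.add hx

theorem Dv.sum {ι : Type*} (s : Finset ι) (f : ι → M) (h : ∀ i ∈ s, Dv (f i)) :
    Dv (∑ i ∈ s, f i) := by
  classical
  induction s using Finset.induction_on with
  | empty => simpa using Dv.zero
  | insert a s ha ih =>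
    rw [Finset.sum_insert ha]
    exact (h a (by simp)).add (ih fun i hi => h i (by simp [hi]))

theorem Dv.half {x : M} (hx : Dv x) : ∃ y, Dv y ∧ x = 2 • y := by
  obtain ⟨u, hu, hu'⟩ := hx
  exact ⟨u 1, ⟨fun n => u (n + 1), rfl, fun n => hu' (n + 1)⟩, by rw [hu', hu]⟩

theorem Dv.div {x : M} (hx : Dv x) (n : ℕ) : ∃ y, Dv y ∧ x = 2 ^ n • y := by
  induction n with
  | zero => exact ⟨x, hx, by simp⟩
  | succ n ih =>
    obtain ⟨y, hy, h⟩ := ih
    obtain ⟨z, hz, h'⟩ := hy.half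
    exact ⟨z, hz, by rw [h, h', smul_smul, pow_succ]⟩

theorem Dv.tors {e : ℕ} (he : ∀ (n : ℕ) (x : M), 2 ^ n • x = 0 → 2 ^ e • x = 0) {x : M}
    (hx : Dv x) {b : ℕ} (h : 2 ^ b • x = 0) : x = 0 := by
  obtain ⟨u, hu, hu'⟩ := hx
  have h1 : ∀ n, 2 ^ n • u n = x := by
    intro n
    induction n with
    | zero => simpa using hu
    | succ n ih => rw [pow_succ, mul_smul, hu', ih]
  have h2 : 2 ^ (b + e) • u e = 0 := by rw [pow_add, mul_smul, h1, h]
  rw [← h1 e]
  exact he _ _ h2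

/-- `2 ^ n` times every element of an intersection -/
theorem dv_of_forall {e : ℕ} (he : ∀ (n : ℕ) (x : M), 2 ^ n • x = 0 → 2 ^ e • x = 0) {x : M}
    (hx : ∀ n : ℕ, ∃ y, x = 2 ^ n • y) : Dv (2 ^ e • x) := by
  choose y hy using hx
  refine ⟨fun n => 2 ^ e • y n, ?_, fun n => ?_⟩
  · have := hy 0
    rw [pow_zero, one_smul] at this
    show 2 ^ e • y 0 = 2 ^ e • x
    rw [← this]
  · show 2 • 2 ^ e • y (n + 1) = 2 ^ e • y n
    rw [smul_comm, ← sub_eq_zero, ← smul_sub]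
    refine he n _ ?_
    rw [smul_sub, smul_smul, ← pow_succ, ← hy, ← hy, sub_self]

theorem mul_ap (F G : AddMonoid.End M) (x : M) : (F * G) x = F (G x) := rfl

theorem sub_ap (F G : AddMonoid.End M) (x : M) : (F - G) x = F x - G x := rfl

theorem one_ap (x : M) : (1 : AddMonoid.End M) x = x := rfl

theorem sum_ap {ι : Type*} (s : Finset ι) (G : ι → AddMonoid.End M) (x : M) :
    (∑ i ∈ s, G i) x = ∑ i ∈ s, G i x := by
  classical
  induction s using Finset.induction_on with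
  | empty => rfl
  | insert a s ha ih =>
    rw [Finset.sum_insert ha, Finset.sum_insert ha, ← ih]
    rfl

theorem pow_fix (F : AddMonoid.End M) {x : M} {j : ℕ} (h : (F ^ j) x = x) (n : ℕ) :
    (F ^ (j * n)) x = x := by
  induction n with
  | zero => simp
  | succ n ih => rw [Nat.mul_succ, pow_add, mul_ap, h, ih]

theorem pow_fix_fin (F : AddMonoid.End M) (hF : ∀ x : M, ∃ j : ℕ, 0 < j ∧ (F ^ j) x = x)
    (R : Finset M) : ∃ s : ℕ, 0 < s ∧ ∀ x ∈ R, (F ^ s) x = x := by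
  classical
  induction R using Finset.induction_on with
  | empty => exact ⟨1, one_pos, by simp⟩
  | insert a S _ ih =>
    obtain ⟨j, hj, hS⟩ := ih
    obtain ⟨i, hi, ha⟩ := hF a
    refine ⟨i * j, Nat.mul_pos hi hj, fun b hb => ?_⟩
    rcases Finset.mem_insert.1 hb with rfl | hb
    · exact pow_fix F ha j
    · rw [mul_comm]
      exact pow_fix F (hS b hb) i

/-- the sum of the first powers -/
def Sm (F : AddMonoid.End M) (n : ℕ) : AddMonoid.End M := ∑ i ∈ range n, F ^ i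

theorem Sm_mul (F : AddMonoid.End M) (n : ℕ) : (F - 1) * Sm F n = F ^ n - 1 :=
  mul_geom_sum F n

theorem Sm_mul' (F : AddMonoid.End M) (n : ℕ) : Sm F n * (F - 1) = F ^ n - 1 :=
  geom_sum_mul F n

/-- `n = S n - (F - 1) U n` -/
theorem exists_U (F : AddMonoid.End M) (n : ℕ) (x : M) :
    n • x = Sm F n x - (F (∑ i ∈ range n, Sm F i x) - ∑ i ∈ range n, Sm F i x) := by
  have h : ∀ i, F (Sm F i x) - Sm F i x = (F ^ i) x - x := by
    intro i
    have := congrArg (fun G : AddMonoid.End M => G x) (Sm_mul F i)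
    rw [mul_ap, sub_ap, sub_ap, one_ap, one_ap] at this
    exact this
  rw [map_sum, ← Finset.sum_sub_distrib]
  simp only [h]
  rw [Finset.sum_sub_distrib, Finset.sum_const, Finset.card_range]
  rw [Sm, sum_ap]
  abel

theorem Sm_mul_eq (F : AddMonoid.End M) (a b : ℕ) :
    Sm F (a * b) = (∑ i ∈ range b, F ^ (a * i)) * Sm F a := by
  induction b with
  | zero => simp [Sm]
  | succ b ih =>
    rw [Finset.sum_range_succ, add_mul, ← ih, Nat.mul_succ]
    simp only [Sm]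
    rw [Finset.sum_range_add, Finset.mul_sum]
    simp only [pow_add]

/-- **An endomorphism with finite orbits**: the elements of `M / (F - 1)` which are of `2`-power
order and are killed by a sum of powers of `F` have bounded order. -/
theorem alg (F : AddMonoid.End M) (hF : ∀ x : M, ∃ j : ℕ, 0 < j ∧ (F ^ j) x = x)
    (R : Finset M) (hR : ∀ x : M, ∃ r ∈ R, ∃ y, x = r + 2 • y)
    (e : ℕ) (he : ∀ (n : ℕ) (x : M), 2 ^ n • x = 0 → 2 ^ e • x = 0) :
    ∃ a : ℕ, ∀ x : M, (∃ j : ℕ, 0 < j ∧ ∑ i ∈ range j, (F ^ i) x = 0) →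
      (∃ (n : ℕ) (y : M), 2 ^ n • x = F y - y) → ∃ y, 2 ^ a • x = F y - y := by
  obtain ⟨s, hs, hsR⟩ := pow_fix_fin F hF R
  have h1 : ∀ (n : ℕ) (x : M), ∃ y, (F ^ s) x - x = 2 ^ n • y := by
    intro n
    induction n with
    | zero => intro x; exact ⟨(F ^ s) x - x, by rw [pow_zero, one_smul]⟩
    | succ n ih =>
      intro x
      obtain ⟨r, hr, y, hy⟩ := hR x
      obtain ⟨z, hz⟩ := ih y
      refine ⟨z, ?_⟩
      rw [hy, map_add, hsR r hr, map_nsmul, pow_succ, mul_comm, mul_smul, ← hz, smul_sub]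
      abel
  have h2 : ∀ x : M, Dv (2 ^ e • ((F ^ s) x - x)) := fun x => dv_of_forall he fun n => h1 n x
  obtain ⟨f, s', hs', hss⟩ := Nat.exists_eq_pow_mul_and_not_dvd hs.ne' 2 (by norm_num)
  refine ⟨e + e + f, ?_⟩
  rintro x ⟨j, hj, hjx⟩ ⟨n, y0, hy0⟩
  have hjx' : Sm F j x = 0 := by rw [Sm, sum_ap]; exact hjx
  -- the sum over a multiple of `s`
  obtain ⟨x', hx'⟩ : ∃ x', x' = 2 ^ e • x := ⟨_, rfl⟩
  have hjx2 : Sm F j x' = 0 := by rw [hx', map_nsmul, hjx', smul_zero]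
  have h3 : Sm F (s * j) x' = 0 := by
    rw [mul_comm, Sm_mul_eq, mul_ap, hjx2, map_zero]
  have h4 : ∀ b : ℕ, Dv ((F ^ (s * b)) (Sm F s x') - Sm F s x') := by
    intro b
    have h5 : ∀ b : ℕ, Dv ((F ^ (s * b)) x' - x') := by
      intro b
      induction b with
      | zero => simpa using Dv.zero
      | succ b ih =>
        have : (F ^ (s * (b + 1))) x' - x' =
            (F ^ (s * b)) (2 ^ e • ((F ^ s) x - x)) + ((F ^ (s * b)) x' - x') := by
          rw [smul_sub, ← map_nsmul, ← hx', map_sub, Nat.mul_succ, pow_add,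
            mul_ap]
          abel
        rw [this]
        exact ((h2 x).map _).add ih
    have h6 : (F ^ (s * b)) (Sm F s x') - Sm F s x' = Sm F s ((F ^ (s * b)) x' - x') := by
      rw [map_sub]
      congr 1
      have : Commute (F ^ (s * b)) (Sm F s) := by
        refine Commute.sum_right _ _ _ fun i _ => ?_
        exact (Commute.refl F).pow_pow _ _
      exact congrArg (fun G : AddMonoid.End M => G x') this.eq
    rw [h6]
    exact (h5 b).map _
  have h5 : Dv (j • Sm F s x') := by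
    have h6 : j • Sm F s x' = - ∑ b ∈ range j, ((F ^ (s * b)) (Sm F s x') - Sm F s x') := by
      rw [Finset.sum_sub_distrib, Finset.sum_const, Finset.card_range]
      have h7 : ∑ b ∈ range j, (F ^ (s * b)) (Sm F s x') = 0 := by
        rw [← h3, Sm_mul_eq, mul_ap, sum_ap]
      rw [h7]
      abel
    rw [h6]
    exact (Dv.sum _ _ fun b _ => h4 b).neg
  obtain ⟨b, o, ho, hbo⟩ := Nat.exists_eq_pow_mul_and_not_dvd hj.ne' 2 (by norm_num)
  have h6 : Dv (2 ^ e • (o • Sm F s x')) := by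
    rw [hbo, mul_smul] at h5
    obtain ⟨d, hd, hd'⟩ := h5.div b
    have h7 : 2 ^ e • (o • Sm F s x' - d) = 0 := by
      refine he b _ ?_
      rw [smul_sub, hd', sub_self]
    have h8 : 2 ^ e • (o • Sm F s x') = 2 ^ e • d := by
      rw [← sub_eq_zero, ← smul_sub, h7]
    rw [h8]
    exact hd.nsmul _
  obtain ⟨y, hy⟩ : ∃ y, y = (2 ^ e * o) • x' := ⟨_, rfl⟩
  obtain ⟨δ, hδ⟩ : ∃ δ, δ = Sm F s y := ⟨_, rfl⟩
  have hδD : Dv δ := by
    rw [hδ, hy, map_nsmul, mul_smul]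
    exact h6
  obtain ⟨R1, hR1⟩ : ∃ R1, R1 = - ∑ i ∈ range s, Sm F i y := ⟨_, rfl⟩
  have h7 : s • y = (F R1 - R1) + δ := by
    rw [exists_U F s y, ← hδ, hR1, map_neg]
    abel
  obtain ⟨J0, hJ0, hJf⟩ := pow_fix_fin F hF {R1}
  obtain ⟨J, hJ⟩ : ∃ J, J = j * J0 := ⟨_, rfl⟩
  have hJpos : 0 < J := by rw [hJ]; exact Nat.mul_pos hj hJ0
  have hJR : (F ^ J) R1 = R1 := by
    rw [hJ, mul_comm]; exact pow_fix F (hJf R1 (by simp)) j
  have hJx : Sm F J x = 0 := by
    rw [hJ, Sm_mul_eq, mul_ap, hjx', map_zero]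
  have h8 : Sm F J δ = 0 := by
    have h9 : δ = s • y - (F R1 - R1) := by rw [h7]; abel
    rw [h9, map_sub, map_nsmul, hy, map_nsmul, hx', map_nsmul, hJx, smul_zero, smul_zero,
      smul_zero, zero_sub, neg_eq_zero]
    have := congrArg (fun G : AddMonoid.End M => G R1) (Sm_mul' F J)
    have h10 : Sm F J (F R1 - R1) = (F ^ J) R1 - R1 := this
    rw [h10, hJR, sub_self]
  obtain ⟨R', hR'⟩ : ∃ R', R' = - ∑ i ∈ range J, Sm F i δ := ⟨_, rfl⟩
  have hR'D : Dv R' := by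
    rw [hR']
    exact (Dv.sum _ _ fun i _ => hδD.map _).neg
  have h9 : J • δ = F R' - R' := by
    rw [exists_U F J δ, h8, hR', map_neg]
    abel
  obtain ⟨g, J', hJ', hgJ⟩ := Nat.exists_eq_pow_mul_and_not_dvd hJpos.ne' 2 (by norm_num)
  obtain ⟨R'', hR'', hR2⟩ := hR'D.div g
  have h10 : J' • δ = F R'' - R'' := by
    rw [← sub_eq_zero]
    refine Dv.tors he ((hδD.nsmul _).sub ((hR''.map F).sub hR'')) (b := g) ?_
    rw [smul_sub, smul_sub, smul_smul, ← hgJ, h9, hR2, map_nsmul, sub_self]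
  -- conclusion
  have h11 : ∃ z, (J' * s * (2 ^ e * o) * 2 ^ e) • x = F z - z := by
    refine ⟨J' • R1 + R'', ?_⟩
    have h12 : (J' * s * (2 ^ e * o) * 2 ^ e) • x = J' • s • y := by
      rw [hy, hx']
      simp only [smul_smul, mul_assoc]
    rw [h12, h7, smul_add, h10, map_add, map_nsmul, smul_sub]
    abel
  obtain ⟨z, hz⟩ := h11
  have hodd : Nat.Coprime (J' * s' * o) (2 ^ n) := by
    apply Nat.Coprime.pow_right
    have hp : Nat.Prime 2 := Nat.prime_two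
    have c1 : Nat.Coprime J' 2 := ((Nat.Prime.coprime_iff_not_dvd hp).2 hJ').symm
    have c2 : Nat.Coprime s' 2 := ((Nat.Prime.coprime_iff_not_dvd hp).2 hs').symm
    have c3 : Nat.Coprime o 2 := ((Nat.Prime.coprime_iff_not_dvd hp).2 ho).symm
    exact (c1.mul_left c2).mul_left c3
  obtain ⟨w, hw⟩ : ∃ w, w = 2 ^ (e + e + f) • x := ⟨_, rfl⟩
  have hz' : (J' * s' * o) • w = F z - z := by
    rw [← hz, hw, smul_smul]
    congr 1
    rw [hss]
    ring
  have hw' : 2 ^ n • w = F (2 ^ (e + e + f) • y0) - 2 ^ (e + e + f) • y0 := by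
    rw [hw, smul_comm, hy0, map_nsmul, smul_sub]
  have hbez : ((J' * s' * o : ℕ) : ℤ) * Nat.gcdA (J' * s' * o) (2 ^ n) +
      ((2 ^ n : ℕ) : ℤ) * Nat.gcdB (J' * s' * o) (2 ^ n) = 1 := by
    rw [← Nat.gcd_eq_gcd_ab, hodd]; rfl
  refine ⟨Nat.gcdA (J' * s' * o) (2 ^ n) • z +
    Nat.gcdB (J' * s' * o) (2 ^ n) • (2 ^ (e + e + f) • y0), ?_⟩
  rw [← hw]
  have h13 : w = (((J' * s' * o : ℕ) : ℤ) * Nat.gcdA (J' * s' * o) (2 ^ n) +
      ((2 ^ n : ℕ) : ℤ) * Nat.gcdB (J' * s' * o) (2 ^ n)) • w := by rw [hbez, one_smul]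
  rw [h13, add_smul, mul_comm, mul_smul, mul_comm ((2 ^ n : ℕ) : ℤ), mul_smul, natCast_zsmul,
    natCast_zsmul, hz', hw', map_add, map_zsmul, map_zsmul, smul_sub, smul_sub]
  abel

end Pool.Agent.EFN
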