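import Mathlib
import Pool.Agent.TIFL.Dv

/-!
# EFN, block B: square classes which are even outside a finite set of places
-/

set_option autoImplicit false
set_option linter.unusedSectionVars false

open TIFL SUP

namespace Pool.Agent.EFN

section

variable {R : Type} [CommRing R] [IsDedekindDomain R] {M : Type} [Field M]

/-- `e` is a quotient of two nonzero elements of `ev R` -/
def Fr (ev : R →+* M) (e : Mˣ) : Prop := ∃ u w : R, u ≠ 0 ∧ w ≠ 0 ∧ ev u = e * ev w

/-- `e` is a quotient of two nonzero elements of `ev R` with even order outside `S` -/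
def Good (ev : R →+* M) (S : Set (XX R)) (e : Mˣ) : Prop :=
  Fr ev e ∧ ∀ v ∉ S, Even (dv ev e v)

variable {ev : R →+* M}

theorem Fr.one : Fr ev 1 := ⟨1, 1, one_ne_zero, one_ne_zero, by rw [Units.val_one, one_mul]⟩

theorem Fr.mul {e f : Mˣ} (he : Fr ev e) (hf : Fr ev f) : Fr ev (e * f) := by
  obtain ⟨u, w, hu, hw, h⟩ := he
  obtain ⟨u', w', hu', hw', h'⟩ := hf
  exact ⟨u * u', w * w', mul_ne_zero hu hu', mul_ne_zero hw hw', by
    rw [map_mul, map_mul, h, h', Units.val_mul]; ring⟩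

theorem Fr.inv {e : Mˣ} (he : Fr ev e) : Fr ev e⁻¹ := by
  obtain ⟨u, w, hu, hw, h⟩ := he
  exact ⟨w, u, hw, hu, by rw [h, ← mul_assoc, Units.inv_mul, one_mul]⟩

theorem Fr.pow {e : Mˣ} (he : Fr ev e) (n : ℕ) : Fr ev (e ^ n) := by
  induction n with
  | zero => rw [pow_zero]; exact Fr.one
  | succ n ih => rw [pow_succ]; exact ih.mul he

theorem Fr.neg {e : Mˣ} (he : Fr ev e) : Fr ev (-e) := by
  obtain ⟨u, w, hu, hw, h⟩ := he
  exact ⟨-u, w, neg_ne_zero.2 hu, hw, by rw [map_neg, h, Units.val_neg, neg_mul]⟩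

section inj

variable (hinj : Function.Injective ev)

include hinj

theorem Fr.add {e f g : Mˣ} (he : Fr ev e) (hf : Fr ev f) (h : (g : M) = e + f) : Fr ev g := by
  obtain ⟨u, w, hu, hw, h1⟩ := he
  obtain ⟨u', w', hu', hw', h2⟩ := hf
  have h3 : ev (u * w' + u' * w) = (g : M) * ev (w * w') := by
    rw [map_add, map_mul, map_mul, map_mul, h1, h2, h]; ring
  refine ⟨u * w' + u' * w, w * w', ?_, mul_ne_zero hw hw', h3⟩
  intro h0
  rw [h0, map_zero] at h3
  exact mul_ne_zero g.ne_zero ((map_ne_zero_iff ev hinj).2 (mul_ne_zero hw hw')) h3.symm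

theorem dv_mul' {e f : Mˣ} (he : Fr ev e) (hf : Fr ev f) (v : XX R) :
    dv ev (e * f) v = dv ev e v + dv ev f v := by
  obtain ⟨u, w, hu, hw, h⟩ := he
  obtain ⟨u', w', hu', hw', h'⟩ := hf
  rw [TIFL.dv_mul hinj hu hw h hu' hw' h', Finsupp.add_apply]

theorem dv_one' (v : XX R) : dv ev (1 : Mˣ) v = 0 := by
  have h := dv_mul' hinj (Fr.one (ev := ev)) (Fr.one (ev := ev)) v
  rw [mul_one] at h
  omega

theorem dv_pow' {e : Mˣ} (he : Fr ev e) (v : XX R) (n : ℕ) :
    dv ev (e ^ n) v = n * dv ev e v := by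
  induction n with
  | zero => rw [pow_zero, dv_one' hinj]; simp
  | succ n ih =>
    rw [pow_succ, dv_mul' hinj (he.pow n) he, ih]
    push_cast
    ring

theorem dv_neg' {e : Mˣ} (he : Fr ev e) (v : XX R) : dv ev (-e) v = dv ev e v := by
  have h := dv_pow' hinj he v 2
  have h' := dv_pow' hinj he.neg v 2
  rw [neg_sq, h] at h'
  push_cast at h'
  omega

theorem dv_inv' {e : Mˣ} (he : Fr ev e) (v : XX R) : dv ev e⁻¹ v = - dv ev e v := by
  have h := dv_mul' hinj he he.inv v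
  rw [mul_inv_cancel, dv_one' hinj] at h
  omega

/-- the ultrametric inequality -/
theorem dv_add {e f g : Mˣ} (he : Fr ev e) (hf : Fr ev f) (h : (g : M) = e + f) (v : XX R) :
    min (dv ev e v) (dv ev f v) ≤ dv ev g v := by
  obtain ⟨u, w, hu, hw, h1⟩ := he
  obtain ⟨u', w', hu', hw', h2⟩ := hf
  have h3 : ev (u * w' + u' * w) = (g : M) * ev (w * w') := by
    rw [map_add, map_mul, map_mul, map_mul, h1, h2, h]; ring
  have h0 : u * w' + u' * w ≠ 0 := by
    intro h0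
    rw [h0, map_zero] at h3
    exact mul_ne_zero g.ne_zero ((map_ne_zero_iff ev hinj).2 (mul_ne_zero hw hw')) h3.symm
  have e1 : ev (u * w') = e * ev (w * w') := by rw [map_mul, map_mul, h1]; ring
  have e2 : ev (u' * w) = f * ev (w * w') := by rw [map_mul, map_mul, h2]; ring
  have hww : w * w' ≠ 0 := mul_ne_zero hw hw'
  have ha : u * w' ≠ 0 := mul_ne_zero hu hw'
  have hb : u' * w ≠ 0 := mul_ne_zero hu' hw
  rw [dv_eq hinj ha hww e1, dv_eq hinj hb hww e2, dv_eq hinj h0 hww h3, Finsupp.sub_apply,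
    Finsupp.sub_apply, Finsupp.sub_apply, min_sub_sub_right, sub_le_sub_iff_right,
    dI_apply (span_ne ha), dI_apply (span_ne hb), dI_apply (span_ne h0)]
  have key : ∀ r : R, r ≠ 0 → ∀ n : ℕ, n ≤ mI (Ideal.span {r}) v ↔ r ∈ v.asIdeal ^ n := by
    intro r hr n
    have hr' : (Associates.mk (Ideal.span {r}) : Associates (Ideal R)) ≠ 0 :=
      Associates.mk_ne_zero.2 (span_ne hr)
    unfold mI
    rw [← Associates.prime_pow_dvd_iff_le hr' v.associates_irreducible, ← Associates.mk_pow,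
      Associates.mk_le_mk_iff_dvd, Ideal.dvd_span_singleton]
  have hmin : (min (mI (Ideal.span {u * w'}) v) (mI (Ideal.span {u' * w}) v) : ℕ) ≤
      mI (Ideal.span {u * w' + u' * w}) v := by
    rw [key _ h0]
    refine Ideal.add_mem _ ?_ ?_
    · exact (key _ ha _).1 (min_le_left _ _)
    · exact (key _ hb _).1 (min_le_right _ _)
  exact_mod_cast hmin

theorem dv_add_lt {e f g : Mˣ} (he : Fr ev e) (hf : Fr ev f) (h : (g : M) = e + f) (v : XX R)
    (hlt : dv ev e v < dv ev f v) : dv ev g v = dv ev e v := by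
  have h1 := dv_add hinj he hf h v
  have hg : Fr ev g := he.add hinj hf h
  have h2 := dv_add hinj hg hf.neg (g := e) (by rw [Units.val_neg, h]; ring) v
  rw [dv_neg' hinj hf] at h2
  rw [min_eq_left hlt.le] at h1
  rcases min_le_iff.1 h2 with h3 | h3
  · omega
  · omega

/-- the orders of the three factors are even -/
theorem even_dv {u₁ u₂ u₃ y d₂ d₃ : Mˣ} (h₁ : Fr ev u₁) (hy : Fr ev y) (hd₂ : Fr ev d₂)
    (hd₃ : Fr ev d₃) (e₂ : (u₂ : M) = u₁ + d₂) (e₃ : (u₃ : M) = u₁ + d₃)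
    (e : u₁ * u₂ * u₃ = y ^ 2) (v : XX R) (h2 : dv ev d₂ v = 0) (h3 : dv ev d₃ v = 0) :
    Even (dv ev u₁ v) := by
  have h₂ : Fr ev u₂ := h₁.add hinj hd₂ e₂
  have h₃ : Fr ev u₃ := h₁.add hinj hd₃ e₃
  have e' := congrArg (fun t => dv ev t v) e
  simp only [dv_mul' hinj (h₁.mul h₂) h₃, dv_mul' hinj h₁ h₂, dv_pow' hinj hy] at e'
  rcases lt_trichotomy (dv ev u₁ v) 0 with h | h | h
  · rw [dv_add_lt hinj h₁ hd₂ e₂ v (by omega), dv_add_lt hinj h₁ hd₃ e₃ v (by omega)] at e'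
    exact ⟨dv ev y v - dv ev u₁ v, by push_cast at e'; omega⟩
  · rw [h]; exact Even.zero
  · have a2 := dv_add_lt hinj hd₂ h₁ (g := u₂) (by rw [e₂, add_comm]) v (by omega)
    have a3 := dv_add_lt hinj hd₃ h₁ (g := u₃) (by rw [e₃, add_comm]) v (by omega)
    rw [a2, a3] at e'
    exact ⟨dv ev y v, by push_cast at e'; omega⟩

end inj

/-! ### labels -/

/-- half of the divisor -/
noncomputable def hf (D : XX R →₀ ℤ) : XX R →₀ ℤ := D.mapRange (fun n => n / 2) rfl

/-- the parity of the divisor -/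
noncomputable def pr (D : XX R →₀ ℤ) : XX R →₀ ℤ := D.mapRange (fun n => n % 2) rfl

theorem hf_pr (D : XX R →₀ ℤ) : D = 2 • hf D + pr D := by
  ext v
  rw [Finsupp.add_apply, Finsupp.smul_apply, hf, pr, Finsupp.mapRange_apply,
    Finsupp.mapRange_apply, two_nsmul]
  omega

theorem pr_fin {S : Set (XX R)} (hS : S.Finite) :
    {D : XX R →₀ ℤ | (∀ v ∉ S, D v = 0) ∧ ∀ v, D v = 0 ∨ D v = 1}.Finite := by
  refine Set.Finite.of_injOn (f := fun D : XX R →₀ ℤ => (D.support : Set (XX R)))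
    (t := {U | U ⊆ S}) ?_ ?_ hS.finite_subsets
  · rintro D ⟨h1, -⟩ v hv
    by_contra h
    exact (Finsupp.mem_support_iff.1 hv) (h1 v h)
  · rintro D ⟨-, h1⟩ D' ⟨-, h2⟩ h
    ext v
    have h3 : v ∈ (D.support : Set (XX R)) ↔ v ∈ (D'.support : Set (XX R)) := by
      have : (D.support : Set (XX R)) = D'.support := h
      rw [this]
    rw [Finset.mem_coe, Finset.mem_coe, Finsupp.mem_support_iff, Finsupp.mem_support_iff] at h3
    have h4 := h1 v
    have h5 := h2 v
    omega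

theorem sq_fin (h2 : {c : ClassGroup R | c ^ 2 = 1}.Finite) (a : ClassGroup R) :
    {c : ClassGroup R | c ^ 2 = a}.Finite := by
  by_cases h : ∃ c₀ : ClassGroup R, c₀ ^ 2 = a
  · obtain ⟨c₀, hc₀⟩ := h
    refine (h2.image (fun c => c₀ * c)).subset ?_
    intro c hc
    refine ⟨c₀⁻¹ * c, ?_, by simp⟩
    show (c₀⁻¹ * c) ^ 2 = 1
    rw [mul_pow, inv_pow, hc₀, show c ^ 2 = a from hc, inv_mul_cancel]
  · refine Set.Finite.subset Set.finite_empty ?_
    intro c hc
    exact h ⟨c, hc⟩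

/-- the square classes of the elements which are even outside `S` have finitely many labels -/
theorem labels (hinj : Function.Injective ev) {S : Set (XX R)} (hS : S.Finite)
    (h2 : {c : ClassGroup R | c ^ 2 = 1}.Finite) (hu : ∀ u : R, IsUnit u → ∃ w : R, w ^ 2 = u) :
    ∃ (Λ : Type) (lab : Mˣ → Λ), (lab '' {e | Good ev S e}).Finite ∧
      ∀ e e' : Mˣ, Good ev S e → Good ev S e' → lab e = lab e' →
        ∃ s : Mˣ, Fr ev s ∧ e * e' = s ^ 2 := by
  refine ⟨(XX R →₀ ℤ) × ClassGroup R, fun e => (pr (dv ev e), cD (hf (dv ev e))), ?_, ?_⟩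
  · refine ((pr_fin hS).biUnion (t := fun ε => (Prod.mk ε) ''
      {c : ClassGroup R | c ^ 2 = (cD ε)⁻¹}) (fun ε _ => (sq_fin h2 _).image _)).subset ?_
    rintro _ ⟨e, ⟨he, hev⟩, rfl⟩
    rw [Set.mem_iUnion₂]
    refine ⟨pr (dv ev e), ⟨?_, ?_⟩, _, ?_, rfl⟩
    · intro v hv
      rw [pr, Finsupp.mapRange_apply]
      exact Int.even_iff.1 (hev v hv)
    · intro v
      rw [pr, Finsupp.mapRange_apply]
      exact Int.emod_two_eq_zero_or_one _
    · obtain ⟨u, w, hu', hw', h⟩ := he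
      have h3 := cD_dv hinj hu' hw' h
      rw [hf_pr (dv ev e), cD_add, cD_nsmul] at h3
      exact eq_inv_of_mul_eq_one_left h3
  · rintro e e' ⟨he, -⟩ ⟨he', -⟩ hl
    have hl1 : pr (dv ev e) = pr (dv ev e') := congrArg Prod.fst hl
    have hl2 : cD (hf (dv ev e)) = cD (hf (dv ev e')) := congrArg Prod.snd hl
    have hc : cD (hf (dv ev e) - hf (dv ev e')) = 1 := by rw [cD_sub, hl2, div_self']
    obtain ⟨u, w, hu0, hw0, huw⟩ := exists_of_cD hc
    have hu1 : ev u ≠ 0 := (map_ne_zero_iff ev hinj).2 hu0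
    have hw1 : ev w ≠ 0 := (map_ne_zero_iff ev hinj).2 hw0
    let t : Mˣ := Units.mk0 (ev u / ev w) (div_ne_zero hu1 hw1)
    have ht : ev u = (t : M) * ev w := by
      show ev u = ev u / ev w * ev w
      rw [div_mul_cancel₀ _ hw1]
    have htF : Fr ev t := ⟨u, w, hu0, hw0, ht⟩
    have hdt : dv ev t = hf (dv ev e) - hf (dv ev e') := by
      rw [dv_eq hinj hu0 hw0 ht, huw]
    let g : Mˣ := e * (e' * t ^ 2)⁻¹
    have hg : Fr ev g := he.mul (he'.mul (htF.pow 2)).inv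
    have hg0 : dv ev g = 0 := by
      ext v
      rw [dv_mul' hinj he (he'.mul (htF.pow 2)).inv, dv_inv' hinj (he'.mul (htF.pow 2)),
        dv_mul' hinj he' (htF.pow 2), dv_pow' hinj htF, hdt, Finsupp.sub_apply]
      have e1 := congrArg (fun D : XX R →₀ ℤ => D v) (hf_pr (dv ev e))
      have e2 := congrArg (fun D : XX R →₀ ℤ => D v) (hf_pr (dv ev e'))
      simp only [Finsupp.add_apply, two_nsmul] at e1 e2
      rw [hl1] at e1
      rw [Finsupp.zero_apply]
      push_cast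
      omega
    obtain ⟨u', w', hu', hw', h'⟩ := hg
    obtain ⟨c, hc, hgc⟩ := (dv_zero hinj hu' hw' h').1 hg0
    obtain ⟨c₀, hc₀⟩ := hu c hc
    have hc0 : c₀ ≠ 0 := by
      rintro rfl
      apply g.ne_zero
      rw [hgc, ← hc₀]
      simp
    have hc1 : ev c₀ ≠ 0 := (map_ne_zero_iff ev hinj).2 hc0
    let r : Mˣ := Units.mk0 (ev c₀) hc1
    have hr : Fr ev r := ⟨c₀, 1, hc0, one_ne_zero, by
      rw [map_one, mul_one]; rfl⟩
    have hr2 : g = r ^ 2 := by
      ext
      rw [hgc, ← hc₀, map_pow]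
      rfl
    refine ⟨e' * t * r, (he'.mul htF).mul hr, ?_⟩
    have h3 : e = g * (e' * t ^ 2) := by
      show e = e * (e' * t ^ 2)⁻¹ * (e' * t ^ 2)
      rw [inv_mul_cancel_right]
    rw [h3, hr2]
    apply Units.ext
    push_cast
    ring

end

end Pool.Agent.EFN
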