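import Mathlib
import Pool.Agent.EFN.B1

/-!
# EFN, block B: labels for the elements purely inseparable over the field of a model
-/

set_option autoImplicit false
set_option linter.unusedSectionVars false

open TIFL SUP

namespace Pool.Agent.EFN

section

variable {R : Type} [CommRing R] [IsDedekindDomain R] {M : Type} [Field M]

/-- a power with exponent `p ^ n` of `e` is a quotient of two nonzero elements of `ev R` -/
def Frp (ev : R →+* M) (p : ℕ) (e : Mˣ) : Prop := ∃ n : ℕ, Fr ev (e ^ p ^ n)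

/-- a power with exponent `p ^ n` of `e` is good -/
def Goodp (ev : R →+* M) (S : Set (XX R)) (p : ℕ) (e : Mˣ) : Prop :=
  ∃ n : ℕ, Good ev S (e ^ p ^ n)

variable {ev : R →+* M} {p : ℕ}

theorem Frp.common {e f : Mˣ} (he : Frp ev p e) (hf : Frp ev p f) :
    ∃ n : ℕ, Fr ev (e ^ p ^ n) ∧ Fr ev (f ^ p ^ n) := by
  obtain ⟨n, h⟩ := he
  obtain ⟨m, h'⟩ := hf
  refine ⟨n + m, ?_, ?_⟩
  · rw [pow_add, pow_mul]; exact h.pow _
  · rw [add_comm, pow_add, pow_mul]; exact h'.pow _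

theorem Fr.frp {e : Mˣ} (he : Fr ev e) : Frp ev p e := ⟨0, by rwa [pow_zero, pow_one]⟩

theorem Frp.mul {e f : Mˣ} (he : Frp ev p e) (hf : Frp ev p f) : Frp ev p (e * f) := by
  obtain ⟨n, h, h'⟩ := he.common hf
  exact ⟨n, by rw [mul_pow]; exact h.mul h'⟩

theorem Frp.inv {e : Mˣ} (he : Frp ev p e) : Frp ev p e⁻¹ := by
  obtain ⟨n, h⟩ := he
  exact ⟨n, by rw [inv_pow]; exact h.inv⟩

theorem Frp.pow {e : Mˣ} (he : Frp ev p e) (m : ℕ) : Frp ev p (e ^ m) := by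
  obtain ⟨n, h⟩ := he
  exact ⟨n, by rw [← pow_mul, mul_comm, pow_mul]; exact h.pow m⟩

theorem Goodp.frp {S : Set (XX R)} {e : Mˣ} (he : Goodp ev S p e) : Frp ev p e := by
  obtain ⟨n, h⟩ := he
  exact ⟨n, h.1⟩

theorem labels_p (hinj : Function.Injective ev) (hp : Odd p) {S : Set (XX R)} (hS : S.Finite)
    (h2 : {c : ClassGroup R | c ^ 2 = 1}.Finite) (hu : ∀ u : R, IsUnit u → ∃ w : R, w ^ 2 = u) :
    ∃ (Λ : Type) (lab : Mˣ → Λ), (lab '' {e | Goodp ev S p e}).Finite ∧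
      ∀ e e' : Mˣ, Goodp ev S p e → Goodp ev S p e' → lab e = lab e' →
        ∃ s : Mˣ, Frp ev p s ∧ e * e' = s ^ 2 := by
  classical
  obtain ⟨Λ, lab, hfin, h⟩ := labels hinj hS h2 hu
  refine ⟨Λ, fun u => if hg : Goodp ev S p u then lab (u ^ p ^ hg.choose) else lab 1, ?_, ?_⟩
  · refine hfin.subset ?_
    rintro _ ⟨e, he, rfl⟩
    have he' : Goodp ev S p e := he
    exact ⟨e ^ p ^ he'.choose, he'.choose_spec, by simp only [dif_pos he']⟩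
  · intro e e' he he' hl
    simp only [dif_pos he, dif_pos he'] at hl
    obtain ⟨t, ht, hte⟩ := h _ _ he.choose_spec he'.choose_spec hl
    obtain ⟨a, ha⟩ := hp.pow (n := he.choose)
    obtain ⟨b, hb⟩ := hp.pow (n := he'.choose)
    rw [ha, hb] at hte
    refine ⟨t * (e ^ a * e' ^ b)⁻¹, ht.frp.mul ((he.frp.pow a).mul (he'.frp.pow b)).inv, ?_⟩
    rw [mul_pow, inv_pow, ← hte, eq_mul_inv_iff_mul_eq]
    apply Units.ext
    push_cast
    ring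

theorem goodp [ExpChar M p] (hinj : Function.Injective ev) {S : Set (XX R)}
    {u₁ u₂ u₃ y d₂ d₃ : Mˣ} (h₁ : Frp ev p u₁) (hy : Frp ev p y) (hd₂ : Fr ev d₂)
    (hd₃ : Fr ev d₃) (e₂ : (u₂ : M) = u₁ + d₂) (e₃ : (u₃ : M) = u₁ + d₃)
    (e : u₁ * u₂ * u₃ = y ^ 2) (hS₂ : ∀ v ∉ S, dv ev d₂ v = 0) (hS₃ : ∀ v ∉ S, dv ev d₃ v = 0) :
    Goodp ev S p u₁ := by
  obtain ⟨n, h1, h2⟩ := h₁.common hy
  refine ⟨n, h1, fun v hv => ?_⟩
  refine even_dv hinj (u₂ := u₂ ^ p ^ n) (u₃ := u₃ ^ p ^ n) h1 h2 (hd₂.pow (p ^ n))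
    (hd₃.pow (p ^ n)) ?_ ?_ ?_ v ?_ ?_
  · push_cast
    rw [e₂, add_pow_expChar_pow]
  · push_cast
    rw [e₃, add_pow_expChar_pow]
  · rw [← mul_pow, ← mul_pow, e, ← pow_mul, ← pow_mul, mul_comm]
  · rw [dv_pow' hinj hd₂, hS₂ v hv, mul_zero]
  · rw [dv_pow' hinj hd₃, hS₃ v hv, mul_zero]

end

/-! ### the group theoretic part -/

section

theorem exists_reps {A Λ : Type} (X : Set A) (f : A → Λ) (h : (f '' X).Finite) :
    ∃ R : Set A, R.Finite ∧ R ⊆ X ∧ ∀ P ∈ X, ∃ r ∈ R, f r = f P := by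
  obtain ⟨R, hR, hb⟩ := Set.exists_subset_bijOn X f
  refine ⟨R, hb.finite_iff_finite.2 h, hR, fun P hP => ?_⟩
  obtain ⟨r, hr, hrP⟩ := hb.surjOn ⟨P, hP, rfl⟩
  exact ⟨r, hr, hrP⟩

theorem fin_reps {A G Tr Λ : Type} [AddCommGroup A] [Group G] (act : G → A →+ A)
    (hmul : ∀ g h a, act (g * h) a = act g (act h a))
    (N : Subgroup G) (H : Set G) (τ : G → Tr) (hτ : (τ '' (N : Set G)).Finite)
    (hτH : ∀ g ∈ N, ∀ h ∈ N, τ g = τ h → g⁻¹ * h ∈ H)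
    (h2 : {a : A | 2 • a = 0}.Finite)
    (lab : A → Λ) (hl : (lab '' {a | ∀ g ∈ N, act g a = a}).Finite)
    (hlab : ∀ a b : A, (∀ g ∈ N, act g a = a) → (∀ g ∈ N, act g b = b) → lab a = lab b →
       ∃ r : A, a - b = 2 • r ∧ ∀ g ∈ H, act g r = r) :
    ∃ R : Set A, R.Finite ∧ (∀ r ∈ R, ∀ g ∈ N, act g r = r) ∧
      ∀ a : A, (∀ g ∈ N, act g a = a) → ∃ r ∈ R, ∃ c, (∀ g ∈ N, act g c = c) ∧ a = r + 2 • c := by
  classical
  -- one label
  have key : ∀ l ∈ lab '' {a | ∀ g ∈ N, act g a = a}, ∃ R : Set A, R.Finite ∧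
      (∀ r ∈ R, ∀ g ∈ N, act g r = r) ∧ ∀ a : A, (∀ g ∈ N, act g a = a) → lab a = l →
        ∃ r ∈ R, ∃ c, (∀ g ∈ N, act g c = c) ∧ a = r + 2 • c := by
    rintro _ ⟨b, hb, rfl⟩
    have hb' : ∀ g ∈ N, act g b = b := hb
    have hex : ∀ a : A, ∃ r : A, (∀ g ∈ N, act g a = a) → lab a = lab b →
        a - b = 2 • r ∧ ∀ g ∈ H, act g r = r := by
      intro a
      by_cases h : (∀ g ∈ N, act g a = a) ∧ lab a = lab b
      · obtain ⟨r, hr⟩ := hlab a b h.1 hb' h.2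
        exact ⟨r, fun _ _ => hr⟩
      · exact ⟨0, fun h1 h2 => absurd ⟨h1, h2⟩ h⟩
    choose ρ hρ using hex
    have hg : ∀ t : (τ '' (N : Set G)), ∃ g ∈ N, τ g = t := by
      rintro ⟨_, g, hg, rfl⟩
      exact ⟨g, hg, rfl⟩
    choose γ hγ hγτ using hg
    let X : Set A := {a | (∀ g ∈ N, act g a = a) ∧ lab a = lab b}
    let f : A → ((τ '' (N : Set G)) → A) := fun a t => act (γ t) (ρ a) - ρ a
    have hfin : (f '' X).Finite := by
      have := hτ.to_subtype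
      refine (Set.Finite.pi' (t := fun _ : (τ '' (N : Set G)) => {a : A | 2 • a = 0})
        (fun _ => h2)).subset ?_
      rintro _ ⟨a, ⟨ha, hal⟩, rfl⟩ t
      show 2 • (act (γ t) (ρ a) - ρ a) = 0
      obtain ⟨h3, -⟩ := hρ a ha hal
      rw [smul_sub, ← map_nsmul, ← h3, map_sub, ha _ (hγ t), hb' _ (hγ t), sub_self]
    obtain ⟨R, hR, hRX, hRf⟩ := exists_reps X f hfin
    refine ⟨R, hR, fun r hr => (hRX hr).1, fun a ha hal => ?_⟩
    obtain ⟨r, hr, hrf⟩ := hRf a ⟨ha, hal⟩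
    obtain ⟨hrN, hrl⟩ := hRX hr
    obtain ⟨ea, ha'⟩ := hρ a ha hal
    obtain ⟨er, hr'⟩ := hρ r hrN hrl
    refine ⟨r, hr, ρ a - ρ r, ?_, ?_⟩
    · intro g hg
      let t : (τ '' (N : Set G)) := ⟨τ g, g, hg, rfl⟩
      have h4 : (γ t)⁻¹ * g ∈ H := hτH _ (hγ t) _ hg (hγτ t)
      have h5 : ∀ c, (∀ g ∈ H, act g c = c) → act g c = act (γ t) c := by
        intro c hc
        have h6 := hc _ h4
        have h7 := hmul (γ t) ((γ t)⁻¹ * g) c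
        rw [mul_inv_cancel_left, h6] at h7
        exact h7
      have h8 := congrFun hrf t
      have h9 : act (γ t) (ρ r) - ρ r = act (γ t) (ρ a) - ρ a := h8
      rw [map_sub, h5 _ ha', h5 _ hr']
      rw [sub_eq_sub_iff_add_eq_add] at h9 ⊢
      exact h9.symm.trans (add_comm _ _)
    · rw [smul_sub, ← ea, ← er]
      abel
  choose! R hR1 hR2 hR3 using key
  refine ⟨⋃ l ∈ lab '' {a | ∀ g ∈ N, act g a = a}, R l, hl.biUnion hR1, ?_, ?_⟩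
  · intro r hr
    obtain ⟨l, hl', hrl⟩ := Set.mem_iUnion₂.1 hr
    exact hR2 l hl' r hrl
  · intro a ha
    obtain ⟨r, hr, c, hc, hac⟩ := hR3 (lab a) ⟨a, ha, rfl⟩ a ha rfl
    exact ⟨r, Set.mem_iUnion₂.2 ⟨lab a, ⟨a, ha, rfl⟩, hr⟩, c, hc, hac⟩

end

end Pool.Agent.EFN
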