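import Mathlib
import Pool.Agent.EFN.B2
import Pool.Agent.TIFS.D8
import Pool.Agent.TIFCRV.Crv

/-!
# EFN, block B: a model of a function field over the algebraic closure of a finite field
-/

set_option autoImplicit false
set_option linter.unusedSectionVars false

open TIFL SUP Polynomial GT TIF

namespace Pool.Agent.EFN

section

variable {k : Type} [Field k] [Finite k] {Ω : Type} [Field Ω] [Algebra k Ω] [IsAlgClosed Ω]

/-- the table of a model over the algebraic closure is defined over a finite field -/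
theorem exists_Tk {κ : Type} [Field κ] [Algebra k κ] [Algebra.IsAlgebraic k κ] {d : ℕ} [NeZero d]
    (T : Tab κ d) : ∃ (k' : IntermediateField k κ) (_ : Finite k'), Tk k' T := by
  let Cf₀ : Set κ := ⋃ i, ⋃ j, ⋃ l, Set.range (fun n => (T.c i j l).coeff n)
  have hCf : Cf₀.Finite :=
    Set.finite_iUnion fun i => Set.finite_iUnion fun j => Set.finite_iUnion fun l =>
      TIFCRV.coeff_fin _
  let k' : IntermediateField k κ := IntermediateField.adjoin k Cf₀
  have hfin : Finite k' := by
    have : Finite Cf₀ := hCf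
    have h3 : FiniteDimensional k k' := IntermediateField.finiteDimensional_adjoin
      (fun x _ => (Algebra.IsAlgebraic.isAlgebraic x).isIntegral)
    exact Module.finite_of_finite k
  refine ⟨k', hfin, ?_⟩
  refine TIFCRV.exists_tab (algebraMap k' κ) (algebraMap k' κ).injective T (fun i j l n => ?_)
  refine ⟨⟨(T.c i j l).coeff n, ?_⟩, rfl⟩
  refine IntermediateField.subset_adjoin k _ ?_
  simp only [Cf₀, Set.mem_iUnion, Set.mem_range]
  exact ⟨i, j, l, n, rfl⟩

theorem cl2_fin {κ : Type} [Field κ] [IsAlgClosed κ] [Algebra k κ] [Algebra.IsAlgebraic k κ]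
    (h2 : (2 : k) ≠ 0) {d : ℕ} [NeZero d] (T : Tab κ d) [IsDedekindDomain (WB T)] :
    {c : ClassGroup (WB T) | c ^ 2 = 1}.Finite := by
  obtain ⟨k', hfin, hT⟩ := exists_Tk (k := k) T
  have h2' : ((2 : ℕ) : k') ≠ 0 := by
    intro h0
    apply h2
    apply (algebraMap k k').injective
    rw [map_ofNat, map_zero]
    exact_mod_cast h0
  have : Fact (Nat.Prime 2) := ⟨Nat.prime_two⟩
  have h := TIFS.card_tors_eq (k := k') (Ω := κ) hT 2 h2'
  have h' : Nat.card {D : ClassGroup (WB T) // D ^ 2 = 1} ≠ 0 := by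
    rw [h]
    exact pow_ne_zero _ two_ne_zero
  have h3 : Finite {D : ClassGroup (WB T) // D ^ 2 = 1} := Nat.finite_of_card_ne_zero h'
  exact Set.finite_coe_iff.1 h3

/-- a Dedekind domain with quotient field the field generated by a finite set `G` and `z` over the
algebraic closure of `k` -/
theorem exists_ev (h2 : (2 : k) ≠ 0) {z : Ω} (hz : ¬ IsAlgebraic k z) {G : Set Ω} (hG : G.Finite)
    (halg : ∀ g ∈ G, IsAlgebraic (IntermediateField.adjoin (algebraicClosure k Ω) {z}) g) :
    ∃ (R : Type) (_ : CommRing R) (_ : IsDedekindDomain R) (ev : R →+* Ω),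
      Function.Injective ev ∧ {c : ClassGroup R | c ^ 2 = 1}.Finite ∧
      (∀ u : R, IsUnit u → ∃ w : R, w ^ 2 = u) ∧
      (∀ x : Ωˣ, (x : Ω) ∈ IntermediateField.adjoin (algebraicClosure k Ω) (G ∪ {z}) ↔ Fr ev x) := by
  let κ : IntermediateField k Ω := algebraicClosure k Ω
  have hκ : IsAlgClosed κ := IsAlgClosure.isAlgClosed (R := k)
  have hκalg : ∀ {x : Ω}, IsAlgebraic κ x → IsAlgebraic k x := fun hx => hx.restrictScalars k
  have hs : Transcendental κ z := fun h => hz (hκalg h)
  obtain ⟨hF, -⟩ := TIFCRV.ff_adjoin hs G hG halg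
  set L := IntermediateField.adjoin κ (G ∪ {z}) with hL
  let x₁ : L := ⟨z, IntermediateField.subset_adjoin κ _ (Or.inr rfl)⟩
  obtain ⟨O₁, hO₁⟩ : ∃ O₁ : ValuationSubring L, IsPl κ O₁ := by
    by_contra hno
    push Not at hno
    obtain ⟨c, hc⟩ := mem_const x₁ (fun O hO => absurd hO (hno O))
    apply hs
    have h3 : z = algebraMap κ Ω c := congrArg (fun z : L => (z : Ω)) hc
    rw [h3]
    exact isAlgebraic_algebraMap c
  obtain ⟨d, hd, T, E, hM⟩ := GTP.exists_model hF hO₁
  have hded : IsDedekindDomain (WB T) := hM.ded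
  have hκk : Algebra.IsAlgebraic k κ := algebraicClosure.isAlgebraic k Ω
  have hinj : Function.Injective ((algebraMap L Ω).comp E) := (algebraMap L Ω).injective.comp hM.inj
  refine ⟨WB T, inferInstance, hded, (algebraMap L Ω).comp E, hinj, cl2_fin (k := k) h2 T, ?_, ?_⟩
  · intro u hu
    obtain ⟨r, -, rfl⟩ := eq_const_of_isUnit hu
    obtain ⟨s, hs⟩ := IsAlgClosed.exists_pow_nat_eq r (n := 2) two_pos
    exact ⟨algebraMap κ (WB T) s, by rw [← map_pow, hs]⟩
  · intro x
    constructor
    · intro hx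
      obtain ⟨a, b, hb, hab⟩ := hM.frac ⟨x, hx⟩
      have h3 : (algebraMap L Ω).comp E a = x * (algebraMap L Ω).comp E b :=
        (congrArg (fun z : L => (z : Ω)) hab).symm
      refine ⟨a, b, ?_, hb, h3⟩
      rintro rfl
      rw [map_zero] at h3
      exact mul_ne_zero x.ne_zero ((map_ne_zero_iff _ hinj).2 hb) h3.symm
    · rintro ⟨u, w, hu, hw, h⟩
      have hw' : (algebraMap L Ω).comp E w ≠ 0 := (map_ne_zero_iff _ hinj).2 hw
      have h3 : (x : Ω) = (algebraMap L Ω).comp E u / (algebraMap L Ω).comp E w := by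
        rw [eq_div_iff hw', h]
      rw [h3]
      exact div_mem (E u).2 (E w).2

end

end Pool.Agent.EFN
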