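import Pool.Agent.EFN.H1
import Pool.Agent.EFM.Defs

/-!
# Two points with the same square classes differ by a double
-/

set_option autoImplicit false
set_option linter.unusedSectionVars false

namespace Pool.Agent.EFN

open WeierstrassCurve WeierstrassCurve.Affine

open scoped Classical

section

variable {F : Type*} [Field F] {W : Affine F} {e₁ e₂ e₃ : F} (hW : Rts W e₁ e₂ e₃)

include hW

/-- **Halving.** -/
theorem halve {X Y w₁ w₂ w₃ : F} (h : W.Nonsingular X Y) (h1 : w₁ ^ 2 = X - e₁)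
    (h2 : w₂ ^ 2 = X - e₂) (h3 : w₃ ^ 2 = X - e₃) (hY : w₁ * w₂ * w₃ = Y) :
    ∃ h', Point.some (X + w₁ * w₂ + w₁ * w₃ + w₂ * w₃) ((w₁ + w₂) * (w₁ + w₃) * (w₂ + w₃)) h' +
      Point.some (X + w₁ * w₂ + w₁ * w₃ + w₂ * w₃) ((w₁ + w₂) * (w₁ + w₃) * (w₂ + w₃)) h' =
        Point.some X Y h := by
  obtain ⟨x, hx⟩ : ∃ x, x = X + w₁ * w₂ + w₁ * w₃ + w₂ * w₃ := ⟨_, rfl⟩
  obtain ⟨y, hy⟩ : ∃ y, y = (w₁ + w₂) * (w₁ + w₃) * (w₂ + w₃) := ⟨_, rfl⟩
  rw [← hx, ← hy]
  have a1 : x - e₁ = (w₁ + w₂) * (w₁ + w₃) := by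
    rw [hx]; linear_combination -h1
  have a2 : x - e₂ = (w₁ + w₂) * (w₂ + w₃) := by
    rw [hx]; linear_combination -h2
  have a3 : x - e₃ = (w₁ + w₃) * (w₂ + w₃) := by
    rw [hx]; linear_combination -h3
  have n1 : w₁ + w₂ ≠ 0 := by
    intro h0
    apply hW.n12
    linear_combination h1 - h2 - (w₁ - w₂) * h0
  have n2 : w₁ + w₃ ≠ 0 := by
    intro h0
    apply hW.n13
    linear_combination h1 - h3 - (w₁ - w₃) * h0
  have n3 : w₂ + w₃ ≠ 0 := by
    intro h0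
    apply hW.n23
    linear_combination h2 - h3 - (w₂ - w₃) * h0
  have hy0 : y ≠ 0 := by
    rw [hy]
    exact mul_ne_zero (mul_ne_zero n1 n2) n3
  have heq : y ^ 2 = (x - e₁) * (x - e₂) * (x - e₃) := by
    rw [a1, a2, a3, hy]; ring
  have hsl : W.slope x x y y = w₁ + w₂ + w₃ := by
    rw [hW.slope_self hy0, a1, a2, a3, div_eq_iff (mul_ne_zero hW.two hy0), hy]
    ring
  refine ⟨hW.nons heq, ?_⟩
  rw [Point.add_self_of_Y_ne (hW.ne_negy hy0 x)]
  have ex : W.addX x x (W.slope x x y y) = X := by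
    rw [hW.addx, hsl, hx]
    linear_combination h1 + h2 + h3
  have ey : W.addY x x y (W.slope x x y y) = Y := by
    rw [hW.addy, ex, hsl, ← hY, hx, hy]
    ring
  simp only [ex, ey]

theorem halve' {X Y w₁ w₂ w₃ : F} (h : W.Nonsingular X Y) (h1 : w₁ ^ 2 = X - e₁)
    (h2 : w₂ ^ 2 = X - e₂) (h3 : w₃ ^ 2 = X - e₃) :
    ∃ x y h', (x = X + w₁ * w₂ + w₁ * w₃ + w₂ * w₃ ∧ y = (w₁ + w₂) * (w₁ + w₃) * (w₂ + w₃) ∨
      x = X + w₁ * w₂ - w₁ * w₃ - w₂ * w₃ ∧ y = (w₁ + w₂) * (w₁ - w₃) * (w₂ - w₃)) ∧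
      Point.some x y h' + Point.some x y h' = Point.some X Y h := by
  have h4 : (w₁ * w₂ * w₃ - Y) * (w₁ * w₂ * w₃ + Y) = 0 := by
    have h5 := (hW.eqn X Y).1 h.1
    rw [← h1, ← h2, ← h3] at h5
    linear_combination -h5
  rcases mul_eq_zero.1 h4 with h5 | h5
  · obtain ⟨h', h6⟩ := halve hW h h1 h2 h3 (sub_eq_zero.1 h5)
    exact ⟨_, _, h', Or.inl ⟨rfl, rfl⟩, h6⟩
  · obtain ⟨h', h6⟩ := halve hW h h1 h2 (w₃ := -w₃) (by rw [neg_sq]; exact h3)
      (by linear_combination -h5)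
    exact ⟨_, _, h', Or.inr ⟨by ring, by ring⟩, h6⟩

theorem line_eq {a b c x y x' y' l x₃ : F} (hx : x - x' ≠ 0)
    (h : y ^ 2 = (x - a) * (x - b) * (x - c)) (h' : y' ^ 2 = (x' - a) * (x' - b) * (x' - c))
    (hl : l * (x - x') = y - y') (hx3 : x₃ = l ^ 2 + (a + b + c) - x - x') :
    (y + l * (a - x)) ^ 2 = (x - a) * (x' - a) * (x₃ - a) := by
  apply mul_left_cancel₀ hx
  subst hx3
  linear_combination (a - x') * h - (a - x) * h' + (a - x) * (y + l * (x' - x) + y') * hl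

theorem sq_div {u v w s L : F} (hs : s ≠ 0) (h1 : u * v = s ^ 2)
    (h2 : L ^ 2 = u * v * w) : (L / s) ^ 2 = w := by
  rw [div_pow, h2, h1, mul_div_assoc, mul_comm, div_mul_cancel₀]
  exact pow_ne_zero 2 hs

end

section

universe u

variable {K Kb : Type u} [Field K] [Field Kb] [Algebra K Kb] (W : WeierstrassCurve K)

theorem act_some (σ : Kb ≃ₐ[K] Kb) {x y : Kb} (h : (W.baseChange Kb).toAffine.Nonsingular x y) :
    ∃ h', EFF.act W σ (Point.some x y h) = Point.some (σ x) (σ y) h' := ⟨_, rfl⟩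

theorem act_eq_iff (σ : Kb ≃ₐ[K] Kb) {x y : Kb} (h : (W.baseChange Kb).toAffine.Nonsingular x y) :
    EFF.act W σ (Point.some x y h) = Point.some x y h ↔ σ x = x ∧ σ y = y := by
  obtain ⟨h', he⟩ := act_some W σ h
  rw [he, Point.some.injEq]

/-- **Two points in the same square classes differ by a double.** -/
theorem sub_double {e₁ e₂ e₃ : Kb} (hW : Rts (W.baseChange Kb).toAffine e₁ e₂ e₃)
    {x y x' y' : Kb} (h : (W.baseChange Kb).toAffine.Nonsingular x y)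
    (h' : (W.baseChange Kb).toAffine.Nonsingular x' y') {s₁ s₂ s₃ : Kb} (n₁ : s₁ ≠ 0) (n₂ : s₂ ≠ 0)
    (n₃ : s₃ ≠ 0) (q₁ : (x - e₁) * (x' - e₁) = s₁ ^ 2) (q₂ : (x - e₂) * (x' - e₂) = s₂ ^ 2)
    (q₃ : (x - e₃) * (x' - e₃) = s₃ ^ 2) :
    ∃ R : EFF.Pts W Kb, Point.some x y h - Point.some x' y' h' = 2 • R ∧
      ∀ σ : Kb ≃ₐ[K] Kb, σ e₁ = e₁ → σ e₂ = e₂ → σ e₃ = e₃ → σ s₁ = s₁ → σ s₂ = s₂ →
        σ s₃ = s₃ → EFF.act W σ (Point.some x y h) = Point.some x y h →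
        EFF.act W σ (Point.some x' y' h') = Point.some x' y' h' → EFF.act W σ R = R := by
  have heq := (hW.eqn x y).1 h.1
  have heq' := (hW.eqn x' y').1 h'.1
  by_cases hx : x = x'
  · subst hx
    have h1 : (y - y') * (y + y') = 0 := by linear_combination heq - heq'
    rcases mul_eq_zero.1 h1 with h2 | h2
    · have h3 : y = y' := sub_eq_zero.1 h2
      subst h3
      exact ⟨0, by rw [sub_self, smul_zero], fun σ _ _ _ _ _ _ _ _ => map_zero _⟩
    · have h3 : y' = -y := by linear_combination h2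
      subst h3
      refine ⟨Point.some x y h, ?_, fun σ _ _ _ _ _ _ hP _ => hP⟩
      have h4 : Point.some x (-y) h' = -Point.some x y h := by
        rw [Point.neg_some]
        simp only [hW.negy]
      rw [h4, sub_neg_eq_add, two_nsmul]
  · have hx' : x - x' ≠ 0 := sub_ne_zero.2 hx
    obtain ⟨l, hl⟩ : ∃ l : Kb, l = (y - y') / (x - x') := ⟨_, rfl⟩
    have hl' : l * (x - x') = y - y' := by rw [hl]; exact div_mul_cancel₀ _ hx'
    obtain ⟨x₃, hx3⟩ : ∃ x₃ : Kb, x₃ = l ^ 2 + (e₁ + e₂ + e₃) - x - x' := ⟨_, rfl⟩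
    obtain ⟨y₃, hy3⟩ : ∃ y₃ : Kb, y₃ = -(y + l * (x₃ - x)) := ⟨_, rfl⟩
    have hadd : ∃ h₃, Point.some x y h + Point.some x' y' h' = Point.some x₃ y₃ h₃ := by
      rw [Point.add_of_X_ne hx]
      have hs : (W.baseChange Kb).toAffine.slope x x' y y' = l := by
        rw [slope_of_X_ne hx, hl]
      have ex : (W.baseChange Kb).toAffine.addX x x' ((W.baseChange Kb).toAffine.slope x x' y y')
          = x₃ := by
        rw [hW.addx, hs, hx3]
      have ey : (W.baseChange Kb).toAffine.addY x x' y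
          ((W.baseChange Kb).toAffine.slope x x' y y') = y₃ := by
        rw [hW.addy, ex, hs, hy3]
      simp only [ex, ey]
      exact ⟨ex ▸ ey ▸ nonsingular_add h h' fun hxy => hx hxy.left, trivial⟩
    obtain ⟨h₃, hadd⟩ := hadd
    have a1 := line_eq hW hx' heq heq' hl' hx3
    have a2 := line_eq hW (a := e₂) (b := e₃) (c := e₁) (x₃ := x₃) hx'
      (by rw [heq]; ring) (by rw [heq']; ring) hl' (by rw [hx3]; ring)
    have a3 := line_eq hW (a := e₃) (b := e₁) (c := e₂) (x₃ := x₃) hx'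
      (by rw [heq]; ring) (by rw [heq']; ring) hl' (by rw [hx3]; ring)
    obtain ⟨a, b, hab, hc, hR⟩ := halve' hW h₃ (sq_div hW n₁ q₁ a1) (sq_div hW n₂ q₂ a2)
      (sq_div hW n₃ q₃ a3)
    refine ⟨Point.some a b hab - Point.some x' y' h', ?_, ?_⟩
    · have h5 : Point.some a b hab + Point.some a b hab =
        Point.some x y h + Point.some x' y' h' := hR.trans hadd.symm
      rw [smul_sub, two_nsmul, h5, two_nsmul]
      abel
    · intro σ f1 f2 f3 g1 g2 g3 hP hP'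
      rw [map_sub, hP']
      congr 1
      obtain ⟨ux, uy⟩ := (act_eq_iff W σ h).1 hP
      obtain ⟨ux', uy'⟩ := (act_eq_iff W σ h').1 hP'
      have ul : σ l = l := by rw [hl, map_div₀, map_sub, map_sub, ux, uy, ux', uy']
      have u3 : σ x₃ = x₃ := by
        rw [hx3, map_sub, map_sub, map_add, map_add, map_add, map_pow, ul, f1, f2, f3, ux, ux']
      rw [act_eq_iff]
      have w1 : σ ((y + l * (e₁ - x)) / s₁) = (y + l * (e₁ - x)) / s₁ := by
        rw [map_div₀, map_add, map_mul, map_sub, ul, f1, g1, ux, uy]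
      have w2 : σ ((y + l * (e₂ - x)) / s₂) = (y + l * (e₂ - x)) / s₂ := by
        rw [map_div₀, map_add, map_mul, map_sub, ul, f2, g2, ux, uy]
      have w3 : σ ((y + l * (e₃ - x)) / s₃) = (y + l * (e₃ - x)) / s₃ := by
        rw [map_div₀, map_add, map_mul, map_sub, ul, f3, g3, ux, uy]
      rcases hc with ⟨ha, hb⟩ | ⟨ha, hb⟩
      · rw [ha, hb]
        constructor
        · rw [map_add, map_add, map_add, map_mul, map_mul, map_mul, w1, w2, w3, u3]
        · rw [map_mul, map_mul, map_add, map_add, map_add, w1, w2, w3]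
      · rw [ha, hb]
        constructor
        · rw [map_sub, map_sub, map_add, map_mul, map_mul, map_mul, w1, w2, w3, u3]
        · rw [map_mul, map_mul, map_add, map_sub, map_sub, w1, w2, w3]

end

end Pool.Agent.EFN
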