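import Mathlib
import Pool.Agent.EFN.B3
import Pool.Agent.EFN.H2
import Pool.Agent.EFN.P0

/-!
# EFN, block B: the points of an elliptic curve modulo doubles
-/

set_option autoImplicit false
set_option linter.unusedSectionVars false

open WeierstrassCurve WeierstrassCurve.Affine TIFL

open scoped Classical

namespace Pool.Agent.EFN

section roots

variable {F : Type} [Field F] [IsAlgClosed F]

theorem exists_rts (W : Affine F) (ha₁ : W.a₁ = 0) (ha₃ : W.a₃ = 0) (h2 : (2 : F) ≠ 0)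
    (hΔ : W.Δ ≠ 0) : ∃ e₁ e₂ e₃ : F, Rts W e₁ e₂ e₃ := by
  obtain ⟨e₁, h1⟩ : ∃ e₁ : F, e₁ ^ 3 + W.a₂ * e₁ ^ 2 + W.a₄ * e₁ + W.a₆ = 0 := by
    obtain ⟨e, he⟩ := IsAlgClosed.exists_root (Polynomial.X ^ 3 + Polynomial.C W.a₂ *
      Polynomial.X ^ 2 + Polynomial.C W.a₄ * Polynomial.X + Polynomial.C W.a₆ : Polynomial F) (by
        have : (Polynomial.X ^ 3 + Polynomial.C W.a₂ *
          Polynomial.X ^ 2 + Polynomial.C W.a₄ * Polynomial.X + Polynomial.C W.a₆ :
            Polynomial F).degree = 3 := by compute_degree!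
        rw [this]
        decide)
    refine ⟨e, ?_⟩
    have h := he
    simp only [Polynomial.IsRoot.def, Polynomial.eval_add, Polynomial.eval_mul,
      Polynomial.eval_pow, Polynomial.eval_X, Polynomial.eval_C] at h
    exact h
  obtain ⟨b, hb⟩ : ∃ b, b = W.a₂ + e₁ := ⟨_, rfl⟩
  obtain ⟨c, hc⟩ : ∃ c, c = W.a₄ + e₁ * b := ⟨_, rfl⟩
  obtain ⟨e₂, h3⟩ : ∃ e₂ : F, e₂ ^ 2 + b * e₂ + c = 0 := by
    obtain ⟨e, he⟩ := IsAlgClosed.exists_root (Polynomial.X ^ 2 + Polynomial.C b *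
      Polynomial.X + Polynomial.C c : Polynomial F) (by
        have : (Polynomial.X ^ 2 + Polynomial.C b *
          Polynomial.X + Polynomial.C c : Polynomial F).degree = 2 := by compute_degree!
        rw [this]
        decide)
    refine ⟨e, ?_⟩
    have h := he
    simp only [Polynomial.IsRoot.def, Polynomial.eval_add, Polynomial.eval_mul,
      Polynomial.eval_pow, Polynomial.eval_X, Polynomial.eval_C] at h
    exact h
  obtain ⟨e₃, he₃⟩ : ∃ e₃ : F, e₃ = -b - e₂ := ⟨_, rfl⟩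
  have a2 : W.a₂ = -(e₁ + e₂ + e₃) := by rw [he₃, hb]; ring
  have a4 : W.a₄ = e₁ * e₂ + e₁ * e₃ + e₂ * e₃ := by
    rw [he₃]
    linear_combination -hc + h3
  have a6 : W.a₆ = -(e₁ * e₂ * e₃) := by
    rw [he₃]
    linear_combination h1 - e₁ * h3 + e₁ * hc + e₁ ^ 2 * hb
  have hD : W.Δ = 16 * ((e₁ - e₂) * (e₁ - e₃) * (e₂ - e₃)) ^ 2 := by
    rw [WeierstrassCurve.Δ, WeierstrassCurve.b₂, WeierstrassCurve.b₄, WeierstrassCurve.b₆,
      WeierstrassCurve.b₈, ha₁, ha₃, a2, a4, a6]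
    ring
  refine ⟨e₁, e₂, e₃, ha₁, ha₃, a2, a4, a6, h2, ?_, ?_, ?_⟩
  · rintro rfl
    exact hΔ (by rw [hD]; ring)
  · rintro rfl
    exact hΔ (by rw [hD]; ring)
  · rintro rfl
    exact hΔ (by rw [hD]; ring)

end roots

section points

universe u

variable {K Kb : Type u} [Field K] [Field Kb] [Algebra K Kb] (W : WeierstrassCurve K)

theorem act_mul' (σ τ : Kb ≃ₐ[K] Kb) (P : EFF.Pts W Kb) :
    EFF.act W (σ * τ) P = EFF.act W σ (EFF.act W τ P) := by
  cases P with
  | zero =>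
    show EFF.act W (σ * τ) 0 = EFF.act W σ (EFF.act W τ 0)
    rw [map_zero, map_zero, map_zero]
  | some x y h => rfl

/-- the `x`-coordinate -/
def xo : EFF.Pts W Kb → Option Kb
  | Point.zero => none
  | Point.some x _ _ => some x

variable {W}

theorem y_zero {e₁ e₂ e₃ : Kb} (hW : Rts (W.baseChange Kb).toAffine e₁ e₂ e₃) {x y : Kb}
    {h : (W.baseChange Kb).toAffine.Nonsingular x y}
    (h2 : 2 • (Point.some x y h : EFF.Pts W Kb) = 0) : y = 0 := by
  rw [two_nsmul, add_eq_zero_iff_eq_neg, Point.neg_some] at h2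
  have h3 := (Point.some.injEq _ _ _ _ _ _).mp h2
  have h4 := h3.2
  rw [hW.negy] at h4
  have h5 : 2 * y = 0 := by linear_combination h4
  exact (mul_eq_zero.1 h5).resolve_left hW.two

theorem x_root {e₁ e₂ e₃ : Kb} (hW : Rts (W.baseChange Kb).toAffine e₁ e₂ e₃) {x : Kb}
    (h : (W.baseChange Kb).toAffine.Nonsingular x 0) : x = e₁ ∨ x = e₂ ∨ x = e₃ := by
  have h1 := (hW.eqn x 0).1 h.1
  have h2 : (x - e₁) * (x - e₂) * (x - e₃) = 0 := by rw [← h1]; ring
  rcases mul_eq_zero.1 h2 with h3 | h3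
  · rcases mul_eq_zero.1 h3 with h4 | h4
    · exact Or.inl (sub_eq_zero.1 h4)
    · exact Or.inr (Or.inl (sub_eq_zero.1 h4))
  · exact Or.inr (Or.inr (sub_eq_zero.1 h3))

theorem two_fin {e₁ e₂ e₃ : Kb} (hW : Rts (W.baseChange Kb).toAffine e₁ e₂ e₃) :
    {P : EFF.Pts W Kb | 2 • P = 0}.Finite := by
  refine Set.Finite.of_injOn (f := xo W)
    (t := {none, some e₁, some e₂, some e₃}) ?_ ?_ (by simp)
  · intro P hP
    cases P with
    | zero => simp [xo]
    | some x y h =>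
      have hy := y_zero hW (h := h) hP
      subst hy
      rcases x_root hW h with h | h | h <;> simp [xo, h]
  · intro P hP P' hP' he
    cases P with
    | zero =>
      cases P' with
      | zero => rfl
      | some x y h => simp [xo] at he
    | some x y h =>
      cases P' with
      | zero => simp [xo] at he
      | some x' y' h' =>
        have hy := y_zero hW (h := h) hP
        have hy' := y_zero hW (h := h') hP'
        subst hy hy'
        have hx : x = x' := by simpa [xo] using he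
        subst hx
        rfl

theorem tr_mem {e₁ e₂ e₃ : Kb} (hW : Rts (W.baseChange Kb).toAffine e₁ e₂ e₃) (σ : Kb ≃ₐ[K] Kb)
    {e : Kb} (he : e = e₁ ∨ e = e₂ ∨ e = e₃) : σ e = e₁ ∨ σ e = e₂ ∨ σ e = e₃ := by
  have f2 : σ (W.baseChange Kb).a₂ = (W.baseChange Kb).a₂ := σ.commutes _
  have f4 : σ (W.baseChange Kb).a₄ = (W.baseChange Kb).a₄ := σ.commutes _
  have f6 : σ (W.baseChange Kb).a₆ = (W.baseChange Kb).a₆ := σ.commutes _
  have h0 : (e - e₁) * (e - e₂) * (e - e₃) = 0 := by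
    rcases he with rfl | rfl | rfl <;> ring
  have h1 : e ^ 3 + (W.baseChange Kb).a₂ * e ^ 2 + (W.baseChange Kb).a₄ * e +
      (W.baseChange Kb).a₆ = 0 := by
    rw [hW.a2, hW.a4, hW.a6, ← h0]; ring
  have h2 := congrArg σ h1
  rw [map_add, map_add, map_add, map_mul, map_mul, map_pow, map_pow, f2, f4, f6, _root_.map_zero,
    hW.a2, hW.a4, hW.a6] at h2
  have h3 : (σ e - e₁) * (σ e - e₂) * (σ e - e₃) = 0 := by rw [← h2]; ring
  rcases mul_eq_zero.1 h3 with h4 | h4
  · rcases mul_eq_zero.1 h4 with h5 | h5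
    · exact Or.inl (sub_eq_zero.1 h5)
    · exact Or.inr (Or.inl (sub_eq_zero.1 h5))
  · exact Or.inr (Or.inr (sub_eq_zero.1 h4))

end points

end Pool.Agent.EFN
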