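import Mathlib
import Pool.Agent.EFN.B4

/-!
# EFN, block B: the geometric points modulo doubles are finite in number
-/

set_option autoImplicit false
set_option linter.unusedSectionVars false

open WeierstrassCurve WeierstrassCurve.Affine TIFL

open scoped Classical

namespace Pool.Agent.EFN

section

variable {k : Type} [Field k] [Finite k]

/-- the label of an element -/
noncomputable def lb {M Λ : Type} [Field M] (lab : Mˣ → Λ) (u : M) : Λ :=
  if h : u ≠ 0 then lab (Units.mk0 u h) else lab 1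

theorem lb_eq {M Λ : Type} [Field M] (lab : Mˣ → Λ) {u : M} (h : u ≠ 0) :
    lb lab u = lab (Units.mk0 u h) := dif_pos h

variable {W : WeierstrassCurve (RatFunc k)}

/-- the label of a point -/
noncomputable def lp {Λ : Type} (lab : (Kb k)ˣ → Λ) (e₁ e₂ e₃ : Kb k) :
    EFF.Pts W (Kb k) → Option (Kb k) ⊕ (Λ × Λ × Λ)
  | Point.zero => Sum.inl none
  | Point.some x y _ => if y = 0 then Sum.inl (some x) else
      Sum.inr (lb lab (x - e₁), lb lab (x - e₂), lb lab (x - e₃))

theorem fin_quot_set (h2 : (2 : k) ≠ 0) (W : WeierstrassCurve (RatFunc k)) (ha₁ : W.a₁ = 0)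
    (ha₃ : W.a₃ = 0) (hΔ : W.Δ ≠ 0) :
    ∃ R : Set (EFF.Pts W (Kb k)), R.Finite ∧
      (∀ r ∈ R, ∀ s ∈ T1B.geo k (RatFunc k) (Kb k), EFF.act W s r = r) ∧
      ∀ P : EFF.Pts W (Kb k), (∀ s ∈ T1B.geo k (RatFunc k) (Kb k), EFF.act W s P = P) →
        ∃ r ∈ R, ∃ Q, (∀ s ∈ T1B.geo k (RatFunc k) (Kb k), EFF.act W s Q = Q) ∧
          P = r + 2 • Q := by
  -- the characteristic
  obtain ⟨p, hpk⟩ := CharP.exists k
  have hpp : p.Prime := by
    rcases CharP.char_is_prime_or_zero k p with h | h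
    · exact h
    · exfalso
      rw [h] at hpk
      have : CharZero k := CharP.charP_to_charZero k
      exact not_finite k
  have hpM : CharP (Kb k) p := charP_of_injective_algebraMap (algebraMap k (Kb k)).injective p
  have hexp : ExpChar (Kb k) p := ExpChar.prime hpp
  have hodd : Odd p := by
    refine hpp.odd_of_ne_two ?_
    rintro rfl
    exact h2 (by exact_mod_cast CharP.cast_eq_zero k 2)
  have h2b : (2 : Kb k) ≠ 0 := by
    rw [← map_ofNat (algebraMap k (Kb k))]
    exact (_root_.map_ne_zero _).2 h2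
  -- the roots
  obtain ⟨e₁, e₂, e₃, hW⟩ := exists_rts (W.baseChange (Kb k)).toAffine
    (by
      show algebraMap _ _ W.a₁ = 0
      rw [ha₁, map_zero])
    (by
      show algebraMap _ _ W.a₃ = 0
      rw [ha₃, map_zero]) h2b
    (by
      show (W.map (algebraMap (RatFunc k) (Kb k))).Δ ≠ 0
      rw [WeierstrassCurve.map_Δ]
      exact (_root_.map_ne_zero _).2 hΔ)
  let G : Set (Kb k) := {e₁, e₂, e₃}
  have hG : G.Finite := by simp [G]
  obtain ⟨R, _, _, ev, hinj, hcl, hun, hFr⟩ := exists_ev (k := k) (Ω := Kb k) h2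
    (z := zz k) (fun h => zz_trans (h.tower_top _)) hG
    (fun g _ => alg_z {zz k} rfl g)
  obtain ⟨L, hL⟩ : ∃ L : IntermediateField (Ck k) (Kb k),
    L = IntermediateField.adjoin (Ck k) (G ∪ {zz k}) := ⟨_, rfl⟩
  rw [← hL] at hFr
  have hLe : ∀ e ∈ G, e ∈ L := fun e he => by
    rw [hL]
    exact IntermediateField.subset_adjoin _ _ (Or.inl he)
  -- the bad places
  obtain ⟨D, hD⟩ : ∃ D : Kb k → Kb k → XX R →₀ ℤ, ∀ a b (h : a - b ≠ 0),
      D a b = dv ev (Units.mk0 (a - b) h) :=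
    ⟨fun a b => if h : a - b ≠ 0 then dv ev (Units.mk0 (a - b) h) else 0,
      fun a b h => dif_pos h⟩
  obtain ⟨S, hSeq⟩ : ∃ S : Set (XX R), S = ⋃ a ∈ G, ⋃ b ∈ G, ((D a b).support : Set (XX R)) :=
    ⟨_, rfl⟩
  have hS : S.Finite := by
    rw [hSeq]
    exact hG.biUnion fun a _ => hG.biUnion fun b _ => (D a b).support.finite_toSet
  have hSD : ∀ a ∈ G, ∀ b ∈ G, ∀ (h : a - b ≠ 0), ∀ v ∉ S, dv ev (Units.mk0 (a - b) h) v = 0 := by
    intro a ha b hb h v hv
    by_contra h0
    apply hv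
    rw [hSeq]
    refine Set.mem_iUnion₂.2 ⟨a, ha, Set.mem_iUnion₂.2 ⟨b, hb, ?_⟩⟩
    rw [Finset.mem_coe, Finsupp.mem_support_iff, hD a b h]
    exact h0
  obtain ⟨Λ, lab, hfin, hlab⟩ := labels_p (p := p) hinj hodd hS hcl hun
  -- the elements which are fixed
  have hfrp : ∀ u : (Kb k)ˣ, (∀ σ ∈ T1B.geo k (RatFunc k) (Kb k), (∀ e ∈ G, σ e = e) →
      σ u = u) → Frp ev p u := by
    intro u hu
    obtain ⟨r, hr⟩ := fixed_mem p G u hu
    refine ⟨r, (hFr _).1 ?_⟩
    rw [hL, Units.val_pow_eq_pow_val, Set.union_singleton]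
    exact hr
  have hgood : ∀ (a b c : Kb k), Rts (W.baseChange (Kb k)).toAffine a b c → a ∈ G → b ∈ G →
      c ∈ G → ∀ {x y : Kb k} (h : (W.baseChange (Kb k)).toAffine.Nonsingular x y),
        (∀ s ∈ T1B.geo k (RatFunc k) (Kb k),
          EFF.act W s (Point.some x y h) = Point.some x y h) → y ≠ 0 →
            ∃ hx : x - a ≠ 0, Goodp ev S p (Units.mk0 (x - a) hx) := by
    intro a b c hR ha hb hc x y h hfix hy
    have heq := (hR.eqn x y).1 h.1
    have hne : (x - a) * (x - b) * (x - c) ≠ 0 := by rw [← heq]; exact pow_ne_zero 2 hy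
    have hxc : x - c ≠ 0 := right_ne_zero_of_mul hne
    have hxa : x - a ≠ 0 := left_ne_zero_of_mul (left_ne_zero_of_mul hne)
    have hxb : x - b ≠ 0 := right_ne_zero_of_mul (left_ne_zero_of_mul hne)
    have hab : a - b ≠ 0 := sub_ne_zero.2 hR.n12
    have hac : a - c ≠ 0 := sub_ne_zero.2 hR.n13
    have hσ : ∀ σ ∈ T1B.geo k (RatFunc k) (Kb k), σ x = x ∧ σ y = y :=
      fun σ hσ => (act_eq_iff W σ h).1 (hfix σ hσ)
    refine ⟨hxa, goodp hinj (u₂ := Units.mk0 (x - b) hxb) (u₃ := Units.mk0 (x - c) hxc)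
      (y := Units.mk0 y hy) (d₂ := Units.mk0 (a - b) hab) (d₃ := Units.mk0 (a - c) hac)
      ?_ ?_ ?_ ?_ ?_ ?_ ?_ ?_ ?_⟩
    · refine hfrp _ (fun σ hσ' he => ?_)
      show σ (x - a) = x - a
      rw [map_sub, (hσ σ hσ').1, he a ha]
    · exact hfrp _ (fun σ hσ' _ => (hσ σ hσ').2)
    · exact (hFr _).1 (sub_mem (hLe a ha) (hLe b hb))
    · exact (hFr _).1 (sub_mem (hLe a ha) (hLe c hc))
    · show x - b = x - a + (a - b)
      ring
    · show x - c = x - a + (a - c)
      ring
    · apply Units.ext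
      exact heq.symm
    · exact hSD a ha b hb hab
    · exact hSD a ha c hc hac
  have m₁ : e₁ ∈ G := by simp [G]
  have m₂ : e₂ ∈ G := by simp [G]
  have m₃ : e₃ ∈ G := by simp [G]
  have good3 : ∀ {x y : Kb k} (h : (W.baseChange (Kb k)).toAffine.Nonsingular x y),
      (∀ s ∈ T1B.geo k (RatFunc k) (Kb k),
        EFF.act W s (Point.some x y h) = Point.some x y h) → y ≠ 0 →
          (∃ hx : x - e₁ ≠ 0, Goodp ev S p (Units.mk0 (x - e₁) hx)) ∧
          (∃ hx : x - e₂ ≠ 0, Goodp ev S p (Units.mk0 (x - e₂) hx)) ∧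
          (∃ hx : x - e₃ ≠ 0, Goodp ev S p (Units.mk0 (x - e₃) hx)) :=
    fun h hf hy => ⟨hgood e₁ e₂ e₃ hW m₁ m₂ m₃ h hf hy, hgood e₂ e₃ e₁ hW.rot m₂ m₃ m₁ h hf hy,
      hgood e₃ e₁ e₂ hW.rot.rot m₃ m₁ m₂ h hf hy⟩
  have hGtr : ∀ (σ : Kb k ≃ₐ[RatFunc k] Kb k), ∀ e ∈ G, σ e ∈ G := by
    intro σ e he
    exact tr_mem hW σ he
  refine fin_reps (fun σ => EFF.act W σ) (act_mul' W) (T1B.geo k (RatFunc k) (Kb k))
    {σ | σ ∈ T1B.geo k (RatFunc k) (Kb k) ∧ ∀ e ∈ G, σ e = e}
    (fun σ => (σ e₁, σ e₂, σ e₃)) ?_ ?_ (two_fin hW) (lp lab e₁ e₂ e₃) ?_ ?_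
  · refine (hG.prod (hG.prod hG)).subset ?_
    rintro _ ⟨σ, -, rfl⟩
    exact ⟨hGtr σ _ m₁, hGtr σ _ m₂, hGtr σ _ m₃⟩
  · intro g hg h hh hgh
    refine ⟨mul_mem (inv_mem hg) hh, fun e he => ?_⟩
    have hge : g e = h e := by
      have h1 : g e₁ = h e₁ := congrArg Prod.fst hgh
      have h2 : g e₂ = h e₂ := congrArg (fun t => t.2.1) hgh
      have h3 : g e₃ = h e₃ := congrArg (fun t => t.2.2) hgh
      rcases he with rfl | rfl | rfl
      · exact h1
      · exact h2
      · exact h3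
    show g.symm (h e) = e
    rw [← hge, g.symm_apply_apply]
  · refine (((hG.image (fun x => (some x : Option (Kb k)))).insert none).image Sum.inl |>.union
      ((hfin.prod (hfin.prod hfin)).image Sum.inr)).subset ?_
    rintro _ ⟨P, hP, rfl⟩
    cases P with
    | zero => exact Or.inl ⟨none, Or.inl rfl, rfl⟩
    | some x y h =>
      by_cases hy : y = 0
      · left
        subst hy
        refine ⟨some x, Or.inr ⟨x, x_root hW h, rfl⟩, ?_⟩
        show _ = if (0 : Kb k) = 0 then _ else _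
        rw [if_pos rfl]
      · right
        obtain ⟨⟨a1, g1⟩, ⟨a2, g2⟩, ⟨a3, g3⟩⟩ := good3 h hP hy
        refine ⟨(lb lab (x - e₁), lb lab (x - e₂), lb lab (x - e₃)), ⟨?_, ?_, ?_⟩, ?_⟩
        · exact ⟨_, g1, (lb_eq lab a1).symm⟩
        · exact ⟨_, g2, (lb_eq lab a2).symm⟩
        · exact ⟨_, g3, (lb_eq lab a3).symm⟩
        · show _ = if y = 0 then _ else _
          rw [if_neg hy]
  · intro P P' hP hP' hl
    cases P with
    | zero =>
      cases P' with
      | zero =>
        refine ⟨0, ?_, fun g _ => map_zero _⟩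
        rw [smul_zero]
        exact sub_self _
      | some x y h =>
        exfalso
        have hl' : (Sum.inl none : Option (Kb k) ⊕ (Λ × Λ × Λ)) = if y = 0 then Sum.inl (some x)
          else Sum.inr (lb lab (x - e₁), lb lab (x - e₂), lb lab (x - e₃)) := hl
        split_ifs at hl'
        simp at hl'
    | some x y h =>
      cases P' with
      | zero =>
        exfalso
        have hl' : (if y = 0 then Sum.inl (some x)
          else Sum.inr (lb lab (x - e₁), lb lab (x - e₂), lb lab (x - e₃)) :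
            Option (Kb k) ⊕ (Λ × Λ × Λ)) = Sum.inl none := hl
        split_ifs at hl'
        simp at hl'
      | some x' y' h' =>
        have hl' : (if y = 0 then Sum.inl (some x)
          else Sum.inr (lb lab (x - e₁), lb lab (x - e₂), lb lab (x - e₃)) :
            Option (Kb k) ⊕ (Λ × Λ × Λ)) = if y' = 0 then Sum.inl (some x')
          else Sum.inr (lb lab (x' - e₁), lb lab (x' - e₂), lb lab (x' - e₃)) := hl
        by_cases hy : y = 0
        · by_cases hy' : y' = 0
          · rw [if_pos hy, if_pos hy'] at hl'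
            have hx : x = x' := by simpa using hl'
            subst hx hy hy'
            refine ⟨0, ?_, fun g _ => map_zero _⟩
            rw [smul_zero]
            exact sub_self _
          · rw [if_pos hy, if_neg hy'] at hl'
            simp at hl'
        · by_cases hy' : y' = 0
          · rw [if_neg hy, if_pos hy'] at hl'
            simp at hl'
          · rw [if_neg hy, if_neg hy'] at hl'
            have hl2 := Sum.inr.inj hl'
            obtain ⟨⟨a1, g1⟩, ⟨a2, g2⟩, ⟨a3, g3⟩⟩ := good3 h hP hy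
            obtain ⟨⟨a1', g1'⟩, ⟨a2', g2'⟩, ⟨a3', g3'⟩⟩ := good3 h' hP' hy'
            have l1 : lb lab (x - e₁) = lb lab (x' - e₁) := congrArg Prod.fst hl2
            have l2 : lb lab (x - e₂) = lb lab (x' - e₂) := congrArg (fun t => t.2.1) hl2
            have l3 : lb lab (x - e₃) = lb lab (x' - e₃) := congrArg (fun t => t.2.2) hl2
            rw [lb_eq lab a1, lb_eq lab a1'] at l1
            rw [lb_eq lab a2, lb_eq lab a2'] at l2
            rw [lb_eq lab a3, lb_eq lab a3'] at l3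
            obtain ⟨s₁, f₁, q₁⟩ := hlab _ _ g1 g1' l1
            obtain ⟨s₂, f₂, q₂⟩ := hlab _ _ g2 g2' l2
            obtain ⟨s₃, f₃, q₃⟩ := hlab _ _ g3 g3' l3
            have hs : ∀ s : (Kb k)ˣ, Frp ev p s → ∀ σ ∈ T1B.geo k (RatFunc k) (Kb k),
                (∀ e ∈ G, σ e = e) → σ s = s := by
              rintro s ⟨n, hn⟩ σ hσ hσe
              have h3 := (hFr _).2 hn
              have h5 : ∀ t ∈ L, σ t = t := by
                intro t ht
                rw [hL] at ht
                induction ht using IntermediateField.adjoin_induction with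
                | mem x hx =>
                  rcases hx with hx | hx
                  · exact hσe x hx
                  · rw [Set.mem_singleton_iff.1 hx]
                    exact σ.commutes _
                | algebraMap x => exact hσ _ (mem_Ck.1 x.2)
                | add x y _ _ hx hy => rw [map_add, hx, hy]
                | inv x _ hx => rw [map_inv₀, hx]
                | mul x y _ _ hx hy => rw [map_mul, hx, hy]
              have h4 := h5 _ h3
              rw [Units.val_pow_eq_pow_val, map_pow] at h4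
              exact iterateFrobenius_inj (Kb k) p n h4
            obtain ⟨Q, hQ, hQσ⟩ := sub_double W hW h h' s₁.ne_zero s₂.ne_zero s₃.ne_zero
              (congrArg (fun t : (Kb k)ˣ => (t : Kb k)) q₁)
              (congrArg (fun t : (Kb k)ˣ => (t : Kb k)) q₂)
              (congrArg (fun t : (Kb k)ˣ => (t : Kb k)) q₃)
            refine ⟨Q, hQ, ?_⟩
            rintro σ ⟨hσ, hσe⟩
            exact hQσ σ (hσe _ m₁) (hσe _ m₂) (hσe _ m₃) (hs s₁ f₁ σ hσ hσe) (hs s₂ f₂ σ hσ hσe)
              (hs s₃ f₃ σ hσ hσe) (hP σ hσ) (hP' σ hσ)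

/-- **The points over `C(z)` modulo doubles.** -/
theorem fin_quot (h2 : (2 : k) ≠ 0) (W : WeierstrassCurve (RatFunc k)) (ha₁ : W.a₁ = 0)
    (ha₃ : W.a₃ = 0) (hΔ : W.Δ ≠ 0) :
    ∃ R : Finset (EFF.Pts W (AlgebraicClosure (RatFunc k))),
      (∀ r ∈ R, ∀ s ∈ T1B.geo k (RatFunc k) (AlgebraicClosure (RatFunc k)), EFF.act W s r = r) ∧
      ∀ P : EFF.Pts W (AlgebraicClosure (RatFunc k)),
        (∀ s ∈ T1B.geo k (RatFunc k) (AlgebraicClosure (RatFunc k)), EFF.act W s P = P) →
          ∃ r ∈ R, ∃ Q, (∀ s ∈ T1B.geo k (RatFunc k) (AlgebraicClosure (RatFunc k)),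
            EFF.act W s Q = Q) ∧ P = r + 2 • Q := by
  obtain ⟨R, hR, h3, h4⟩ := fin_quot_set h2 W ha₁ ha₃ hΔ
  refine ⟨hR.toFinset, fun r hr => h3 r (hR.mem_toFinset.1 hr), fun P hP => ?_⟩
  obtain ⟨r, hr, Q, hQ⟩ := h4 P hP
  exact ⟨r, hR.mem_toFinset.2 hr, Q, hQ⟩

end

end Pool.Agent.EFN
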