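import Pool.Agent.EFN.F1
import Pool.Agent.TBM.Val

/-!
# Unramified places
-/

set_option autoImplicit false
set_option linter.unusedSectionVars false

namespace Pool.Agent.EFN

open WeierstrassCurve WeierstrassCurve.Affine EFF

open scoped Classical

section

variable {k : Type} [Field k] (V : ValuationSubring (Kb k))

theorem Ck_A1 (t : Kb k) (ht : t ∉ Ck k) (x : Kb k) : IsAlgebraic (TBR.AA (Ck k) {t}) x := by
  rw [TBR.sit_az_adj]
  exact alg_w (fun h => ht (mem_Ck.2 (alg_k h))) x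

variable {V} (hk : ∀ x : k, algebraMap k (Kb k) x ∈ V)

include hk

theorem Ck_le {a : Kb k} (ha : a ∈ Ck k) : a ∈ V := by
  refine TBR.V.mem_of_isAlgebraic (k := k) V ⊥ ?_ a ?_
  · rintro _ ⟨c, rfl⟩
    exact hk c
  · exact (mem_Ck.1 ha).tower_top _

theorem val_Ck {a : Kb k} (ha : a ∈ Ck k) (ha0 : a ≠ 0) : V.valuation a = 1 := by
  have h1 := (V.valuation_le_one_iff a).2 (Ck_le hk ha)
  have h2 := (V.valuation_le_one_iff a⁻¹).2 (Ck_le hk (inv_mem ha))
  refine le_antisymm h1 ?_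
  rw [map_inv₀] at h2
  have h3 : 0 < V.valuation a := zero_lt_iff.2 ((V.valuation.ne_zero_iff).2 ha0)
  exact (inv_le_one₀ h3).1 h2

omit hk in
theorem val_lt (z : Kb k) : V.valuation z < 1 ↔ z = 0 ∨ z⁻¹ ∉ V := by
  by_cases hz : z = 0
  · subst hz
    simp
  · have h3 : 0 < V.valuation z := zero_lt_iff.2 ((V.valuation.ne_zero_iff).2 hz)
    rw [← V.valuation_le_one_iff, map_inv₀, inv_le_one₀ h3, not_le]
    simp [hz]

omit hk in
theorem stab_lt {σ : Kb k ≃ₐ[RatFunc k] Kb k} (hσ : σ ∈ T1B.stab V) {z : Kb k}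
    (hz : V.valuation z < 1) : V.valuation (σ z) < 1 := by
  rw [val_lt] at hz ⊢
  rcases hz with hz | hz
  · left; rw [hz, map_zero]
  · right
    rw [← map_inv₀]
    exact fun h => hz ((hσ _).1 h)

/-- **No ramification.** -/
theorem fix_w (hV : V ≠ ⊤) (h2 : (2 : Kb k) ≠ 0) {u d₂ d₃ y w : Kb k} (hw : w ^ 2 = u)
    (he : u * (u + d₂) * (u + d₃) = y ^ 2) (v2 : V.valuation d₂ = 1) (v3 : V.valuation d₃ = 1)
    {σ : Kb k ≃ₐ[RatFunc k] Kb k} (hσ : σ ∈ T1B.stab V) (hg : σ ∈ T1B.geo k (RatFunc k) (Kb k))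
    (hu : σ u = u) (hy : σ y = y) : σ w = w := by
  by_cases hu0 : u = 0
  · have hw0 : w = 0 := by
      rw [hu0] at hw
      exact pow_eq_zero_iff (two_ne_zero) |>.1 hw
    rw [hw0, map_zero]
  have hw0 : w ≠ 0 := by
    rintro rfl
    apply hu0
    rw [← hw]
    ring
  have hpm : (σ w - w) * (σ w + w) = 0 := by
    have h1 : σ w ^ 2 = w ^ 2 := by rw [← map_pow, hw, hu]
    linear_combination h1
  rcases mul_eq_zero.1 hpm with h | h
  · exact sub_eq_zero.1 h
  exfalso
  have hneg : σ w = -w := by linear_combination h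
  have vu0 : V.valuation u ≠ 0 := (V.valuation.ne_zero_iff).2 hu0
  -- an element with the same value
  obtain ⟨a, ha0, haσ, hav⟩ : ∃ a : Kb k, a ≠ 0 ∧ σ a = a ∧ V.valuation a ^ 2 = V.valuation u := by
    rcases lt_trichotomy (V.valuation u) 1 with hlt | heq | hgt
    · have e2 : V.valuation (u + d₂) = 1 := by
        rw [V.valuation.map_add_eq_of_lt_right (by rw [v2]; exact hlt), v2]
      have e3 : V.valuation (u + d₃) = 1 := by
        rw [V.valuation.map_add_eq_of_lt_right (by rw [v3]; exact hlt), v3]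
      have e4 : V.valuation y ^ 2 = V.valuation u := by
        rw [← map_pow, ← he, map_mul, map_mul, e2, e3, mul_one, mul_one]
      refine ⟨y, ?_, hy, e4⟩
      rintro rfl
      rw [map_zero, zero_pow two_ne_zero] at e4
      exact vu0 e4.symm
    · exact ⟨1, one_ne_zero, map_one _, by rw [map_one, one_pow, heq]⟩
    · have e2 : V.valuation (u + d₂) = V.valuation u :=
        V.valuation.map_add_eq_of_lt_left (by rw [v2]; exact hgt)
      have e3 : V.valuation (u + d₃) = V.valuation u :=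
        V.valuation.map_add_eq_of_lt_left (by rw [v3]; exact hgt)
      have e4 : V.valuation y ^ 2 = V.valuation u * V.valuation u * V.valuation u := by
        rw [← map_pow, ← he, map_mul, map_mul, e2, e3]
      have hy0 : y ≠ 0 := by
        rintro rfl
        rw [map_zero, zero_pow two_ne_zero] at e4
        exact mul_ne_zero (mul_ne_zero vu0 vu0) vu0 e4.symm
      refine ⟨y / u, div_ne_zero hy0 hu0, by rw [map_div₀, hy, hu], ?_⟩
      rw [map_div₀, div_pow, e4, pow_two, div_eq_iff (mul_ne_zero vu0 vu0), mul_assoc]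
  have hvw : V.valuation a = V.valuation w := by
    have h1 : V.valuation a ^ 2 = V.valuation w ^ 2 := by rw [hav, ← hw, map_pow]
    exact (pow_left_inj₀ zero_le zero_le two_ne_zero).1 h1
  have va0 : V.valuation a ≠ 0 := (V.valuation.ne_zero_iff).2 ha0
  obtain ⟨t, ht⟩ : ∃ t, t = w / a := ⟨_, rfl⟩
  have vt : V.valuation t = 1 := by rw [ht, map_div₀, hvw, div_self (hvw ▸ va0)]
  have htσ : σ t = -t := by rw [ht, map_div₀, hneg, haσ, neg_div]
  haveI : IsAlgClosed (Ck k) := Ck_closed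
  obtain ⟨α, hα, hres⟩ := TBR.residue (k := k) (Ck k) Ck_A1 V (fun x hx => Ck_le hk hx) hV t
    ((V.valuation_le_one_iff t).1 vt.le)
  rw [ValuationSubring.mem_nonunits_iff] at hres
  have hα0 : α ≠ 0 := by
    rintro rfl
    rw [sub_zero, vt] at hres
    exact lt_irrefl _ hres
  have h3 := stab_lt hσ hres
  have hσα : σ α = α := hg α (mem_Ck.1 hα)
  rw [map_sub, htσ, hσα] at h3
  have h4 : V.valuation (2 * α) < 1 := by
    have e : 2 * α = -((t - α) + (-t - α)) := by ring
    rw [e, Valuation.map_neg]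
    exact (V.valuation.map_add _ _).trans_lt (max_lt hres h3)
  have h2C : (2 : Kb k) ∈ Ck k := by exact_mod_cast natCast_mem (Ck k) 2
  rw [map_mul, val_Ck hk h2C h2, val_Ck hk hα hα0, mul_one] at h4
  exact lt_irrefl _ h4

variable {W : WeierstrassCurve (RatFunc k)}

/-- the crossed homomorphism vanishes on the decomposition groups of the good places -/
theorem unr {e₁ e₂ e₃ : Kb k} (hW : Rts (W.baseChange (Kb k)).toAffine e₁ e₂ e₃) (hV : V ≠ ⊤)
    (v12 : V.valuation (e₁ - e₂) = 1) (v13 : V.valuation (e₁ - e₃) = 1)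
    (v23 : V.valuation (e₂ - e₃) = 1)
    {c : (Kb k ≃ₐ[RatFunc k] Kb k) → Pts W (Kb k)} (hc : Principal W (T1B.stab V) c)
    (h2 : ∀ g, 2 • c g = 0) {s : Kb k ≃ₐ[RatFunc k] Kb k} (hs : s ∈ T1B.stab V)
    (hg : s ∈ T1B.geo k (RatFunc k) (Kb k)) (f₁ : s e₁ = e₁) (f₂ : s e₂ = e₂) (f₃ : s e₃ = e₃) :
    c s = 0 := by
  obtain ⟨R, hR⟩ := hc
  rw [hR s hs, sub_eq_zero]
  cases R with
  | zero => rfl
  | some x y h =>
    rw [act_eq_iff]
    have heq := (hW.eqn x y).1 h.1
    by_cases hy : y = 0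
    · refine ⟨?_, by rw [hy, map_zero]⟩
      rw [hy, zero_pow two_ne_zero] at heq
      rcases mul_eq_zero.1 heq.symm with h3 | h3
      · rcases mul_eq_zero.1 h3 with h3 | h3
        · rw [sub_eq_zero.1 h3, f₁]
        · rw [sub_eq_zero.1 h3, f₂]
      · rw [sub_eq_zero.1 h3, f₃]
    · obtain ⟨X, Y, H, hXY⟩ : ∃ X Y H, Point.some x y h + Point.some x y h = Point.some X Y H := by
        rw [Point.add_self_of_Y_ne (hW.ne_negy hy x)]
        exact ⟨_, _, _, rfl⟩
      have hfix : EFF.act W s (Point.some X Y H) = Point.some X Y H := by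
        have h3 := h2 s
        rw [hR s hs, smul_sub, sub_eq_zero, ← map_nsmul, two_nsmul, hXY] at h3
        exact h3
      obtain ⟨uX, uY⟩ := (act_eq_iff W s H).1 hfix
      have hEQ := (hW.eqn X Y).1 H.1
      obtain ⟨w₁, w₂, w₃, q1, q2, q3, hx, hy'⟩ := half2 hW hy h H hXY
      have v21 : V.valuation (e₂ - e₁) = 1 := by rw [Valuation.map_sub_swap]; exact v12
      have v31 : V.valuation (e₃ - e₁) = 1 := by rw [Valuation.map_sub_swap]; exact v13
      have v32 : V.valuation (e₃ - e₂) = 1 := by rw [Valuation.map_sub_swap]; exact v23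
      have w1 : s w₁ = w₁ := fix_w hk hV hW.two q1 (d₂ := e₁ - e₂) (d₃ := e₁ - e₃) (y := Y)
        (by rw [hEQ]; ring) v12 v13 hs hg (by rw [map_sub, uX, f₁]) uY
      have w2 : s w₂ = w₂ := fix_w hk hV hW.two q2 (d₂ := e₂ - e₁) (d₃ := e₂ - e₃) (y := Y)
        (by rw [hEQ]; ring) v21 v23 hs hg (by rw [map_sub, uX, f₂]) uY
      have w3 : s w₃ = w₃ := fix_w hk hV hW.two q3 (d₂ := e₃ - e₁) (d₃ := e₃ - e₂) (y := Y)
        (by rw [hEQ]; ring) v31 v32 hs hg (by rw [map_sub, uX, f₃]) uY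
      constructor
      · rw [hx, map_add, map_mul, map_add, map_add, f₁, w1, w2, w3]
      · rw [hy', map_mul, map_mul, map_add, map_add, map_add, w1, w2, w3]

end

end Pool.Agent.EFN
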