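import Pool.Agent.EFN.F2
import Pool.Agent.EFN.B5
import Pool.Agent.TIFL.F1

/-!
# The characters of the points of order two
-/

set_option autoImplicit false
set_option linter.unusedSectionVars false

namespace Pool.Agent.EFN

open WeierstrassCurve WeierstrassCurve.Affine EFF TIFL

open scoped Classical

section

variable {k : Type} [Field k] {W : WeierstrassCurve (RatFunc k)}

/-- the pairing with a point of order two -/
noncomputable def chi (e : Kb k) (P : Pts W (Kb k)) : (Kb k)ˣ :=
  if xo W P = none ∨ xo W P = some e then 1 else -1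

theorem chi_zero (e : Kb k) : chi e (0 : Pts W (Kb k)) = 1 := by
  rw [chi, if_pos]
  exact Or.inl rfl

theorem chi_or (e : Kb k) (P : Pts W (Kb k)) : chi e P = 1 ∨ chi e P = -1 := by
  rw [chi]
  split_ifs
  · exact Or.inl rfl
  · exact Or.inr rfl

theorem xo_zero {P : Pts W (Kb k)} (h : xo W P = none) : P = 0 := by
  cases P with
  | zero => rfl
  | some x y h' => simp [xo] at h

variable {e₁ e₂ e₃ : Kb k} (hW : Rts (W.baseChange (Kb k)).toAffine e₁ e₂ e₃)

include hW

theorem one_ne_neg : (1 : (Kb k)ˣ) ≠ -1 := by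
  intro h
  have h1 : (1 : Kb k) = -1 := by
    have := congrArg (fun u : (Kb k)ˣ => (u : Kb k)) h
    simpa using this
  apply hW.two
  linear_combination h1

theorem xo_inj {P Q : Pts W (Kb k)} (hP : 2 • P = 0) (hQ : 2 • Q = 0)
    (he : xo W P = xo W Q) : P = Q := by
  cases P with
  | zero =>
    cases Q with
    | zero => rfl
    | some x y h => simp [xo] at he
  | some x y h =>
    cases Q with
    | zero => simp [xo] at he
    | some x' y' h' =>
      have hy := y_zero hW (h := h) hP
      have hy' := y_zero hW (h := h') hQ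
      subst hy hy'
      have hx : x = x' := by simpa [xo] using he
      subst hx
      rfl

theorem xo_cases {P : Pts W (Kb k)} (hP : 2 • P = 0) (h0 : P ≠ 0) :
    xo W P = some e₁ ∨ xo W P = some e₂ ∨ xo W P = some e₃ := by
  cases P with
  | zero => exact absurd rfl h0
  | some x y h =>
    have hy := y_zero hW (h := h) hP
    subst hy
    rcases x_root hW h with h | h | h <;> simp [xo, h]

theorem chi_mul {P Q : Pts W (Kb k)} (hP : 2 • P = 0) (hQ : 2 • Q = 0) :
    chi e₁ (P + Q) = chi e₁ P * chi e₁ Q := by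
  by_cases hP0 : P = 0
  · rw [hP0, zero_add, chi_zero, one_mul]
  by_cases hQ0 : Q = 0
  · rw [hQ0, add_zero, chi_zero, mul_one]
  by_cases hPQ : P = Q
  · rw [← hPQ, ← two_nsmul, hP, chi_zero]
    rcases chi_or e₁ P with h | h <;> rw [h]
    · rw [one_mul]
    · rw [neg_mul_neg, one_mul]
  have h2 : 2 • (P + Q) = 0 := by rw [smul_add, hP, hQ, add_zero]
  have h0 : P + Q ≠ 0 := by
    intro h
    apply hPQ
    rw [two_nsmul] at hQ
    rw [eq_neg_of_add_eq_zero_left h, ← eq_neg_of_add_eq_zero_left hQ]
  have c1 := xo_cases hW hP hP0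
  have c2 := xo_cases hW hQ hQ0
  have c3 := xo_cases hW h2 h0
  have d1 : xo W P ≠ xo W Q := fun h => hPQ (xo_inj hW hP hQ h)
  have d2 : xo W (P + Q) ≠ xo W P := fun h => hQ0 (by
    have := xo_inj hW h2 hP h
    exact left_eq_add.1 this.symm)
  have d3 : xo W (P + Q) ≠ xo W Q := fun h => hP0 (by
    have := xo_inj hW h2 hQ h
    exact right_eq_add.1 this.symm)
  have n12 := hW.n12
  have n13 := hW.n13
  have n23 := hW.n23
  unfold chi
  generalize xo W P = a at *
  generalize xo W Q = b at *
  generalize xo W (P + Q) = c at *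
  rcases c1 with rfl | rfl | rfl <;> rcases c2 with rfl | rfl | rfl <;>
    rcases c3 with rfl | rfl | rfl <;> simp_all [eq_comm]

theorem chi_both {P : Pts W (Kb k)} (h1 : chi e₁ P = 1) (h2 : chi e₂ P = 1) : P = 0 := by
  have hne := one_ne_neg hW
  unfold chi at h1 h2
  split_ifs at h1 h2 with a1 a2 a3
  · rcases a1 with a1 | a1
    · exact xo_zero a1
    · rcases a2 with a2 | a2
      · exact xo_zero a2
      · exfalso
        rw [a1] at a2
        exact hW.n12 (Option.some.inj a2)
  · exact absurd h2.symm hne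
  · exact absurd h1.symm hne
  · exact absurd h1.symm hne

/-- the action on the points of order two -/
theorem act_two {s : Kb k ≃ₐ[RatFunc k] Kb k} (f₁ : s e₁ = e₁) (f₂ : s e₂ = e₂) (f₃ : s e₃ = e₃)
    {P : Pts W (Kb k)} (hP : 2 • P = 0) : act W s P = P := by
  cases P with
  | zero => rfl
  | some x y h =>
    have hy := y_zero hW (h := h) hP
    subst hy
    rw [act_eq_iff]
    refine ⟨?_, map_zero _⟩
    rcases x_root hW h with h | h | h <;> rw [h] <;> assumption

end

end Pool.Agent.EFN
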