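import Pool.Agent.EFN.F5
import Pool.Agent.EFN.M2

/-!
# The `2`-primary component of the Tate-Shafarevich group is finite
-/

set_option autoImplicit false
set_option linter.unusedSectionVars false

namespace Pool.Agent.EFN

open WeierstrassCurve WeierstrassCurve.Affine EFF Polynomial

open scoped Classical

section

variable {k : Type} [Field k] (W : WeierstrassCurve (RatFunc k))

/-- the group of the locally trivial crossed homomorphisms -/
def CG : AddSubgroup ((Kb k ≃ₐ[RatFunc k] Kb k) → Pts W (Kb k)) where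
  carrier := {c | LT W c}
  zero_mem' := by
    have h := lt_pt (0 : Pts W (Kb k))
    simp only [map_zero, sub_zero] at h
    exact h
  add_mem' := fun h h' => h.add h'
  neg_mem' := by
    intro c hc
    have h := (lt_pt (0 : Pts W (Kb k))).sub hc
    simp only [map_zero, sub_zero, zero_sub] at h
    exact h

/-- the subgroup of the principal ones -/
def PG : AddSubgroup (CG W) where
  carrier := {c | Principal W ⊤ c.1}
  zero_mem' := by
    have h := principal_pt ⊤ (0 : Pts W (Kb k))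
    simp only [map_zero, sub_zero] at h
    exact h
  add_mem' := fun h h' => Principal.add h h'
  neg_mem' := by
    intro c hc
    have h := Principal.sub (principal_pt ⊤ (0 : Pts W (Kb k))) hc
    simp only [map_zero, sub_zero, zero_sub] at h
    exact h

/-- `Ш` -/
abbrev Sha : Type := CG W ⧸ PG W

variable {W}

theorem sha_eq_zero {c : CG W} : (QuotientAddGroup.mk c : Sha W) = 0 ↔ Principal W ⊤ c.1 :=
  QuotientAddGroup.eq_zero_iff c

theorem nsmul_val (n : ℕ) (c : CG W) : (n • c).1 = fun g => n • c.1 g := rfl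

/-- **Finiteness.** -/
theorem sha_fin [Finite k] (h2 : (2 : k) ≠ 0) (h1 : W.a₁ = 0) (h3 : W.a₃ = 0) (hΔ : W.Δ ≠ 0)
    (hT : ∀ c : ℕ → (Kb k ≃ₐ[RatFunc k] Kb k) → Pts W (Kb k), ShaSys W k 2 c →
      ∀ n, Principal W ⊤ (c n)) :
    {a : Sha W | ∃ n : ℕ, 2 ^ n • a = 0}.Finite := by
  have h2b : (2 : Kb k) ≠ 0 := by
    rw [← map_ofNat (algebraMap k (Kb k))]
    exact (_root_.map_ne_zero _).2 h2
  obtain ⟨e₁, e₂, e₃, hW⟩ := exists_rts (W.baseChange (Kb k)).toAffine
    (by
      show algebraMap _ _ W.a₁ = 0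
      rw [h1, map_zero])
    (by
      show algebraMap _ _ W.a₃ = 0
      rw [h3, map_zero]) h2b
    (by
      show (W.map (algebraMap (RatFunc k) (Kb k))).Δ ≠ 0
      rw [WeierstrassCurve.map_Δ]
      exact (_root_.map_ne_zero _).2 hΔ)
  refine fin_two_power ?_ ?_
  · have hf := sel_fin h2 hW
    have := hf.to_subtype
    refine (Set.finite_range (fun c : {c : (Kb k ≃ₐ[RatFunc k] Kb k) → Pts W (Kb k) |
      LT W c ∧ ∀ g, 2 • c g = 0} => (QuotientAddGroup.mk (⟨c.1, c.2.1⟩ : CG W) : Sha W))).subset ?_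
    intro a
    induction a using QuotientAddGroup.induction_on with
    | H c =>
      intro ha
      have ha' : (QuotientAddGroup.mk (2 • c) : Sha W) = 0 := ha
      rw [sha_eq_zero] at ha'
      obtain ⟨c', hc', h2', h3'⟩ := exists_two hW c.2 ha'
      refine ⟨⟨c', hc', h2'⟩, ?_⟩
      show (QuotientAddGroup.mk (⟨c', hc'⟩ : CG W) : Sha W) = QuotientAddGroup.mk c
      rw [eq_comm, ← sub_eq_zero]
      have h4 : (QuotientAddGroup.mk (c - ⟨c', hc'⟩) : Sha W) = 0 := sha_eq_zero.2 h3'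
      exact h4
  · intro u hu hu'
    choose c hc using fun n => QuotientAddGroup.mk_surjective (u n)
    have hS : ShaSys W k 2 (fun n => (c n).1) := by
      refine ⟨fun n => (c n).2.crossed, ?_, fun n => ?_, fun n V hV hV' => (c n).2.loc V hV hV'⟩
      · rw [← sha_eq_zero, hc, hu]
      · have h4 : (QuotientAddGroup.mk (2 • c (n + 1) - c n) : Sha W) = 0 := by
          have : (QuotientAddGroup.mk (2 • c (n + 1) - c n) : Sha W) =
            2 • (QuotientAddGroup.mk (c (n + 1)) : Sha W) - QuotientAddGroup.mk (c n) := rfl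
          rw [this, hc, hc, hu', sub_self]
        exact sha_eq_zero.1 h4
    intro n
    rw [← hc n, sha_eq_zero]
    exact hT _ hS n

/-- **Finiteness**, in terms of crossed homomorphisms. -/
theorem sha_two [Finite k] (h2 : (2 : k) ≠ 0) (h1 : W.a₁ = 0) (h3 : W.a₃ = 0) (hΔ : W.Δ ≠ 0)
    (hT : ∀ c : ℕ → (Kb k ≃ₐ[RatFunc k] Kb k) → Pts W (Kb k), ShaSys W k 2 c →
      ∀ n, Principal W ⊤ (c n)) :
    ∃ R : Set ((Kb k ≃ₐ[RatFunc k] Kb k) → Pts W (Kb k)), R.Finite ∧
      (∀ r ∈ R, Crossed W r ∧ ∀ V : ValuationSubring (Kb k),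
        (∀ x : k, algebraMap k (Kb k) x ∈ V) → V ≠ ⊤ → Principal W (T1B.stab V) r) ∧
      ∀ c : (Kb k ≃ₐ[RatFunc k] Kb k) → Pts W (Kb k), Crossed W c →
        (∀ V : ValuationSubring (Kb k),
          (∀ x : k, algebraMap k (Kb k) x ∈ V) → V ≠ ⊤ → Principal W (T1B.stab V) c) →
        (∃ n : ℕ, Principal W ⊤ (fun g => 2 ^ n • c g)) →
        ∃ r ∈ R, Principal W ⊤ (fun g => c g - r g) := by
  have hfin := sha_fin h2 h1 h3 hΔ hT
  refine ⟨(fun a : Sha W => (Quotient.out a : CG W).1) '' {a : Sha W | ∃ n : ℕ, 2 ^ n • a = 0},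
    hfin.image _, ?_, ?_⟩
  · rintro _ ⟨a, -, rfl⟩
    exact ⟨(Quotient.out a : CG W).2.crossed, (Quotient.out a : CG W).2.loc⟩
  · rintro c hc hl ⟨n, hn⟩
    obtain ⟨c', hc'⟩ : ∃ c' : CG W, c' = ⟨c, hc, hl⟩ := ⟨_, rfl⟩
    have h4 : (QuotientAddGroup.mk (2 ^ n • c') : Sha W) = 0 := by
      rw [sha_eq_zero, hc']
      exact hn
    refine ⟨_, ⟨QuotientAddGroup.mk c', ⟨n, h4⟩, rfl⟩, ?_⟩
    have h5 : (QuotientAddGroup.mk (c' - (Quotient.out (QuotientAddGroup.mk c' : Sha W) : CG W)) :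
        Sha W) = 0 := by
      have h6 : (QuotientAddGroup.mk (c' - (Quotient.out (QuotientAddGroup.mk c' : Sha W) : CG W)) :
        Sha W) = QuotientAddGroup.mk c' -
          QuotientAddGroup.mk (Quotient.out (QuotientAddGroup.mk c' : Sha W) : CG W) := rfl
      rw [h6, sub_eq_zero]
      exact (Quotient.out_eq _).symm
    have h7 := sha_eq_zero.1 h5
    rw [hc'] at h7
    rw [hc']
    exact h7

end

end Pool.Agent.EFN
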