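import Mathlib

/-!
# Halving of points
-/

set_option autoImplicit false
set_option linter.unusedSectionVars false

namespace Pool.Agent.EFN

open WeierstrassCurve WeierstrassCurve.Affine

open scoped Classical

variable {F : Type*} [Field F]

/-- the curve `y² = (x - e₁) (x - e₂) (x - e₃)` -/
structure Rts (W : Affine F) (e₁ e₂ e₃ : F) : Prop where
  a1 : W.a₁ = 0
  a3 : W.a₃ = 0
  a2 : W.a₂ = -(e₁ + e₂ + e₃)
  a4 : W.a₄ = e₁ * e₂ + e₁ * e₃ + e₂ * e₃
  a6 : W.a₆ = -(e₁ * e₂ * e₃)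
  two : (2 : F) ≠ 0
  n12 : e₁ ≠ e₂
  n13 : e₁ ≠ e₃
  n23 : e₂ ≠ e₃

namespace Rts

variable {W : Affine F} {e₁ e₂ e₃ : F} (hW : Rts W e₁ e₂ e₃)

include hW

theorem rot : Rts W e₂ e₃ e₁ := by
  refine ⟨hW.a1, hW.a3, ?_, ?_, ?_, hW.two, hW.n23, hW.n12.symm, hW.n13.symm⟩
  · rw [hW.a2]; ring
  · rw [hW.a4]; ring
  · rw [hW.a6]; ring

theorem swap : Rts W e₁ e₃ e₂ := by
  refine ⟨hW.a1, hW.a3, ?_, ?_, ?_, hW.two, hW.n13, hW.n12, hW.n23.symm⟩
  · rw [hW.a2]; ring
  · rw [hW.a4]; ring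
  · rw [hW.a6]; ring

theorem eqn (x y : F) : W.Equation x y ↔ y ^ 2 = (x - e₁) * (x - e₂) * (x - e₃) := by
  rw [equation_iff, hW.a1, hW.a3, hW.a2, hW.a4, hW.a6]
  constructor
  · intro h; linear_combination h
  · intro h; linear_combination h

theorem negy (x y : F) : W.negY x y = -y := by
  rw [negY, hW.a1, hW.a3]; ring

theorem ne_negy {y : F} (hy : y ≠ 0) (x : F) : y ≠ W.negY x y := by
  rw [hW.negy]
  intro h
  apply mul_ne_zero hW.two hy
  linear_combination h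

theorem nons {x y : F} (h : y ^ 2 = (x - e₁) * (x - e₂) * (x - e₃)) : W.Nonsingular x y := by
  rw [nonsingular_iff', hW.eqn]
  refine ⟨h, ?_⟩
  by_cases hy : y = 0
  · left
    rw [hW.a1, hW.a2, hW.a4]
    have h0 : (x - e₁) * (x - e₂) * (x - e₃) = 0 := by rw [← h, hy]; ring
    have n12 := sub_ne_zero.2 hW.n12
    have n13 := sub_ne_zero.2 hW.n13
    have n23 := sub_ne_zero.2 hW.n23
    rcases mul_eq_zero.1 h0 with h0 | h0
    · rcases mul_eq_zero.1 h0 with h0 | h0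
      · intro h1
        apply mul_ne_zero n12 n13
        linear_combination -h1 - (3 * x + 3 * e₁ - 2 * (e₁ + e₂ + e₃)) * h0
      · intro h1
        apply mul_ne_zero n12 n23
        linear_combination h1 + (3 * x + 3 * e₂ - 2 * (e₁ + e₂ + e₃)) * h0
    · intro h1
      apply mul_ne_zero n13 n23
      linear_combination -h1 - (3 * x + 3 * e₃ - 2 * (e₁ + e₂ + e₃)) * h0
  · right
    rw [hW.a1, hW.a3]
    intro h1
    apply mul_ne_zero hW.two hy
    linear_combination h1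

/-- the slope of the tangent -/
theorem slope_self {x y : F} (hy : y ≠ 0) : W.slope x x y y =
    ((x - e₁) * (x - e₂) + (x - e₁) * (x - e₃) + (x - e₂) * (x - e₃)) / (2 * y) := by
  rw [slope_of_Y_ne rfl (hW.ne_negy hy x), hW.negy, hW.a1, hW.a2, hW.a4]
  congr 1
  · ring
  · ring

theorem addx (x x' l : F) : W.addX x x' l = l ^ 2 + (e₁ + e₂ + e₃) - x - x' := by
  rw [addX, hW.a1, hW.a2]; ring

theorem addy (x x' y l : F) : W.addY x x' y l = -(y + l * (W.addX x x' l - x)) := by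
  rw [addY, negAddY, hW.negy]; ring

/-- the doubling of a point -/
theorem dbl {x y : F} (hy : y ≠ 0) (h : W.Nonsingular x y) {x' y' : F} (h' : W.Nonsingular x' y')
    (he : Point.some x y h + Point.some x y h = Point.some x' y' h') :
    x' = (((x - e₁) * (x - e₂) + (x - e₁) * (x - e₃) + (x - e₂) * (x - e₃)) / (2 * y)) ^ 2 +
      (e₁ + e₂ + e₃) - x - x := by
  rw [Point.add_self_of_Y_ne (hW.ne_negy hy x)] at he
  have h1 := (Point.some.injEq _ _ _ _ _ _).mp he
  rw [← h1.1, hW.addx, hW.slope_self hy]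

/-- halves of a point have coordinates with square roots -/
theorem half {x y : F} (hy : y ≠ 0) (h : W.Nonsingular x y) {x' y' : F} (h' : W.Nonsingular x' y')
    (he : Point.some x y h + Point.some x y h = Point.some x' y' h') :
    ∃ w₁ w₂ w₃ : F, w₁ ^ 2 = x' - e₁ ∧ w₂ ^ 2 = x' - e₂ ∧ w₃ ^ 2 = x' - e₃ ∧
      (w₁ + w₂) * (w₁ + w₃) = x - e₁ := by
  have hx' := hW.dbl hy h h' he
  have heq : y ^ 2 = (x - e₁) * (x - e₂) * (x - e₃) := (hW.eqn x y).1 h.1
  have h2 := hW.two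
  refine ⟨((x - e₁) * (x - e₂) + (x - e₁) * (x - e₃) - (x - e₂) * (x - e₃)) / (2 * y),
    ((x - e₁) * (x - e₂) + (x - e₂) * (x - e₃) - (x - e₁) * (x - e₃)) / (2 * y),
    ((x - e₁) * (x - e₃) + (x - e₂) * (x - e₃) - (x - e₁) * (x - e₂)) / (2 * y), ?_, ?_, ?_, ?_⟩
  · rw [hx', div_pow, div_pow, ← sub_eq_zero]
    field_simp
    linear_combination (4 * ((x - e₂) + (x - e₃))) * heq
  · rw [hx', div_pow, div_pow, ← sub_eq_zero]
    field_simp
    linear_combination (4 * ((x - e₁) + (x - e₃))) * heq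
  · rw [hx', div_pow, div_pow, ← sub_eq_zero]
    field_simp
    linear_combination (4 * ((x - e₁) + (x - e₂))) * heq
  · rw [← add_div, ← add_div, div_mul_div_comm, ← sub_eq_zero]
    field_simp
    linear_combination (-4 * (x - e₁)) * heq

end Rts

end Pool.Agent.EFN
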