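import Pool.Agent.EFN.A
import Pool.Agent.EFN.H4
import Pool.Agent.EFM.Ln

/-!
# Descent from the algebraic closure of `k` to `k`
-/

set_option autoImplicit false
set_option linter.unusedSectionVars false

namespace Pool.Agent.EFN

open WeierstrassCurve WeierstrassCurve.Affine EFF Finset

open scoped Classical

section

variable {k : Type} [Field k] (W : WeierstrassCurve (RatFunc k))

theorem m_act_mul (g h : Kb k ≃ₐ[RatFunc k] Kb k) (P : Pts W (Kb k)) :
    act W (g * h) P = act W g (act W h P) := by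
  cases P with
  | zero => rfl
  | some x y hxy => rfl

theorem m_act_one (P : Pts W (Kb k)) : act W (1 : Kb k ≃ₐ[RatFunc k] Kb k) P = P := by
  cases P with
  | zero => rfl
  | some x y hxy => rfl

theorem m_one (c : (Kb k ≃ₐ[RatFunc k] Kb k) → Pts W (Kb k)) (hc : Crossed W c) : c 1 = 0 := by
  have h := hc.2 1 1
  rw [mul_one, m_act_one] at h
  exact (left_eq_add.mp h)

theorem m_pow_mul (φ : Kb k ≃ₐ[RatFunc k] Kb k) (a : Kb k) (j n : ℕ) (h : (φ ^ j) a = a) :
    (φ ^ (j * n)) a = a := by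
  induction n with
  | zero => simp
  | succ n ih => rw [Nat.mul_succ, pow_add, AlgEquiv.mul_apply, h, ih]

/-- some power of `φ` fixes a given element -/
theorem m_pow_one (φ : Kb k ≃ₐ[RatFunc k] Kb k) (a : Kb k) : ∃ j : ℕ, 0 < j ∧ (φ ^ j) a = a := by
  have hint : IsIntegral (RatFunc k) a := Algebra.IsIntegral.isIntegral a
  have hmem : ∀ i : ℕ, (φ ^ i) a ∈ (minpoly (RatFunc k) a).rootSet (Kb k) := by
    intro i
    rw [Polynomial.mem_rootSet]
    refine ⟨minpoly.ne_zero hint, ?_⟩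
    have h : Polynomial.aeval ((φ ^ i) a) (minpoly (RatFunc k) a) =
        (φ ^ i) (Polynomial.aeval a (minpoly (RatFunc k) a)) :=
      Polynomial.aeval_algHom_apply ((φ ^ i : Kb k ≃ₐ[RatFunc k] Kb k) : Kb k →ₐ[RatFunc k] Kb k)
        a (minpoly (RatFunc k) a)
    rw [h, minpoly.aeval, map_zero]
  have : Finite ((minpoly (RatFunc k) a).rootSet (Kb k)) :=
    (minpoly (RatFunc k) a).rootSet_finite (Kb k)
  obtain ⟨i, j, hij, he⟩ := Finite.exists_ne_map_eq_of_infinite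
    (fun i : ℕ => (⟨(φ ^ i) a, hmem i⟩ : (minpoly (RatFunc k) a).rootSet (Kb k)))
  have he' : (φ ^ i) a = (φ ^ j) a := congrArg Subtype.val he
  have key : ∀ i j : ℕ, i < j → (φ ^ i) a = (φ ^ j) a → ∃ j : ℕ, 0 < j ∧ (φ ^ j) a = a := by
    intro i j hlt h
    refine ⟨j - i, Nat.sub_pos_of_lt hlt, ?_⟩
    have h1 : φ ^ j = φ ^ i * φ ^ (j - i) := by rw [← pow_add, Nat.add_sub_cancel' hlt.le]
    rw [h1, AlgEquiv.mul_apply] at h
    exact ((φ ^ i).injective h).symm
  rcases lt_or_gt_of_ne hij with h | h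
  · exact key i j h he'
  · exact key j i h he'.symm

/-- some power of `φ` fixes a given finite set -/
theorem m_pow_fix (φ : Kb k ≃ₐ[RatFunc k] Kb k) (S : Finset (Kb k)) :
    ∃ j : ℕ, 0 < j ∧ ∀ a ∈ S, (φ ^ j) a = a := by
  induction S using Finset.induction_on with
  | empty => exact ⟨1, one_pos, by simp⟩
  | insert a S _ ih =>
    obtain ⟨j, hj, hS⟩ := ih
    obtain ⟨i, hi, ha⟩ := m_pow_one φ a
    refine ⟨i * j, Nat.mul_pos hi hj, fun b hb => ?_⟩
    rcases Finset.mem_insert.1 hb with rfl | hb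
    · exact m_pow_mul φ _ i j ha
    · rw [mul_comm]
      exact m_pow_mul φ b j i (hS b hb)

/-- some power of `φ` fixes a given point -/
theorem m_point (φ : Kb k ≃ₐ[RatFunc k] Kb k) (P : Pts W (Kb k)) :
    ∃ j : ℕ, 0 < j ∧ act W (φ ^ j) P = P := by
  cases P with
  | zero => exact ⟨1, one_pos, rfl⟩
  | some x y hxy =>
    obtain ⟨j, hj, hS⟩ := m_pow_fix φ {x, y}
    exact ⟨j, hj, (act_eq_iff W (φ ^ j) hxy).2 ⟨hS x (by simp), hS y (by simp)⟩⟩

/-- the group of the points fixed by `geo` -/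
def Mg : AddSubgroup (Pts W (Kb k)) where
  carrier := {P | Fix W P}
  zero_mem' := fun s _ => map_zero _
  add_mem' := fun {P Q} hP hQ s hs => by rw [map_add, hP s hs, hQ s hs]
  neg_mem' := fun {P} hP s hs => by rw [map_neg, hP s hs]

theorem geo_norm (g s : Kb k ≃ₐ[RatFunc k] Kb k) (hs : s ∈ T1B.geo k (RatFunc k) (Kb k)) :
    g⁻¹ * s * g ∈ T1B.geo k (RatFunc k) (Kb k) := by
  intro x hx
  have h1 : IsAlgebraic k (g x) := hx.algHom ((g.toAlgHom.restrictScalars k : Kb k →ₐ[k] Kb k))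
  have h2 : s (g x) = g x := hs (g x) h1
  rw [AlgEquiv.mul_apply, AlgEquiv.mul_apply, h2]
  exact g.symm_apply_apply x

theorem Fix.act {P : Pts W (Kb k)} (hP : Fix W P) (g : Kb k ≃ₐ[RatFunc k] Kb k) :
    Fix W (EFF.act W g P) := by
  intro s hs
  have h1 : s * g = g * (g⁻¹ * s * g) := by group
  rw [← m_act_mul, h1, m_act_mul, hP _ (geo_norm g s hs)]

/-- the action of an automorphism on `M` -/
noncomputable def Frm (φ : Kb k ≃ₐ[RatFunc k] Kb k) : AddMonoid.End (Mg W) :=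
  ((act W φ).comp (Mg W).subtype).codRestrict (Mg W) (fun P => Fix.act W P.2 φ)

theorem Frm_ap (φ : Kb k ≃ₐ[RatFunc k] Kb k) (P : Mg W) : ((Frm W φ P : Mg W) : Pts W (Kb k)) =
    act W φ P := rfl

theorem Frm_pow (φ : Kb k ≃ₐ[RatFunc k] Kb k) (n : ℕ) (P : Mg W) :
    (((Frm W φ ^ n) P : Mg W) : Pts W (Kb k)) = act W (φ ^ n) P := by
  induction n with
  | zero => rw [pow_zero, pow_zero, m_act_one, one_ap]
  | succ n ih => rw [pow_succ', pow_succ', mul_ap, Frm_ap, ih, m_act_mul]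

/-- the action on a point is locally constant -/
theorem m_lc (P : Pts W (Kb k)) : IsLocallyConstant (fun g : Kb k ≃ₐ[RatFunc k] Kb k => act W g P) := by
  cases P with
  | zero => exact IsLocallyConstant.const (0 : Pts W (Kb k))
  | some x y hxy =>
    have hx : IsIntegral (RatFunc k) x := Algebra.IsIntegral.isIntegral x
    have hy : IsIntegral (RatFunc k) y := Algebra.IsIntegral.isIntegral y
    have hfd := IntermediateField.finiteDimensional_adjoin_pair hx hy
    rw [IsLocallyConstant.iff_exists_open]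
    intro g
    refine ⟨(fun h : Kb k ≃ₐ[RatFunc k] Kb k => g⁻¹ * h) ⁻¹'
      ((IntermediateField.adjoin (RatFunc k) {x, y}).fixingSubgroup :
        Set (Kb k ≃ₐ[RatFunc k] Kb k)),
      (IntermediateField.fixingSubgroup_isOpen _).preimage (continuous_const_mul _), ?_, ?_⟩
    · show g⁻¹ * g ∈ (IntermediateField.adjoin (RatFunc k) {x, y}).fixingSubgroup
      rw [inv_mul_cancel]
      exact one_mem _
    · intro h hh
      have h1 : ∀ z ∈ IntermediateField.adjoin (RatFunc k) {x, y}, (g⁻¹ * h) z = z :=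
        (IntermediateField.mem_fixingSubgroup_iff _ _).1 hh
      have h2 : ∀ z ∈ IntermediateField.adjoin (RatFunc k) {x, y}, h z = g z := by
        intro z hz
        have h3 : g ((g⁻¹ * h) z) = g z := by rw [h1 z hz]
        rw [← h3, ← AlgEquiv.mul_apply, mul_inv_cancel_left]
      show Point.some _ _ _ = Point.some _ _ _
      simp only [Point.some.injEq]
      exact ⟨h2 x (IntermediateField.subset_adjoin (RatFunc k) _ (by simp)),
        h2 y (IntermediateField.subset_adjoin (RatFunc k) _ (by simp))⟩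

/-- **Descent**, given the finiteness of `M / 2 M` and a bound for the `2`-power torsion. -/
theorem main_of [Finite k] (R : Finset (Pts W (Kb k))) (hRf : ∀ r ∈ R, Fix W r)
    (hR : ∀ P, Fix W P → ∃ r ∈ R, ∃ Q, Fix W Q ∧ P = r + 2 • Q)
    (e : ℕ) (he : ∀ (n : ℕ) (P : Pts W (Kb k)), Fix W P → 2 ^ n • P = 0 → 2 ^ e • P = 0)
    (c : ℕ → (Kb k ≃ₐ[RatFunc k] Kb k) → Pts W (Kb k)) (hc : ShaSys W k 2 c)
    (hgeo : ∀ n, Principal W (T1B.geo k (RatFunc k) (Kb k)) (c n)) (n : ℕ) :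
    Principal W ⊤ (c n) := by
  obtain ⟨φ, hφ⟩ := ln_frob (k := k) (K := RatFunc k) (Kb := Kb k) (fun a ha => by
    obtain ⟨b, hb⟩ := rat_alg a ha
    exact ⟨b, hb⟩)
  -- the algebraic lemma
  have hFin : ∀ x : Mg W, ∃ j : ℕ, 0 < j ∧ (Frm W φ ^ j) x = x := by
    intro x
    obtain ⟨j, hj, h⟩ := m_point W φ x
    exact ⟨j, hj, Subtype.ext (by rw [Frm_pow, h])⟩
  obtain ⟨a, ha⟩ := alg (Frm W φ) hFin (R.attach.image fun r => (⟨r.1, hRf r.1 r.2⟩ : Mg W))
    (by
      rintro ⟨P, hP⟩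
      obtain ⟨r, hr, Q, hQ, hPQ⟩ := hR P hP
      refine ⟨⟨r, hRf r hr⟩, Finset.mem_image.2 ⟨⟨r, hr⟩, Finset.mem_attach _ _, rfl⟩,
        ⟨Q, hQ⟩, Subtype.ext hPQ⟩)
    e (by
      rintro m ⟨P, hP⟩ h0
      have h1 : 2 ^ m • P = 0 := congrArg Subtype.val h0
      exact Subtype.ext (he m P hP h1))
  obtain ⟨ht1, ht2⟩ := c_tors W 2 c hc
  obtain ⟨P, hP⟩ := hgeo (n + a)
  obtain ⟨c', hc'⟩ : ∃ c' : (Kb k ≃ₐ[RatFunc k] Kb k) → Pts W (Kb k),
      c' = fun g => c (n + a) g - (act W g P - P) := ⟨_, rfl⟩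
  have hcr : Crossed W c' := by
    rw [hc']
    refine ⟨?_, fun g h => ?_⟩
    · exact (hc.crossed (n + a)).1.sub ((m_lc W P).sub (IsLocallyConstant.const P))
    · show c (n + a) (g * h) - (act W (g * h) P - P) = _
      rw [(hc.crossed (n + a)).2, m_act_mul]
      simp only [map_sub]
      abel
  have h0 : ∀ s ∈ T1B.geo k (RatFunc k) (Kb k), c' s = 0 := by
    intro s hs
    rw [hc']
    show c (n + a) s - (act W s P - P) = 0
    rw [hP s hs, sub_self]
  -- `x = c' φ`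
  have hx : Fix W (c' φ) := by
    intro s hs
    have h1 : s * φ = φ * (φ⁻¹ * s * φ) := by group
    have h2 := hcr.2 s φ
    rw [h0 s hs, zero_add, h1, hcr.2, h0 _ (geo_norm φ s hs), map_zero, add_zero] at h2
    exact h2.symm
  have hcpow : ∀ n : ℕ, c' (φ ^ n) = ∑ i ∈ Finset.range n, act W (φ ^ i) (c' φ) := by
    intro n
    induction n with
    | zero => rw [pow_zero, m_one W c' hcr, Finset.sum_range_zero]
    | succ n ih => rw [pow_succ, hcr.2, ih, Finset.sum_range_succ]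
  obtain ⟨S, hS, -⟩ := c_fin W c' hcr
  obtain ⟨j, hj, hjS⟩ := m_pow_fix φ S
  have hzero : c' (φ ^ j) = 0 := by
    rw [hS (φ ^ j) 1 (fun a ha => by rw [hjS a ha]; rfl)]
    exact m_one W c' hcr
  obtain ⟨Q, hQ⟩ := ht1 (n + a)
  have hQ' : ∀ g, 2 ^ (n + a) • c' g =
      act W g (Q - 2 ^ (n + a) • P) - (Q - 2 ^ (n + a) • P) := by
    intro g
    have h1 := hQ g trivial
    simp only at h1
    rw [hc']
    show 2 ^ (n + a) • (c (n + a) g - (act W g P - P)) = _
    rw [smul_sub, h1, map_sub, map_nsmul, smul_sub]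
    abel
  have hQgeo : Fix W (Q - 2 ^ (n + a) • P) := by
    intro s hs
    have h1 := hQ' s
    rw [h0 s hs, smul_zero] at h1
    exact (sub_eq_zero.1 h1.symm)
  obtain ⟨y, hy⟩ := ha ⟨c' φ, hx⟩ ⟨j, hj, by
    apply Subtype.ext
    rw [AddSubgroup.val_finset_sum]
    simp only [Frm_pow]
    rw [← hcpow, hzero]
    rfl⟩ ⟨n + a, ⟨Q - 2 ^ (n + a) • P, hQgeo⟩, Subtype.ext (by
      show 2 ^ (n + a) • c' φ = act W φ _ - _
      exact hQ' φ)⟩
  have hyφ : 2 ^ a • c' φ = act W φ (y : Pts W (Kb k)) - y := congrArg Subtype.val hy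
  obtain ⟨Z, hZ⟩ := ln_div (k := k) W φ hφ (fun g => 2 ^ a • c' g) ⟨hcr.1.comp fun P => 2 ^ a • P,
    fun g h => by
      show 2 ^ a • c' (g * h) = _
      rw [hcr.2, smul_add, map_nsmul]⟩ (fun s hs => by
      show 2 ^ a • c' s = 0
      rw [h0 s hs, smul_zero]) y (fun s hs => y.2 s hs) hyφ
  obtain ⟨Y, hY⟩ := ht2 n a
  refine ⟨Z + 2 ^ a • P - Y, fun g _ => ?_⟩
  have h1 := hZ g trivial
  have h2 := hY g trivial
  simp only at h1 h2
  have h3 : c n g = 2 ^ a • c (n + a) g - (act W g Y - Y) := by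
    rw [← h2]
    abel
  have h4 : 2 ^ a • c (n + a) g = act W g Z - Z + 2 ^ a • (act W g P - P) := by
    rw [← h1, hc']
    show _ = 2 ^ a • (c (n + a) g - (act W g P - P)) + _
    rw [smul_sub]
    abel
  rw [h3, h4]
  simp only [map_add, map_sub, map_nsmul, smul_sub]
  abel

end

end Pool.Agent.EFN
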