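import Pool.Agent.EFN.M2
import Pool.Agent.EFN.B5

/-!
# Descent from the algebraic closure of `k` to the finite field `k`, for the prime two
-/

set_option autoImplicit false

namespace Pool.Agent.EFN

open WeierstrassCurve WeierstrassCurve.Affine EFF Polynomial

/-- **Descent.** If `k` is finite, `2 ≠ 0` and the `j`-invariant of `y² = x³ + A₂ x² + A₄ x + A₆` is
not constant, then an element of `T₂ Ш` which becomes trivial over the algebraic closure of `k`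
is trivial. -/
theorem main {k : Type} [Field k] [Finite k] (h2 : (2 : k) ≠ 0) (W : WeierstrassCurve (RatFunc k))
    (h1 : W.a₁ = 0) (h3 : W.a₃ = 0) (hΔ : W.Δ ≠ 0)
    (hj : ∀ j : k, W.c₄ ^ 3 ≠ algebraMap k (RatFunc k) j * W.Δ)
    (c : ℕ → (AlgebraicClosure (RatFunc k) ≃ₐ[RatFunc k] AlgebraicClosure (RatFunc k)) →
      Pts W (AlgebraicClosure (RatFunc k))) (hc : ShaSys W k 2 c)
    (hgeo : ∀ n, Principal W (T1B.geo k (RatFunc k) (AlgebraicClosure (RatFunc k))) (c n)) (n : ℕ) :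
    Principal W ⊤ (c n) :=
  main_W h2 W h1 h3 hΔ hj (fin_quot h2 W h1 h3 hΔ) c hc hgeo n

/-- **Descent for the family.** -/
theorem main_crv {k : Type} [Field k] [Finite k] (h2 : (2 : k) ≠ 0) (a₂ a₄ a₆ : k[X])
    (hN : NonIso a₂ a₄ a₆) (φ : k[X]) (hφ : φ.natDegree ≠ 0)
    (c : ℕ → (AlgebraicClosure (RatFunc k) ≃ₐ[RatFunc k] AlgebraicClosure (RatFunc k)) →
      Pts (crv a₂ a₄ a₆ (aeval (RatFunc.X : RatFunc k) φ)) (AlgebraicClosure (RatFunc k)))
    (hc : ShaSys (crv a₂ a₄ a₆ (aeval (RatFunc.X : RatFunc k) φ)) k 2 c)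
    (hgeo : ∀ n, Principal (crv a₂ a₄ a₆ (aeval (RatFunc.X : RatFunc k) φ))
      (T1B.geo k (RatFunc k) (AlgebraicClosure (RatFunc k))) (c n)) (n : ℕ) :
    Principal (crv a₂ a₄ a₆ (aeval (RatFunc.X : RatFunc k) φ)) ⊤ (c n) :=
  main h2 _ rfl rfl (fam a₂ a₄ a₆ hN φ hφ).1 (fam a₂ a₄ a₆ hN φ hφ).2 c hc hgeo n

end Pool.Agent.EFN
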