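import Pool.Agent.EFN.F6

/-!
# The `2`-primary component of the Tate-Shafarevich group of the curves of the family is finite
-/

set_option autoImplicit false

namespace Pool.Agent.EFN

open WeierstrassCurve WeierstrassCurve.Affine EFF Polynomial

open scoped Classical

/-- **Finiteness for the family.** If `k` is finite, `2 ≠ 0` and the Tate module `T₂ Ш` vanishes,
then the `2`-primary component of `Ш` is finite. -/
theorem sha_crv {k : Type} [Field k] [Finite k] (h2 : (2 : k) ≠ 0) (a₂ a₄ a₆ : k[X])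
    (hN : NonIso a₂ a₄ a₆) (φ : k[X]) (hφ : φ.natDegree ≠ 0)
    (hT : ∀ c : ℕ → (AlgebraicClosure (RatFunc k) ≃ₐ[RatFunc k] AlgebraicClosure (RatFunc k)) →
      Pts (crv a₂ a₄ a₆ (aeval (RatFunc.X : RatFunc k) φ)) (AlgebraicClosure (RatFunc k)),
      ShaSys (crv a₂ a₄ a₆ (aeval (RatFunc.X : RatFunc k) φ)) k 2 c →
      ∀ n, Principal (crv a₂ a₄ a₆ (aeval (RatFunc.X : RatFunc k) φ)) ⊤ (c n)) :
    ∃ R : Set ((AlgebraicClosure (RatFunc k) ≃ₐ[RatFunc k] AlgebraicClosure (RatFunc k)) →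
      Pts (crv a₂ a₄ a₆ (aeval (RatFunc.X : RatFunc k) φ)) (AlgebraicClosure (RatFunc k))),
      R.Finite ∧
      (∀ r ∈ R, Crossed (crv a₂ a₄ a₆ (aeval (RatFunc.X : RatFunc k) φ)) r ∧
        ∀ V : ValuationSubring (AlgebraicClosure (RatFunc k)),
          (∀ x : k, algebraMap k (AlgebraicClosure (RatFunc k)) x ∈ V) → V ≠ ⊤ →
            Principal (crv a₂ a₄ a₆ (aeval (RatFunc.X : RatFunc k) φ)) (T1B.stab V) r) ∧
      ∀ c : (AlgebraicClosure (RatFunc k) ≃ₐ[RatFunc k] AlgebraicClosure (RatFunc k)) →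
        Pts (crv a₂ a₄ a₆ (aeval (RatFunc.X : RatFunc k) φ)) (AlgebraicClosure (RatFunc k)),
        Crossed (crv a₂ a₄ a₆ (aeval (RatFunc.X : RatFunc k) φ)) c →
        (∀ V : ValuationSubring (AlgebraicClosure (RatFunc k)),
          (∀ x : k, algebraMap k (AlgebraicClosure (RatFunc k)) x ∈ V) → V ≠ ⊤ →
            Principal (crv a₂ a₄ a₆ (aeval (RatFunc.X : RatFunc k) φ)) (T1B.stab V) c) →
        (∃ n : ℕ, Principal (crv a₂ a₄ a₆ (aeval (RatFunc.X : RatFunc k) φ)) ⊤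
          (fun g => 2 ^ n • c g)) →
        ∃ r ∈ R, Principal (crv a₂ a₄ a₆ (aeval (RatFunc.X : RatFunc k) φ)) ⊤
          (fun g => c g - r g) :=
  sha_two h2 rfl rfl (fam a₂ a₄ a₆ hN φ hφ).1 hT

end Pool.Agent.EFN
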